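import Pool.Agent.Lib.MP_60922f_co.T43Stmts

/-!
THREE COLOURS: module B (numbers not divisible by 3).
-/

set_option autoImplicit false

namespace Pool.Agent.Lib.MP_60922f_co.T43

open Filter Topology

namespace B38

theorem dig {k : ℕ} {e : ℤ} (he : e % 3 ≠ 0) :
    padicValInt 3 (3 ^ k * e) = k ∧ (3 ^ k * e) / (3 : ℤ) ^ k = e := by
  have he0 : e ≠ 0 := by rintro rfl; simp at he
  have h3 : ((3 : ℤ) ^ k) ≠ 0 := by positivity
  refine ⟨?_, Int.mul_ediv_cancel_left e h3⟩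
  have : Fact (Nat.Prime 3) := ⟨Nat.prime_three⟩
  rw [padicValInt.mul h3 he0]
  have h1 : padicValInt 3 ((3 : ℤ) ^ k) = k := by
    unfold padicValInt
    rw [Int.natAbs_pow]
    exact padicValNat.prime_pow k
  have h2 : padicValInt 3 e = 0 := by
    apply padicValInt.eq_zero_of_not_dvd
    intro h; apply he; exact Int.emod_eq_zero_of_dvd (by exact_mod_cast h)
  rw [h1, h2]; rfl

theorem col_one {n : ℕ} (h : n % 3 = 1) {k : ℕ} {e : ℤ} (he : e % 3 ≠ 0)
    (hn : (n : ℤ) - 4 = 3 ^ k * e) : col n = if e % 3 = 1 then 1 else 2 := by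
  unfold col
  rw [if_neg (by omega), if_pos h, hn, (dig he).1, (dig he).2]

theorem col_one_ne {n : ℕ} (h : n % 3 = 1) : col n ≠ 0 := by
  unfold col
  rw [if_neg (by omega), if_pos h]
  split_ifs <;> decide

theorem col_two {n : ℕ} (h : n % 3 = 2) : col n = 0 := by
  unfold col
  rw [if_pos h]

theorem split (F : Ultrafilter ℕ) (h2 : ∀ᶠ x in (F : Filter ℕ), x % 3 = 2) :
    (∃ (k : ℕ) (d : ℤ), 1 ≤ k ∧ (d = 1 ∨ d = 2) ∧
      ∀ᶠ x : ℕ in (F : Filter ℕ), ∃ e : ℤ, e % 3 = d ∧ (x : ℤ) - 2 = 3 ^ k * e) ∨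
    (∀ k : ℕ, ∀ᶠ x : ℕ in (F : Filter ℕ), (3 : ℤ) ^ k ∣ (x : ℤ) - 2) := by
  by_cases ha : ∃ (k : ℕ) (d : ℤ), 1 ≤ k ∧ (d = 1 ∨ d = 2) ∧
      ∀ᶠ x : ℕ in (F : Filter ℕ), ∃ e : ℤ, e % 3 = d ∧ (x : ℤ) - 2 = 3 ^ k * e
  · exact Or.inl ha
  · right
    have key : ∀ k : ℕ, ∀ᶠ x : ℕ in (F : Filter ℕ), (3 : ℤ) ^ (k + 1) ∣ (x : ℤ) - 2 := by
      intro k
      induction k with
      | zero =>
        refine h2.mono fun x hx => ?_
        rw [zero_add, pow_one]; omega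
      | succ k ih =>
        by_contra hcon
        have hcon' : ∀ᶠ x : ℕ in (F : Filter ℕ), ¬ ((3 : ℤ) ^ (k + 1 + 1) ∣ (x : ℤ) - 2) :=
          (Ultrafilter.eventually_not).2 hcon
        have hor : ∀ᶠ x : ℕ in (F : Filter ℕ),
            (∃ e : ℤ, e % 3 = 1 ∧ (x : ℤ) - 2 = 3 ^ (k + 1) * e) ∨
            (∃ e : ℤ, e % 3 = 2 ∧ (x : ℤ) - 2 = 3 ^ (k + 1) * e) := by
          refine (ih.and hcon').mono fun x hx => ?_
          obtain ⟨⟨e, he⟩, h3⟩ := hx
          have h4 : e % 3 = 0 ∨ e % 3 = 1 ∨ e % 3 = 2 := by omega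
          rcases h4 with h4 | h4 | h4
          · exfalso
            apply h3
            rw [he, pow_succ]
            exact mul_dvd_mul_left _ (Int.dvd_of_emod_eq_zero h4)
          · exact Or.inl ⟨e, h4, he⟩
          · exact Or.inr ⟨e, h4, he⟩
        rcases (Ultrafilter.eventually_or).1 hor with h | h
        · exact ha ⟨k + 1, 1, by omega, Or.inl rfl, h⟩
        · exact ha ⟨k + 1, 2, by omega, Or.inr rfl, h⟩
    intro k
    refine (key k).mono fun x hx => ?_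
    exact (pow_dvd_pow _ (Nat.le_succ k)).trans hx

theorem P_zero' : P_zero := by
  intro F hF h3 hcon
  have h12 : ∀ᶠ x in (F : Filter ℕ), x % 3 = 1 ∨ x % 3 = 2 := h3.mono fun x hx => by omega
  rcases (Ultrafilter.eventually_or).1 h12 with h1 | h2
  · have hae : AE F (fun x y => x % 3 = 1 ∧ y % 3 = 1) :=
      h1.mono fun x hx => h1.mono fun y hy => ⟨hx, hy⟩
    obtain ⟨x, y, h⟩ := (hae.and hcon).exists
    obtain ⟨⟨hx, hy⟩, hc⟩ := h
    have hs : (x + y) % 3 = 2 := by omega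
    have hp : (x * y) % 3 = 1 := by rw [Nat.mul_mod, hx, hy]
    rw [col_two hs] at hc
    exact col_one_ne hp hc.symm
  · have hmod : AE F (fun x y => x % 3 = 2 ∧ y % 3 = 2) :=
      h2.mono fun x hx => h2.mono fun y hy => ⟨hx, hy⟩
    rcases split F h2 with ⟨k, d, hk, hd, ha⟩ | hb
    · have hae : AE F (fun x y => (∃ e : ℤ, e % 3 = d ∧ (x : ℤ) - 2 = 3 ^ k * e) ∧
          (∃ e : ℤ, e % 3 = d ∧ (y : ℤ) - 2 = 3 ^ k * e)) :=
        ha.mono fun x hx => ha.mono fun y hy => ⟨hx, hy⟩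
      obtain ⟨x, y, h⟩ := ((hmod.and hae).and hcon).exists
      obtain ⟨⟨⟨hx, hy⟩, ⟨e, he, hxe⟩, f, hf, hyf⟩, hc⟩ := h
      have hs : (x + y) % 3 = 1 := by omega
      have hp : (x * y) % 3 = 1 := by rw [Nat.mul_mod, hx, hy]
      obtain ⟨j, rfl⟩ : ∃ j, k = j + 1 := ⟨k - 1, by omega⟩
      have hs4 : ((x + y : ℕ) : ℤ) - 4 = 3 ^ (j + 1) * (e + f) := by
        push_cast; linear_combination hxe + hyf
      have hp4 : ((x * y : ℕ) : ℤ) - 4 = 3 ^ (j + 1) * (2 * e + 2 * f + 3 * (3 ^ j * e * f)) := by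
        push_cast
        have hx' : (x : ℤ) = 2 + 3 ^ (j + 1) * e := by linarith
        have hy' : (y : ℤ) = 2 + 3 ^ (j + 1) * f := by linarith
        rw [hx', hy']; ring
      have e1 : (e + f) % 3 ≠ 0 := by omega
      have e2 : (2 * e + 2 * f + 3 * (3 ^ j * e * f)) % 3 ≠ 0 := by
        generalize (3 : ℤ) ^ j * e * f = z
        omega
      rw [col_one hs e1 hs4, col_one hp e2 hp4] at hc
      generalize (3 : ℤ) ^ j * e * f = z at hc
      split_ifs at hc with c1 c2 c2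
      · omega
      · exact absurd hc (by decide)
      · exact absurd hc (by decide)
      · omega
    · have hx0 : ∀ᶠ x in (F : Filter ℕ), 3 ≤ x := hF (Filter.eventually_ge_atTop 3)
      obtain ⟨x, ⟨hx2, hx3⟩, hxc⟩ := ((h2.and hx0).and hcon).exists
      have hw : (x : ℤ) - 2 ≠ 0 := by omega
      obtain ⟨k, e, he, hxe⟩ : ∃ (k : ℕ) (e : ℤ), e % 3 ≠ 0 ∧ (x : ℤ) - 2 = 3 ^ k * e := by
        have : Fact (Nat.Prime 3) := ⟨Nat.prime_three⟩
        have hfin : FiniteMultiplicity (3 : ℤ) ((x : ℤ) - 2) :=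
          Int.finiteMultiplicity_iff.2 ⟨by norm_num, hw⟩
        obtain ⟨e, he1, he2⟩ := hfin.exists_eq_pow_mul_and_not_dvd
        exact ⟨_, e, fun h => he2 (Int.dvd_of_emod_eq_zero h), he1⟩
      obtain ⟨y, ⟨hyc, hyd⟩, hy2⟩ := ((hxc.and (hb (k + 1))).and h2).exists
      obtain ⟨t, ht⟩ := hyd
      have hk : 1 ≤ k := by
        rcases Nat.eq_zero_or_pos k with rfl | h
        · exfalso
          rw [pow_zero, one_mul] at hxe
          omega
        · exact h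
      obtain ⟨j, rfl⟩ : ∃ j, k = j + 1 := ⟨k - 1, by omega⟩
      have hs : (x + y) % 3 = 1 := by omega
      have hp : (x * y) % 3 = 1 := by rw [Nat.mul_mod, hx2, hy2]
      have hs4 : ((x + y : ℕ) : ℤ) - 4 = 3 ^ (j + 1) * (e + 3 * t) := by
        push_cast; linear_combination hxe + ht
      have hp4 : ((x * y : ℕ) : ℤ) - 4 =
          3 ^ (j + 1) * (2 * e + 3 * (2 * t + 3 ^ (j + 1) * e * t)) := by
        push_cast
        have hx' : (x : ℤ) = 2 + 3 ^ (j + 1) * e := by linarith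
        have hy' : (y : ℤ) = 2 + 3 ^ (j + 1 + 1) * t := by linarith
        rw [hx', hy']; ring
      have e1 : (e + 3 * t) % 3 ≠ 0 := by omega
      have e2 : (2 * e + 3 * (2 * t + 3 ^ (j + 1) * e * t)) % 3 ≠ 0 := by
        generalize 2 * t + (3 : ℤ) ^ (j + 1) * e * t = z
        omega
      rw [col_one hs e1 hs4, col_one hp e2 hp4] at hyc
      generalize 2 * t + (3 : ℤ) ^ (j + 1) * e * t = z at hyc
      split_ifs at hyc with c1 c2 c2
      · omega
      · exact absurd hyc (by decide)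
      · exact absurd hyc (by decide)
      · omega

end B38

end Pool.Agent.Lib.MP_60922f_co.T43
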