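import Mathlib

/-!
THREE COLOURS (MP_60922f_co): the explicit 3-colouring.  Text proof: Three43.md (helper43).
-/

set_option autoImplicit false

namespace Pool.Agent.Lib.MP_60922f_co.T43

open Filter Topology

noncomputable section

/-- 3-adic valuation. -/
def b (n : ℕ) : ℕ := padicValNat 3 n

/-- logarithm to base 3. -/
def lg (n : ℕ) : ℝ := Real.logb 3 n

/-- nearest integer to `log_3 n`. -/
def Lam (n : ℕ) : ℤ := round (lg n)

/-- position of `log_3 n` relative to the nearest integer. -/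
def th (n : ℕ) : ℝ := lg n - Lam n

/-- `log_3 (sqrt 2)`. -/
def aa : ℝ := Real.logb 3 2 / 2

/-- `log_3 (29/20)`. -/
def uu : ℝ := Real.logb 3 (29 / 20)

/-- block index: `aa / 2^(t+1) < |θ| ≤ aa / 2^t`. -/
def blk (θ : ℝ) : ℤ := ⌊Real.logb 2 (aa / |θ|)⌋

open Classical in
/-- the circle colouring. -/
def q (θ : ℝ) : Fin 3 :=
  if uu ≤ |θ| then 0 else if (0 < θ ↔ Even (blk θ)) then 1 else 2

/-- the state is even. -/
def ev (n : ℕ) : Prop := Even (padicValNat 2 (Int.gcd (Lam n) (2 * b n)))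

open Classical in
/-- threshold between the regions Q and W. -/
def G (n : ℕ) : ℤ := if ev n then 4 * b n + 1 else 2 * b n

open Classical in
/-- range of the thin zones. -/
def J (n : ℕ) : ℤ := if ev n then 4 * b n + 1 else 2 * b n + 1

/-- the thin zones around the jumps. -/
def S (n : ℕ) : Prop :=
  ∃ j : ℕ, 1 ≤ j ∧ (j : ℤ) ≤ J n ∧ |(|th n|) - aa / 2 ^ j| < 1 / Real.sqrt n

/-- boundaries `3^(M + s a / 2^j)`. -/
def bd (M : ℤ) (s : ℝ) (j : ℕ) : ℝ := (3 : ℝ) ^ ((M : ℝ) + s * (aa / 2 ^ j))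

open Classical in
/-- largest boundary below `n` (for `n` near a power of 3, not a power of 3). -/
def T (n : ℕ) : ℝ :=
  if 0 < th n then bd (Lam n) 1 (blk (th n) + 1).toNat else bd (Lam n) (-1) (blk (th n)).toNat

/-- the flag. -/
def flag (n : ℕ) : Prop :=
  G n + 5 < blk (th n) ∧ ∃ (M : ℤ) (s : ℝ) (j : ℕ), (s = 1 ∨ s = -1) ∧
    (n : ℝ) - T n < bd M s j ∧ bd M s j ≤ (n : ℝ) - T n + b n ∧
    ∃ z : ℤ, |((Lam n - M : ℤ) : ℝ) * Real.logb 2 3 - z| < 1 / 4

open Classical in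
/-- the 3-colouring. -/
def col (n : ℕ) : Fin 3 :=
  if n % 3 = 2 then 0
  else if n % 3 = 1 then
    (if (((n : ℤ) - 4) / 3 ^ (padicValInt 3 ((n : ℤ) - 4))) % 3 = 1 then 1 else 2)
  else if n = 3 ^ b n then (if Odd (padicValNat 2 (b n)) then 0 else 1)
  else if S n then 0
  else if blk (th n) ≤ G n then q (th n)
  else if ¬ ev n then 0
  else if flag n then q (th n) else - q (th n)

/-- almost all pairs (outer variable first) with respect to an ultrafilter. -/
def AE (F : Ultrafilter ℕ) (P : ℕ → ℕ → Prop) : Prop :=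
  ∀ᶠ x in (F : Filter ℕ), ∀ᶠ y in (F : Filter ℕ), P x y

/-- what every module has to prove. -/
def Flips (F : Ultrafilter ℕ) : Prop := ¬ AE F (fun x y => col (x + y) = col (x * y))

/-- the 3-adic valuation is constant and at least 1. -/
def Bc (F : Ultrafilter ℕ) (v : ℕ) : Prop := 1 ≤ v ∧ ∀ᶠ x in (F : Filter ℕ), b x = v

/-- the 3-adic valuation tends to infinity. -/
def Binf (F : Ultrafilter ℕ) : Prop := Tendsto b (F : Filter ℕ) atTop

/-- the position tends to `Θ`. -/
def Pos (F : Ultrafilter ℕ) (Θ : ℝ) : Prop := Tendsto th (F : Filter ℕ) (𝓝 Θ)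

/-- a boundary (jump) in `(y, x + y]` near `3^(Lam y)`: crossing. -/
def Cross (x y : ℕ) : Prop := q (th (x + y)) ≠ q (th y)

end

end Pool.Agent.Lib.MP_60922f_co.T43
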