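import Pool.Agent.Lib.MP_60922f_co.T43Stmts

/-!
THREE COLOURS: common lemmas for the modules E1, E2 (helper14).
-/

set_option autoImplicit false

namespace Pool.Agent.Lib.MP_60922f_co.T43

open Filter Topology

noncomputable section

namespace E14

theorem lg_mul {x y : ℕ} (hx : 1 ≤ x) (hy : 1 ≤ y) : lg (x * y) = lg x + lg y := by
  unfold lg
  push_cast
  exact Real.logb_mul (by positivity) (by positivity)

theorem th_mul {x y : ℕ} (hx : 1 ≤ x) (hy : 1 ≤ y) :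
    th (x * y) = (th x + th y) - round (th x + th y) := by
  have h1 : lg (x * y) = (th x + th y) + ((Lam x + Lam y : ℤ) : ℝ) := by
    rw [lg_mul hx hy]; unfold th; push_cast; ring
  have h2 : th (x * y) = lg (x * y) - round (lg (x * y)) := rfl
  rw [h2, h1, round_add_intCast]
  push_cast
  ring

theorem th_pow (k : ℕ) : th (3 ^ k) = 0 := by
  unfold th Lam lg
  have h : Real.logb 3 ((3 ^ k : ℕ) : ℝ) = ((k : ℤ) : ℝ) := by
    push_cast
    rw [Real.logb_pow, Real.logb_self_eq_one (by norm_num)]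
    ring
  rw [h, round_intCast]
  simp

theorem th_zero_of_mul {x y k : ℕ} (h : x * y = 3 ^ k) : th x = 0 := by
  have h1 : x ∣ 3 ^ k := ⟨y, h.symm⟩
  obtain ⟨i, -, hi⟩ := (Nat.dvd_prime_pow Nat.prime_three).1 h1
  rw [hi]
  exact th_pow i

theorem one_le_b {n : ℕ} (hn : 1 ≤ n) (h : 3 ∣ n) : 1 ≤ b n :=
  one_le_padicValNat_of_dvd (by omega) h

theorem dvd_of_b {n : ℕ} (h : 1 ≤ b n) : 3 ∣ n :=
  dvd_of_one_le_padicValNat h

theorem G_ge {n : ℕ} : 2 * (b n : ℤ) ≤ G n := by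
  unfold G
  split_ifs <;> omega

theorem J_ge {n : ℕ} : 2 * (b n : ℤ) ≤ J n := by
  unfold J
  split_ifs <;> omega

open Classical in
theorem col_of {n : ℕ} (h3 : 3 ∣ n) (hp : n ≠ 3 ^ b n) : col n =
    if S n then 0
    else if blk (th n) ≤ G n then q (th n)
    else if ¬ ev n then 0
    else if flag n then q (th n) else - q (th n) := by
  have h0 : n % 3 = 0 := Nat.mod_eq_zero_of_dvd h3
  have h1 : ¬ (n % 3 = 2) := by omega
  have h2 : ¬ (n % 3 = 1) := by omega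
  unfold col
  rw [if_neg h1, if_neg h2, if_neg hp]

theorem col_S {n : ℕ} (h3 : 3 ∣ n) (hp : n ≠ 3 ^ b n) (hS : S n) : col n = 0 := by
  rw [col_of h3 hp, if_pos hS]

theorem col_Q {n : ℕ} (h3 : 3 ∣ n) (hp : n ≠ 3 ^ b n) (hS : ¬ S n) (hG : blk (th n) ≤ G n) :
    col n = q (th n) := by
  rw [col_of h3 hp, if_neg hS, if_pos hG]

theorem col_Wo {n : ℕ} (h3 : 3 ∣ n) (hp : n ≠ 3 ^ b n) (hS : ¬ S n) (hG : G n < blk (th n))
    (he : ¬ ev n) : col n = 0 := by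
  rw [col_of h3 hp, if_neg hS, if_neg (not_le.2 hG), if_pos he]

theorem col_We {n : ℕ} (h3 : 3 ∣ n) (hp : n ≠ 3 ^ b n) (hS : ¬ S n) (hG : G n < blk (th n))
    (he : ev n) : col n = q (th n) ∨ col n = - q (th n) := by
  rw [col_of h3 hp, if_neg hS, if_neg (not_le.2 hG), if_neg (not_not.2 he)]
  split_ifs
  · left; rfl
  · right; rfl

theorem col_We' {n : ℕ} (h3 : 3 ∣ n) (hp : n ≠ 3 ^ b n) (hS : ¬ S n) (hG : G n < blk (th n))
    (he : ev n) (h5 : blk (th n) ≤ G n + 5) : col n = - q (th n) := by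
  rw [col_of h3 hp, if_neg hS, if_neg (not_le.2 hG), if_neg (not_not.2 he)]
  have hf : ¬ flag n := by
    intro hf
    exact absurd hf.1 (not_lt.2 h5)
  rw [if_neg hf]

theorem q_zero {θ : ℝ} (h : uu ≤ |θ|) : q θ = 0 := by
  unfold q; rw [if_pos h]

open Classical in
theorem q_val {θ : ℝ} (h : |θ| < uu) : q θ = if (0 < θ ↔ Even (blk θ)) then 1 else 2 := by
  unfold q; rw [if_neg (not_le.2 h)]

theorem q_ne {θ : ℝ} (h : |θ| < uu) : q θ ≠ 0 := by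
  rw [q_val h]; split_ifs <;> decide

theorem neg_ne {c : Fin 3} (hc : c ≠ 0) : -c ≠ 0 := by
  revert c; decide

/-- even state (or region Q): nonzero colour near a power of 3. -/
theorem col_ne {n : ℕ} (h3 : 3 ∣ n) (hp : n ≠ 3 ^ b n) (hS : ¬ S n) (hu : |th n| < uu)
    (he : blk (th n) ≤ G n ∨ ev n) : col n ≠ 0 := by
  by_cases hG : blk (th n) ≤ G n
  · rw [col_Q h3 hp hS hG]; exact q_ne hu
  · rcases he with he | he
    · exact absurd he hG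
    · rcases col_We h3 hp hS (not_le.1 hG) he with h | h
      · rw [h]; exact q_ne hu
      · rw [h]; exact neg_ne (q_ne hu)

/-- `3 ∣ x` almost everywhere. -/
theorem ae_three {F : Ultrafilter ℕ} (hb : (∃ v, Bc F v) ∨ Binf F) :
    ∀ᶠ x in (F : Filter ℕ), 3 ∣ x := by
  rcases hb with ⟨v, hv1, hv⟩ | h
  · exact hv.mono fun x hx => dvd_of_b (by omega)
  · exact (h.eventually (eventually_ge_atTop 1)).mono fun x hx => dvd_of_b hx

theorem pos_ev {F : Ultrafilter ℕ} {Θ : ℝ} (hP : Pos F Θ) {ε : ℝ} (hε : 0 < ε) :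
    ∀ᶠ x in (F : Filter ℕ), |th x - Θ| < ε := by
  have := (Metric.tendsto_nhds.1 hP) ε hε
  simpa [Real.dist_eq] using this

/-- `x / y` is small. -/
theorem div_ev {F : Ultrafilter ℕ} (hF : (F : Filter ℕ) ≤ atTop) (x : ℕ) {ε : ℝ} (hε : 0 < ε) :
    ∀ᶠ y : ℕ in (F : Filter ℕ), (x : ℝ) / y < ε := by
  have h1 : Tendsto (fun y : ℕ => (x : ℝ) / (y : ℝ)) atTop (𝓝 0) :=
    tendsto_const_div_atTop_nhds_zero_nat (x : ℝ)
  exact hF (h1.eventually (gt_mem_nhds hε))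

/-- `1 / sqrt n` is small. -/
theorem sqrt_small {ε : ℝ} (hε : 0 < ε) : ∃ N : ℕ, ∀ n : ℕ, N ≤ n → 1 / Real.sqrt n < ε := by
  have h1 : Tendsto (fun n : ℕ => 1 / Real.sqrt (n : ℝ)) atTop (𝓝 0) := by
    have h2 : Tendsto (fun n : ℕ => Real.sqrt (n : ℝ)) atTop atTop :=
      Real.tendsto_sqrt_atTop.comp tendsto_natCast_atTop_atTop
    refine (h2.inv_tendsto_atTop).congr fun n => ?_
    simp [one_div]
  have h3 := h1.eventually (gt_mem_nhds hε)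
  obtain ⟨N, hN⟩ := Filter.eventually_atTop.1 h3
  exact ⟨N, hN⟩

theorem sqrt_ev {F : Ultrafilter ℕ} (hF : (F : Filter ℕ) ≤ atTop) (x : ℕ) {ε : ℝ} (hε : 0 < ε) :
    ∀ᶠ y : ℕ in (F : Filter ℕ), 1 / Real.sqrt ((x + y : ℕ) : ℝ) < ε := by
  obtain ⟨N, hN⟩ := sqrt_small hε
  refine hF ?_
  filter_upwards [eventually_ge_atTop N] with y hy
  exact hN (x + y) (by omega)

/-- `x / y < 1 / sqrt (x + y)` for large `y`. -/
theorem div_lt_sqrt {F : Ultrafilter ℕ} (hF : (F : Filter ℕ) ≤ atTop) (x : ℕ) :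
    ∀ᶠ y : ℕ in (F : Filter ℕ), (x : ℝ) / y < 1 / Real.sqrt ((x + y : ℕ) : ℝ) := by
  refine hF ?_
  filter_upwards [eventually_gt_atTop (2 * x ^ 2 + x)] with y hy
  have hy0 : (0 : ℝ) < y := by
    have : 0 < y := by omega
    exact_mod_cast this
  have hn : (0 : ℝ) < ((x + y : ℕ) : ℝ) := by
    have : 0 < x + y := by omega
    exact_mod_cast this
  rw [div_lt_div_iff₀ hy0 (Real.sqrt_pos.2 hn), one_mul]
  have h2 : (2 : ℝ) * x ^ 2 + x < y := by exact_mod_cast hy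
  have hx0 : (0 : ℝ) ≤ x := Nat.cast_nonneg x
  have h3 : (x : ℝ) * Real.sqrt ((x + y : ℕ) : ℝ) = Real.sqrt (x ^ 2 * ((x + y : ℕ) : ℝ)) := by
    rw [Real.sqrt_mul (by positivity), Real.sqrt_sq hx0]
  rw [h3]
  rw [Real.sqrt_lt' hy0]
  push_cast
  have h4 : (x : ℝ) + y ≤ 2 * y := by nlinarith
  have h5 : (x : ℝ) ^ 2 * (x + y) ≤ x ^ 2 * (2 * y) := by
    apply mul_le_mul_of_nonneg_left h4 (by positivity)
  nlinarith

/-- basic facts about pairs. -/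
theorem ae_basic {F : Ultrafilter ℕ} (hF : (F : Filter ℕ) ≤ atTop)
    (hb : (∃ v, Bc F v) ∨ Binf F) :
    AE F (fun x y => 1 ≤ x ∧ 1 ≤ y ∧ 3 ∣ x ∧ 3 ∣ y ∧ 3 ∣ x + y ∧ 3 ∣ x * y ∧ 1 ≤ b (x + y)
      ∧ 1 ≤ b (x * y)) := by
  have h3 := ae_three hb
  have h1 : ∀ᶠ x in (F : Filter ℕ), 1 ≤ x := hF (eventually_ge_atTop 1)
  have h4 : ∀ᶠ x in (F : Filter ℕ), ∀ᶠ y in (F : Filter ℕ), (3 ∣ x ∧ 1 ≤ x) ∧ (3 ∣ y ∧ 1 ≤ y) := by
    filter_upwards [h3, h1] with x hx hx'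
    filter_upwards [h3, h1] with y hy hy'
    exact ⟨⟨hx, hx'⟩, hy, hy'⟩
  refine AE.mono (F := F) (P := fun x y => (3 ∣ x ∧ 1 ≤ x) ∧ (3 ∣ y ∧ 1 ≤ y)) h4 ?_
  rintro x y ⟨⟨h3x, h1x⟩, h3y, h1y⟩
  have hs : 3 ∣ x + y := Nat.dvd_add h3x h3y
  have hm : 3 ∣ x * y := h3x.mul_right y
  exact ⟨h1x, h1y, h3x, h3y, hs, hm, one_le_b (by omega) hs,
    one_le_b (Nat.mul_pos h1x h1y) hm⟩

/-- `th x ≠ 0` almost everywhere if `Θ ≠ 0`. -/
theorem ae_th_ne {F : Ultrafilter ℕ} {Θ : ℝ} (hP : Pos F Θ) (hΘ : Θ ≠ 0) :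
    ∀ᶠ x in (F : Filter ℕ), th x ≠ 0 := by
  refine (pos_ev hP (abs_pos.2 hΘ)).mono fun x hx h0 => ?_
  rw [h0, zero_sub, abs_neg] at hx
  exact lt_irrefl _ hx

end E14

end

end Pool.Agent.Lib.MP_60922f_co.T43
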