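import Pool.Agent.Lib.MP_60922f_co.T43E14a

/-!
THREE COLOURS: module E1, types with limit position at least `uu / 2` in absolute value (helper14).
-/

set_option autoImplicit false

namespace Pool.Agent.Lib.MP_60922f_co.T43

open Filter Topology

noncomputable section

namespace E14

theorem blk_le (hn : L_num) (hk : L_blk) {θ : ℝ} {t : ℤ} (hθ : θ ≠ 0) :
    blk θ ≤ t ↔ aa / (2 : ℝ) ^ (t + 1) < |θ| := by
  have ha : 0 < aa := by linarith [hn.1]
  obtain ⟨h1, h2⟩ := (hk θ (blk θ) hθ).1 rfl
  constructor
  · intro h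
    refine lt_of_le_of_lt ?_ h1
    apply div_le_div_of_nonneg_left ha.le (by positivity)
    exact zpow_le_zpow_right₀ (by norm_num) (by omega)
  · intro h
    by_contra hc
    have hc' : t + 1 ≤ blk θ := by omega
    have h3 : aa / (2 : ℝ) ^ (blk θ) ≤ aa / (2 : ℝ) ^ (t + 1) := by
      apply div_le_div_of_nonneg_left ha.le (by positivity)
      exact zpow_le_zpow_right₀ (by norm_num) (by omega)
    linarith

theorem le_blk (hn : L_num) (hk : L_blk) {θ : ℝ} {t : ℤ} (hθ : θ ≠ 0) :
    t ≤ blk θ ↔ |θ| ≤ aa / (2 : ℝ) ^ t := by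
  have h := blk_le hn hk (t := t - 1) hθ
  rw [sub_add_cancel] at h
  constructor
  · intro h1
    by_contra h2
    have := h.2 (not_le.1 h2)
    omega
  · intro h1
    by_contra h2
    have := h.1 (by omega)
    linarith

theorem round_cases {w : ℝ} (h1 : |w| ≤ 1) :
    (-(1/2) ≤ w ∧ w < 1/2 ∧ round w = 0) ∨ (1/2 ≤ w ∧ round w = 1) ∨ (w < -(1/2) ∧ round w = -1) := by
  rw [abs_le] at h1
  rcases lt_or_ge w (1/2) with h2 | h2
  · rcases lt_or_ge w (-(1/2)) with h3 | h3
    · right; right
      refine ⟨h3, ?_⟩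
      rw [round_eq, Int.floor_eq_iff]
      push_cast
      constructor <;> linarith
    · left
      refine ⟨h3, h2, ?_⟩
      rw [round_eq, Int.floor_eq_iff]
      push_cast
      constructor <;> linarith
  · right; left
    refine ⟨h2, ?_⟩
    rw [round_eq, Int.floor_eq_iff]
    push_cast
    constructor <;> linarith

/-- value of `q` in the block `0`. -/
theorem q_blk0 (hn : L_num) (hk : L_blk) {θ : ℝ} (h1 : aa / 2 < |θ|) (h2 : |θ| ≤ aa) :
    (0 < θ → q θ = 1) ∧ (θ < 0 → q θ = 2) := by
  obtain ⟨a1, a2, u1, u2⟩ := hn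
  have hθ : θ ≠ 0 := by
    rintro rfl
    rw [abs_zero] at h1
    linarith
  have hb : blk θ = 0 := (hk θ 0 hθ).2 ⟨by norm_num; exact h1, by norm_num; exact h2⟩
  have hq := q_val (θ := θ) (by linarith)
  constructor
  · intro h
    rw [hq, hb, if_pos]
    simp [h]
  · intro h
    rw [hq, hb, if_neg]
    simp [not_lt.2 h.le]

/-- value of `q` in the block `-1`. -/
theorem q_blk1 (hn : L_num) (hk : L_blk) {θ : ℝ} (h1 : aa < |θ|) (h2 : |θ| < uu) :
    (0 < θ → q θ = 2) ∧ (θ < 0 → q θ = 1) := by
  obtain ⟨a1, a2, u1, u2⟩ := hn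
  have hθ : θ ≠ 0 := by
    rintro rfl
    rw [abs_zero] at h1
    linarith
  have hb : blk θ = -1 := (hk θ (-1) hθ).2 ⟨by norm_num; exact h1, by norm_num; linarith⟩
  have hq := q_val (θ := θ) (by linarith)
  have ho : ¬ Even (-1 : ℤ) := by decide
  constructor
  · intro h
    rw [hq, hb, if_neg]
    simp [h, ho]
  · intro h
    rw [hq, hb, if_pos]
    simp [not_lt.2 h.le, ho]

/-- the numerical heart of E1. -/
theorem E1_num (hn : L_num) (hk : L_blk) {n m : ℕ} {w : ℝ}
    (h3n : 3 ∣ n) (h3m : 3 ∣ m) (hpn : n ≠ 3 ^ b n) (hpm : m ≠ 3 ^ b m) (hbn : 1 ≤ b n)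
    (hbm : 1 ≤ b m) (hSm : ¬ S m) (hsq : 1 / Real.sqrt n < 0.001)
    (hw : th m = w - round w) (hw1 : |w| ≤ 1) (hlow : 0.1689 ≤ |th n|) (hwlow : 0.338 ≤ |w|)
    (hnw : |w - 2 * th n| < 0.0003 ∨ (0.4 < |th n| ∧ 0.99 < |w|))
    (hev : 0.3 < |th n| → ev m) : col n ≠ col m := by
  have hn' := hn
  obtain ⟨a1, a2, u1, u2⟩ := hn'
  have hGn : 2 * (b n : ℤ) ≤ G n := G_ge
  have hGm : 2 * (b m : ℤ) ≤ G m := G_ge
  have hn0 : th n ≠ 0 := by
    intro h; rw [h, abs_zero] at hlow; linarith
  have hSn : ¬ S n := by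
    rintro ⟨j, hj1, -, hj⟩
    have h2 : aa / 2 ^ j ≤ aa / 2 := by
      apply div_le_div_of_nonneg_left (by linarith) (by norm_num)
      calc (2 : ℝ) = 2 ^ 1 := by norm_num
        _ ≤ 2 ^ j := pow_le_pow_right₀ (by norm_num) hj1
    have h3 := (abs_lt.1 hj).2
    linarith
  have hbkn : blk (th n) ≤ 0 := by
    rw [blk_le hn hk hn0]
    norm_num
    linarith
  have hcn : col n = q (th n) := col_Q h3n hpn hSn (by omega)
  by_cases h1 : uu ≤ |th n|
  · rw [hcn, q_zero h1]
    apply Ne.symm
    refine col_ne h3m hpm hSm ?_ (Or.inr (hev (by linarith)))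
    have hw2 : 0.6758 ≤ |w| := by
      rcases hnw with h | h
      · rcases le_total 0 (th n) with h4 | h4
        · rw [abs_of_nonneg h4] at h1
          have := (abs_lt.1 h).1
          have h5 : 0.6758 ≤ w := by linarith
          exact h5.trans (le_abs_self w)
        · rw [abs_of_nonpos h4] at h1
          have := (abs_lt.1 h).2
          have h5 : w ≤ -0.6758 := by linarith
          rw [abs_of_neg (by linarith)]
          linarith
      · linarith [h.2]
    rw [hw]
    rcases round_cases hw1 with ⟨r1, r2, r3⟩ | ⟨r1, r3⟩ | ⟨r1, r3⟩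
    · exfalso
      rcases abs_cases w with ⟨h5, h6⟩ | ⟨h5, h6⟩ <;> linarith
    · rw [r3, abs_lt]
      rw [abs_of_nonneg (by linarith)] at hw2 hw1
      push_cast
      constructor <;> linarith
    · rw [r3, abs_lt]
      rw [abs_of_neg (by linarith)] at hw2 hw1
      push_cast
      constructor <;> linarith
  · have h1' := not_le.1 h1
    have hnw' : |w - 2 * th n| < 0.0003 := by
      rcases hnw with h | h
      · exact h
      · linarith [h.1]
    have hcol0 : col n ≠ 0 := by rw [hcn]; exact q_ne h1'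
    obtain ⟨w1, w2⟩ := abs_lt.1 hnw'
    by_cases h2 : |th n| ≤ aa
    · -- block 0
      have hq := q_blk0 hn hk (θ := th n) (by linarith) h2
      have hm1 : 0.338 ≤ |th m| := by
        rw [hw]
        rcases round_cases hw1 with ⟨r1, r2, r3⟩ | ⟨r1, r3⟩ | ⟨r1, r3⟩
        · rw [r3]; push_cast; rw [sub_zero]; exact hwlow
        · rw [r3]; push_cast
          rw [abs_of_nonpos (by linarith [(abs_le.1 hw1).2])]
          have := le_abs_self (th n)
          linarith
        · rw [r3]; push_cast
          rw [abs_of_nonneg (by linarith [(abs_le.1 hw1).1])]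
          have := neg_abs_le (th n)
          linarith
      have hm0 : th m ≠ 0 := by
        intro h; rw [h, abs_zero] at hm1; linarith
      have hbkm : blk (th m) ≤ 0 := by
        rw [blk_le hn hk hm0]
        norm_num
        linarith
      have hcm : col m = q (th m) := col_Q h3m hpm hSm (by omega)
      by_cases h4 : uu ≤ |th m|
      · rw [hcm, q_zero h4]; exact hcol0
      · have h4' := not_le.1 h4
        have hq' := q_blk1 hn hk (θ := th m) (by linarith) h4'
        rw [hcn, hcm]
        rcases round_cases hw1 with ⟨r1, r2, r3⟩ | ⟨r1, r3⟩ | ⟨r1, r3⟩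
        · rw [r3] at hw; push_cast at hw; rw [sub_zero] at hw
          rcases lt_or_gt_of_ne hn0 with h5 | h5
          · have h6 : th m < 0 := by
              rw [hw]
              rw [abs_of_neg h5] at hlow
              linarith
            rw [hq.2 h5, hq'.2 h6]; decide
          · have h6 : 0 < th m := by
              rw [hw]
              rw [abs_of_pos h5] at hlow
              linarith
            rw [hq.1 h5, hq'.1 h6]; decide
        · exfalso
          rw [r3] at hw; push_cast at hw
          have := le_abs_self (th n)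
          rw [abs_of_nonpos (by linarith [(abs_le.1 hw1).2])] at h4'
          linarith
        · exfalso
          rw [r3] at hw; push_cast at hw
          have := neg_abs_le (th n)
          rw [abs_of_nonneg (by linarith [(abs_le.1 hw1).1])] at h4'
          linarith
    · -- block -1
      have h2' := not_le.1 h2
      have hq := q_blk1 hn hk (θ := th n) h2' h1'
      rcases lt_or_gt_of_ne hn0 with h5 | h5
      · rw [abs_of_neg h5] at h1' h2' hlow
        have hr : round w = -1 := by
          rcases round_cases hw1 with ⟨r1, r2, r3⟩ | ⟨r1, r3⟩ | ⟨r1, r3⟩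
          · exfalso; linarith
          · exfalso; linarith
          · exact r3
        rw [hr] at hw; push_cast at hw
        have hm0 : 0 < th m := by linarith
        have hm1 : 0.32 < |th m| := by rw [abs_of_pos hm0]; linarith
        have hbkm : blk (th m) ≤ 0 := by
          rw [blk_le hn hk hm0.ne']
          norm_num
          linarith
        have hcm : col m = q (th m) := col_Q h3m hpm hSm (by omega)
        by_cases h4 : uu ≤ |th m|
        · rw [hcm, q_zero h4]; exact hcol0
        · have hq' := q_blk1 hn hk (θ := th m) (by linarith) (not_le.1 h4)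
          rw [hcn, hcm, hq.2 h5, hq'.1 hm0]; decide
      · rw [abs_of_pos h5] at h1' h2' hlow
        have hr : round w = 1 := by
          rcases round_cases hw1 with ⟨r1, r2, r3⟩ | ⟨r1, r3⟩ | ⟨r1, r3⟩
          · exfalso; linarith
          · exact r3
          · exfalso; linarith
        rw [hr] at hw; push_cast at hw
        have hm0 : th m < 0 := by linarith
        have hm1 : 0.32 < |th m| := by rw [abs_of_neg hm0]; linarith
        have hbkm : blk (th m) ≤ 0 := by
          rw [blk_le hn hk hm0.ne]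
          norm_num
          linarith
        have hcm : col m = q (th m) := col_Q h3m hpm hSm (by omega)
        by_cases h4 : uu ≤ |th m|
        · rw [hcm, q_zero h4]; exact hcol0
        · have hq' := q_blk1 hn hk (θ := th m) (by linarith) (not_le.1 h4)
          rw [hcn, hcm, hq.1 h5, hq'.2 hm0]; decide

theorem E1 (hn : L_num) (hk : L_blk) (hs : L_sum) (hsh : L_sum_half) (hpS : L_prodS)
    (heb : L_ev_big) : P_E1 := by
  intro F Θ hF hb hP hu hcon
  have hn' := hn
  obtain ⟨a1, a2, u1, u2⟩ := hn'
  have hΘ0 : Θ ≠ 0 := by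
    rintro rfl; rw [abs_zero] at hu; linarith
  have hΘ1 : |Θ| ≤ 1 / 2 := by
    refine le_of_tendsto (hP.abs) ?_
    exact Filter.Eventually.of_forall fun n => th_abs n
  have hne := ae_th_ne hP hΘ0
  have hbas := ae_basic hF hb
  have hS := hpS F Θ hF hP hne
  have hmul : AE F (fun x y => x * y ≠ 3 ^ b (x * y)) := by
    refine hne.mono fun x hx => Filter.Eventually.of_forall fun y h => ?_
    exact hx (th_zero_of_mul h)
  have hpos1 : AE F (fun x y => |th x - Θ| < 0.00005 ∧ |th y - Θ| < 0.00005) := by
    filter_upwards [pos_ev hP (ε := 0.00005) (by norm_num)] with x hx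
    filter_upwards [pos_ev hP (ε := 0.00005) (by norm_num)] with y hy
    exact ⟨hx, hy⟩
  have hsq : AE F (fun x y => 1 / Real.sqrt ((x + y : ℕ) : ℝ) < 0.001) := by
    refine Filter.Eventually.of_forall fun x => ?_
    exact sqrt_ev hF x (by norm_num)
  -- position of the sum
  have hsum : AE F (fun x y => (|th (x + y) - Θ| < 0.0001) ∨ (|Θ| = 1 / 2 ∧ 0.4 < |th (x + y)|)) := by
    rcases lt_or_eq_of_le hΘ1 with h1 | h1
    · have h2 : ∀ᶠ x : ℕ in (F : Filter ℕ), 1 ≤ x := hF (eventually_ge_atTop 1)
      filter_upwards [h2] with x hx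
      filter_upwards [hs F Θ hF hP h1 x hx, div_ev hF x (ε := 0.00005) (by norm_num),
        pos_ev hP (ε := 0.00005) (by norm_num)] with y hy1 hy2 hy3
      left
      obtain ⟨-, h5, h6⟩ := hy1
      rw [abs_lt] at hy3 ⊢
      constructor <;> linarith
    · have h2 : ∀ᶠ x : ℕ in (F : Filter ℕ), 1 ≤ x := hF (eventually_ge_atTop 1)
      filter_upwards [h2] with x hx
      filter_upwards [hsh F Θ hF hP h1 x hx] with y hy
      right
      exact ⟨h1, hy⟩
  have hevm : AE F (fun x y => 1 / 4 < |Θ| → ev (x * y)) := by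
    by_cases h : 1 / 4 < |Θ|
    · exact (heb F Θ hF hP h).mono fun x y h1 _ => h1
    · exact Filter.Eventually.of_forall fun x => Filter.Eventually.of_forall fun y h1 => absurd h1 h
  obtain ⟨x, y, h⟩ := ((((hbas.and hS).and hmul).and ((hpos1.and hsq).and (hsum.and hevm))).and hcon).exists
  obtain ⟨⟨⟨⟨hB, hSm⟩, hpm⟩, ⟨⟨⟨px, py⟩, hsq⟩, hsum, hevm⟩⟩, hcon⟩ := h
  obtain ⟨h1x, h1y, -, -, h3n, h3m, hbn, hbm⟩ := hB
  have hw : th (x * y) = (th x + th y) - round (th x + th y) := th_mul h1x h1y
  have hx1 := th_abs x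
  have hy1 := th_abs y
  rw [abs_lt] at px py
  have hww : |th x + th y - 2 * Θ| < 0.0001 := by
    rw [abs_lt]; constructor <;> linarith
  have hwabs : 2 * |Θ| - 0.0001 < |th x + th y| := by
    have h1 := abs_sub_abs_le_abs_sub (2 * Θ) (th x + th y)
    rw [abs_mul, abs_of_pos (by norm_num : (0 : ℝ) < 2), abs_sub_comm] at h1
    linarith
  have hlow : 0.1689 ≤ |th (x + y)| := by
    rcases hsum with h | h
    · have h1 := abs_sub_abs_le_abs_sub Θ (th (x + y))
      rw [abs_sub_comm] at h1
      linarith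
    · linarith [h.2]
  have hth0 : th (x + y) ≠ 0 := by
    intro h; rw [h, abs_zero] at hlow; linarith
  have hpn : x + y ≠ 3 ^ b (x + y) := by
    intro h
    apply hth0
    rw [h]
    exact th_pow _
  refine E1_num hn hk (n := x + y) (m := x * y) (w := th x + th y) h3n h3m hpn hpm hbn hbm hSm hsq hw
    ?_ hlow ?_ ?_ ?_ hcon
  · exact (abs_add_le _ _).trans (by linarith)
  · linarith
  · rcases hsum with h | h
    · left
      rw [abs_lt] at h hww ⊢
      constructor <;> linarith
    · right
      refine ⟨h.2, ?_⟩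
      rw [h.1] at hwabs
      linarith
  · intro h
    apply hevm
    rcases hsum with h' | h'
    · have h1 := abs_sub_abs_le_abs_sub (th (x + y)) Θ
      linarith
    · rw [h'.1]; norm_num

end E14

end

end Pool.Agent.Lib.MP_60922f_co.T43
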