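import Pool.Agent.Lib.MP_60922f_co.T43E14b

/-!
THREE COLOURS: module E2, types with limit position in `(0, uu / 2)` in absolute value (helper14).
-/

set_option autoImplicit false

namespace Pool.Agent.Lib.MP_60922f_co.T43

open Filter Topology

noncomputable section

namespace E14

/-- `q` flips when the block index drops by one and the sign is kept. -/
theorem q_flip {θ η : ℝ} (h1 : |θ| < uu) (h2 : |η| < uu) (hs : 0 < θ ↔ 0 < η)
    (hb : blk η = blk θ - 1) : q θ ≠ q η := by
  classical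
  rw [q_val h1, q_val h2, hb]
  by_cases h3 : 0 < θ
  · have h5 : 0 < η := hs.1 h3
    by_cases h4 : Even (blk θ) <;> simp [h3, h5, h4, Int.even_sub_one]
  · have h5 : ¬ 0 < η := fun h => h3 (hs.2 h)
    by_cases h4 : Even (blk θ) <;> simp [h3, h5, h4, Int.even_sub_one]

theorem q_keep {θ η : ℝ} (h1 : |θ| < uu) (h2 : |η| < uu) (hs : 0 < θ ↔ 0 < η)
    (hb : Even (blk η) ↔ Even (blk θ)) : q θ = q η := by
  classical
  rw [q_val h1, q_val h2]
  have h3 : (0 < θ ↔ Even (blk θ)) ↔ (0 < η ↔ Even (blk η)) := by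
    rw [hs, hb]
  by_cases h4 : (0 < θ ↔ Even (blk θ))
  · rw [if_pos h4, if_pos (h3.1 h4)]
  · rw [if_neg h4, if_neg (fun h => h4 (h3.2 h))]

theorem neg_ne_self {c : Fin 3} (hc : c ≠ 0) : -c ≠ c := by
  revert c; decide

/-- the combinatorial heart of E2. -/
theorem E2_comb {n m : ℕ} {t0 : ℤ}
    (h3n : 3 ∣ n) (h3m : 3 ∣ m) (hpn : n ≠ 3 ^ b n) (hpm : m ≠ 3 ^ b m) (hSm : ¬ S m)
    (hun : |th n| < uu) (hum : |th m| < uu) (hs : 0 < th n ↔ 0 < th m)
    (i1 : t0 - 1 ≤ blk (th n)) (i2 : blk (th n) ≤ t0) (i3 : t0 - 2 ≤ blk (th m))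
    (i4 : blk (th m) ≤ t0 - 1)
    (ii : ¬ S n → t0 ≤ J n → blk (th m) = blk (th n) - 1)
    (iii : S n → t0 ≤ J n)
    (hst : (ev n ∧ ¬ ev m ∧ b m = 2 * b n) ∨ (¬ ev n ∧ ev m ∧ b m = 2 * b n) ∨
      (t0 ≤ G n ∧ t0 ≤ J n ∧ t0 ≤ G m)) : col n ≠ col m := by
  have hqn := q_ne hun
  have hqm := q_ne hum
  rcases hst with ⟨e1, e2, e3⟩ | ⟨e1, e2, e3⟩ | ⟨g1, g2, g3⟩
  · have hGn : G n = 4 * b n + 1 := by unfold G; rw [if_pos e1]
    have hJn : J n = 4 * b n + 1 := by unfold J; rw [if_pos e1]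
    have hGm : G m = 4 * b n := by unfold G; rw [if_neg e2, e3]; push_cast; ring
    by_cases hSn : S n
    · have h1 := iii hSn
      rw [col_S h3n hpn hSn, col_Q h3m hpm hSm (by omega)]
      exact hqm.symm
    · by_cases h1 : t0 ≤ J n
      · have h2 := ii hSn h1
        rw [col_Q h3n hpn hSn (by omega), col_Q h3m hpm hSm (by omega)]
        exact q_flip hun hum hs h2
      · by_cases h2 : blk (th n) = 4 * b n + 1
        · rw [col_Q h3n hpn hSn (by omega)]
          by_cases h3 : blk (th m) ≤ G m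
          · rw [col_Q h3m hpm hSm h3]
            exact q_flip hun hum hs (by omega)
          · rw [col_Wo h3m hpm hSm (not_le.1 h3) e2]
            exact hqn
        · have h4 : G n < blk (th n) := by omega
          by_cases h3 : blk (th m) ≤ G m
          · rw [col_We' h3n hpn hSn h4 e1 (by omega), col_Q h3m hpm hSm h3]
            have h5 : q (th n) = q (th m) := by
              refine q_keep hun hum hs ?_
              have h6 : blk (th m) = 4 * b n := by omega
              have h7 : blk (th n) = 4 * b n + 2 := by omega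
              rw [h6, h7]
              have e6 : Even (4 * (b n : ℤ)) := ⟨2 * b n, by ring⟩
              have e7 : Even (4 * (b n : ℤ) + 2) := ⟨2 * b n + 1, by ring⟩
              exact ⟨fun _ => e7, fun _ => e6⟩
            rw [h5]
            exact neg_ne_self hqm
          · rw [col_Wo h3m hpm hSm (not_le.1 h3) e2]
            rcases col_We h3n hpn hSn h4 e1 with h6 | h6
            · rw [h6]; exact hqn
            · rw [h6]; exact neg_ne hqn
  · have hGn : G n = 2 * b n := by unfold G; rw [if_neg e1]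
    have hJn : J n = 2 * b n + 1 := by unfold J; rw [if_neg e1]
    have hGm : G m = 8 * b n + 1 := by unfold G; rw [if_pos e2, e3]; push_cast; ring
    have hmne : col m ≠ 0 := col_ne h3m hpm hSm hum (Or.inr e2)
    by_cases hSn : S n
    · rw [col_S h3n hpn hSn]
      exact hmne.symm
    · by_cases h1 : blk (th n) ≤ G n
      · have h2 := ii hSn (by omega)
        rw [col_Q h3n hpn hSn h1, col_Q h3m hpm hSm (by omega)]
        exact q_flip hun hum hs h2
      · rw [col_Wo h3n hpn hSn (not_le.1 h1) e1]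
        exact hmne.symm
  · by_cases hSn : S n
    · rw [col_S h3n hpn hSn, col_Q h3m hpm hSm (by omega)]
      exact hqm.symm
    · have h2 := ii hSn g2
      rw [col_Q h3n hpn hSn (by omega), col_Q h3m hpm hSm (by omega)]
      exact q_flip hun hum hs h2

/-- states and thresholds for a.e. pair. -/
theorem ae_state (hbc : L_bsum_c) (hbi : L_bsum_i) (hec : L_ev_c) {F : Ultrafilter ℕ} {Θ : ℝ}
    (hF : (F : Filter ℕ) ≤ atTop) (hb : (∃ v, Bc F v) ∨ Binf F) (hP : Pos F Θ)
    (hΘ : |Θ| < 1 / 4) (t0 : ℤ) :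
    AE F (fun x y => (ev (x + y) ∧ ¬ ev (x * y) ∧ b (x * y) = 2 * b (x + y)) ∨
      (¬ ev (x + y) ∧ ev (x * y) ∧ b (x * y) = 2 * b (x + y)) ∨
      (t0 ≤ G (x + y) ∧ t0 ≤ J (x + y) ∧ t0 ≤ G (x * y))) := by
  have hbas := ae_basic hF hb
  have hbm : AE F (fun x y => b (x * y) = b x + b y) := by
    refine hbas.mono fun x y h => ?_
    have hx : x ≠ 0 := by omega
    have hy : y ≠ 0 := by omega
    exact padicValNat.mul hx hy
  rcases hb with ⟨v, hv⟩ | hinf
  · have h1 := hbc F v hF hv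
    have h2 : AE F (fun x y => b x = v ∧ b y = v) := by
      have h2 := hv.2
      filter_upwards [h2] with x hx
      filter_upwards [h2] with y hy
      exact ⟨hx, hy⟩
    rcases hec F Θ v hF hP hΘ hv with h3 | h3
    · refine ((h1.and h2).and (h3.and hbm)).mono ?_
      rintro x y ⟨⟨g1, g2, g3⟩, ⟨g4, g5⟩, g6⟩
      left
      refine ⟨g4, g5, ?_⟩
      rw [g6, g1, g2, g3]; ring
    · refine ((h1.and h2).and (h3.and hbm)).mono ?_
      rintro x y ⟨⟨g1, g2, g3⟩, ⟨g4, g5⟩, g6⟩
      right; left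
      refine ⟨g4, g5, ?_⟩
      rw [g6, g1, g2, g3]; ring
  · have h1 : AE F (fun x y => b (x + y) = b x) := by
      have h2 : ∀ᶠ x : ℕ in (F : Filter ℕ), 1 ≤ x := hF (eventually_ge_atTop 1)
      filter_upwards [h2] with x hx
      exact hbi F hF hinf x hx
    have h3 : AE F (fun x _ => t0.toNat ≤ b x) := by
      filter_upwards [hinf.eventually (eventually_ge_atTop t0.toNat)] with x hx
      exact Filter.Eventually.of_forall fun _ => hx
    refine ((h1.and h3).and hbm).mono ?_
    rintro x y ⟨⟨g1, g2⟩, g3⟩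
    right; right
    have k1 : 2 * (b (x + y) : ℤ) ≤ G (x + y) := G_ge
    have k2 : 2 * (b (x + y) : ℤ) ≤ J (x + y) := J_ge
    have k3 : 2 * (b (x * y) : ℤ) ≤ G (x * y) := G_ge
    rw [g1] at k1 k2
    rw [g3] at k3
    push_cast at k3
    have k4 : t0 ≤ t0.toNat := Int.self_le_toNat t0
    have k5 : (t0.toNat : ℤ) ≤ (b x : ℤ) := by exact_mod_cast g2
    have k6 : (0 : ℤ) ≤ (b y : ℤ) := Int.natCast_nonneg _
    have k7 : (0 : ℤ) ≤ (b x : ℤ) := Int.natCast_nonneg _
    refine ⟨?_, ?_, ?_⟩ <;> linarith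

theorem abs_add_same {p r s : ℝ} (hp : |p - s| < |s|) (hr : |r - s| < |s|) :
    |p + r| = |p| + |r| := by
  rcases le_total 0 s with h | h
  · rw [abs_of_nonneg h, abs_lt] at hp hr
    rw [abs_of_pos (by linarith : 0 < p), abs_of_pos (by linarith : 0 < r),
      abs_of_pos (by linarith : 0 < p + r)]
  · rw [abs_of_nonpos h, abs_lt] at hp hr
    rw [abs_of_neg (by linarith : p < 0), abs_of_neg (by linarith : r < 0),
      abs_of_neg (by linarith : p + r < 0)]
    ring

theorem pos_iff_same {p s : ℝ} (hp : |p - s| < |s|) : 0 < p ↔ 0 < s := by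
  rcases le_total 0 s with h | h
  · rw [abs_of_nonneg h, abs_lt] at hp
    constructor <;> intro _ <;> linarith
  · rw [abs_of_nonpos h, abs_lt] at hp
    constructor <;> intro _ <;> linarith

theorem ne_of_same {p s : ℝ} (hp : |p - s| < |s|) : p ≠ 0 := by
  rintro rfl
  rw [zero_sub, abs_neg] at hp
  exact lt_irrefl _ hp

theorem E2 (hn : L_num) (hk : L_blk) (hs : L_sum) (hpr : L_prod) (hbc : L_bsum_c)
    (hbi : L_bsum_i) (hec : L_ev_c) (hpS : L_prodS) : P_E2 := by
  intro F Θ hF hb hP hΘ0 hΘu hcon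
  have hn' := hn
  obtain ⟨a1, a2, u1, u2⟩ := hn'
  have hΘne : Θ ≠ 0 := abs_pos.1 hΘ0
  have hΘ4 : |Θ| < 1 / 4 := by linarith
  have hne := ae_th_ne hP hΘne
  have hbas := ae_basic hF hb
  have hS := hpS F Θ hF hP hne
  have hprod := hpr F Θ hF hP hΘ4
  -- the block of Θ
  have ht0 : (0 : ℤ) ≤ blk Θ := by
    rw [le_blk hn hk hΘne]
    norm_num
    linarith
  obtain ⟨T0, hT0⟩ := Int.eq_ofNat_of_zero_le ht0
  obtain ⟨c1, c2⟩ := (hk Θ (blk Θ) hΘne).1 rfl
  have hst := ae_state hbc hbi hec hF hb hP hΘ4 (blk Θ)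
  obtain ⟨A, hA⟩ : ∃ A : ℝ, A = aa / 2 ^ T0 := ⟨_, rfl⟩
  have haa : 0 < aa := by linarith
  have hApos : 0 < A := by rw [hA]; positivity
  have z2 : (2 : ℝ) ≠ 0 := by norm_num
  have p0 : aa / (2 : ℝ) ^ (blk Θ) = A := by rw [hT0, hA]; simp
  have p1 : aa / (2 : ℝ) ^ (blk Θ + 1) = A / 2 := by
    rw [← p0, zpow_add₀ z2, zpow_one]; field_simp
  have p2 : aa / (2 : ℝ) ^ (blk Θ - 1) = 2 * A := by
    rw [← p0, zpow_sub₀ z2, zpow_one]; field_simp
  have p3 : aa / (2 : ℝ) ^ (blk Θ - 2) = 4 * A := by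
    rw [← p0, zpow_sub₀ z2]; norm_num; field_simp
  rw [p1] at c1
  rw [p0] at c2
  -- choice of δ
  obtain ⟨δ, hδ0, hδ1, hδ2, hδ3, hδ4, hδ5⟩ : ∃ δ : ℝ, 0 < δ ∧ 4 * δ ≤ |Θ| - A / 2 ∧ 4 * δ ≤ A ∧
      4 * δ ≤ |Θ| ∧ 4 * δ ≤ uu / 2 - |Θ| ∧ (|Θ| < A → 4 * δ ≤ A - |Θ|) := by
    by_cases h : |Θ| < A
    · refine ⟨min (min ((|Θ| - A / 2) / 4) (A / 4)) (min (min (|Θ| / 4) ((uu / 2 - |Θ|) / 4)) ((A - |Θ|) / 4)),
        ?_, ?_, ?_, ?_, ?_, ?_⟩
      · refine lt_min (lt_min ?_ ?_) (lt_min (lt_min ?_ ?_) ?_) <;> linarith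
      · have h1 := (min_le_left (min ((|Θ| - A / 2) / 4) (A / 4))
          (min (min (|Θ| / 4) ((uu / 2 - |Θ|) / 4)) ((A - |Θ|) / 4))).trans (min_le_left _ _)
        linarith
      · have h1 := (min_le_left (min ((|Θ| - A / 2) / 4) (A / 4))
          (min (min (|Θ| / 4) ((uu / 2 - |Θ|) / 4)) ((A - |Θ|) / 4))).trans (min_le_right _ _)
        linarith
      · have h1 := ((min_le_right (min ((|Θ| - A / 2) / 4) (A / 4))
          (min (min (|Θ| / 4) ((uu / 2 - |Θ|) / 4)) ((A - |Θ|) / 4))).trans (min_le_left _ _)).trans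
            (min_le_left _ _)
        linarith
      · have h1 := ((min_le_right (min ((|Θ| - A / 2) / 4) (A / 4))
          (min (min (|Θ| / 4) ((uu / 2 - |Θ|) / 4)) ((A - |Θ|) / 4))).trans (min_le_left _ _)).trans
            (min_le_right _ _)
        linarith
      · intro _
        have h1 := (min_le_right (min ((|Θ| - A / 2) / 4) (A / 4))
          (min (min (|Θ| / 4) ((uu / 2 - |Θ|) / 4)) ((A - |Θ|) / 4))).trans (min_le_right _ _)
        linarith
    · refine ⟨min (min ((|Θ| - A / 2) / 4) (A / 4)) (min (|Θ| / 4) ((uu / 2 - |Θ|) / 4)),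
        ?_, ?_, ?_, ?_, ?_, ?_⟩
      · refine lt_min (lt_min ?_ ?_) (lt_min ?_ ?_) <;> linarith
      · have h1 := (min_le_left (min ((|Θ| - A / 2) / 4) (A / 4))
          (min (|Θ| / 4) ((uu / 2 - |Θ|) / 4))).trans (min_le_left _ _)
        linarith
      · have h1 := (min_le_left (min ((|Θ| - A / 2) / 4) (A / 4))
          (min (|Θ| / 4) ((uu / 2 - |Θ|) / 4))).trans (min_le_right _ _)
        linarith
      · have h1 := (min_le_right (min ((|Θ| - A / 2) / 4) (A / 4))
          (min (|Θ| / 4) ((uu / 2 - |Θ|) / 4))).trans (min_le_left _ _)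
        linarith
      · have h1 := (min_le_right (min ((|Θ| - A / 2) / 4) (A / 4))
          (min (|Θ| / 4) ((uu / 2 - |Θ|) / 4))).trans (min_le_right _ _)
        linarith
      · intro h'; exact absurd h' h
  -- almost all pairs
  have hpos1 : AE F (fun x y => |th x - Θ| < δ ∧ |th y - Θ| < δ) := by
    filter_upwards [pos_ev hP hδ0] with x hx
    filter_upwards [pos_ev hP hδ0] with y hy
    exact ⟨hx, hy⟩
  have h1x : ∀ᶠ x : ℕ in (F : Filter ℕ), 1 ≤ x := hF (eventually_ge_atTop 1)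
  have hsum : AE F (fun x y => (th y < th (x + y) ∧ th (x + y) ≤ th y + (x : ℝ) / y) ∧
      (x : ℝ) / y < δ ∧ (x : ℝ) / y < 1 / Real.sqrt ((x + y : ℕ) : ℝ) ∧
      1 / Real.sqrt ((x + y : ℕ) : ℝ) < δ) := by
    filter_upwards [h1x] with x hx
    filter_upwards [hs F Θ hF hP (by linarith) x hx, div_ev hF x hδ0, div_lt_sqrt hF x,
      sqrt_ev hF x hδ0] with y hy1 hy2 hy3 hy4
    exact ⟨hy1.2, hy2, hy3, hy4⟩
  have hside : (∀ᶠ y in (F : Filter ℕ), A < |th y|) ∨ (∀ᶠ y in (F : Filter ℕ), |th y| ≤ A) := by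
    rcases Ultrafilter.em F (fun y => A < |th y|) with h | h
    · exact Or.inl h
    · exact Or.inr (h.mono fun y hy => not_lt.1 hy)
  have hside2 : AE F (fun x y => (A < |th x| ∧ A < |th y|) ∨ (|th x| ≤ A ∧ |th y| ≤ A)) := by
    rcases hside with h | h
    · filter_upwards [h] with x hx
      filter_upwards [h] with y hy
      exact Or.inl ⟨hx, hy⟩
    · filter_upwards [h] with x hx
      filter_upwards [h] with y hy
      exact Or.inr ⟨hx, hy⟩
  obtain ⟨x, y, h⟩ := ((((hbas.and hS).and hprod).and (hpos1.and (hsum.and (hside2.and hst)))).and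
    hcon).exists
  obtain ⟨⟨⟨⟨hB, hSm⟩, -, hthm⟩, ⟨⟨px, py⟩, ⟨⟨s1, s2⟩, s3, s4, s5⟩, hsd, hstate⟩⟩, hcon⟩ := h
  obtain ⟨-, -, -, -, h3n, h3m, -, -⟩ := hB
  -- positions
  have pn : |th (x + y) - Θ| < 2 * δ := by
    rw [abs_lt] at py ⊢
    constructor <;> linarith
  have hnsame : |th (x + y) - Θ| < |Θ| := by linarith
  have hxsame : |th x - Θ| < |Θ| := by linarith
  have hysame : |th y - Θ| < |Θ| := by linarith
  have hmabs : |th (x * y)| = |th x| + |th y| := by
    rw [hthm]; exact abs_add_same hxsame hysame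
  have hmsame : 0 < th (x * y) ↔ 0 < Θ := by
    rw [hthm]
    have h1 : |(th x + th y) / 2 - Θ| < |Θ| := by
      rw [abs_lt] at hxsame hysame ⊢
      constructor <;> linarith
    have h2 := pos_iff_same h1
    constructor
    · intro h; exact h2.1 (by linarith)
    · intro h; have := h2.2 h; linarith
  have bx1 := abs_sub_abs_le_abs_sub (th x) Θ
  have bx2 := abs_sub_abs_le_abs_sub Θ (th x)
  have by1 := abs_sub_abs_le_abs_sub (th y) Θ
  have by2 := abs_sub_abs_le_abs_sub Θ (th y)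
  have bn1 := abs_sub_abs_le_abs_sub (th (x + y)) Θ
  have bn2 := abs_sub_abs_le_abs_sub Θ (th (x + y))
  rw [abs_sub_comm] at bx2 by2 bn2
  have hn0 : th (x + y) ≠ 0 := ne_of_same hnsame
  have hm0 : th (x * y) ≠ 0 := by
    intro h
    rw [h, abs_zero] at hmabs
    linarith
  have hpn : x + y ≠ 3 ^ b (x + y) := by
    intro h; apply hn0; rw [h]; exact th_pow _
  have hpm : x * y ≠ 3 ^ b (x * y) := by
    intro h; apply hm0; rw [h]; exact th_pow _
  -- position of the sum against the position of y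
  have hny : |(|th (x + y)|) - (|th y|)| ≤ (x : ℝ) / y := by
    refine (abs_abs_sub_abs_le (th (x + y)) (th y)).trans ?_
    rw [abs_le]; constructor <;> linarith
  rw [abs_le] at hny
  refine E2_comb (t0 := blk Θ) h3n h3m hpn hpm hSm (by linarith) (by rw [hmabs]; linarith)
    ((pos_iff_same hnsame).trans hmsame.symm) ?_ ?_ ?_ ?_ ?_ ?_ hstate hcon
  · rw [le_blk hn hk hn0, p2]; linarith
  · rw [blk_le hn hk hn0, p1]; linarith
  · rw [le_blk hn hk hm0, p3, hmabs]; linarith
  · rw [blk_le hn hk hm0, sub_add_cancel, p0, hmabs]; linarith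
  · intro hSn hJ
    rcases lt_or_eq_of_le c2 with hlt | heq
    · -- Θ is not a boundary
      have hδ6 := hδ5 hlt
      have e1 : blk (th (x + y)) ≤ blk Θ := by
        rw [blk_le hn hk hn0, p1]; linarith
      have e2 : blk Θ ≤ blk (th (x + y)) := by
        rw [le_blk hn hk hn0, p0]; linarith
      have e3 : blk (th (x * y)) ≤ blk Θ - 1 := by
        rw [blk_le hn hk hm0, sub_add_cancel, p0, hmabs]; linarith
      have e4 : blk Θ - 1 ≤ blk (th (x * y)) := by
        rw [le_blk hn hk hm0, p2, hmabs]; linarith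
      omega
    · have hT1 : 1 ≤ T0 := by
        rcases Nat.eq_zero_or_pos T0 with h | h
        · exfalso
          rw [h, pow_zero, div_one] at hA
          linarith
        · exact h
      have hJ' : (T0 : ℤ) ≤ J (x + y) := by
        have h1 : (T0 : ℤ) = blk Θ := hT0.symm
        rw [h1]; exact hJ
      have hfar : 1 / Real.sqrt ((x + y : ℕ) : ℝ) ≤ |(|th (x + y)|) - A| := by
        by_contra h
        apply hSn
        refine ⟨T0, hT1, hJ', ?_⟩
        rw [← hA]
        exact not_le.1 h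
      rcases hsd with ⟨k1, k2⟩ | ⟨k1, k2⟩
      · have h1 : A < |th (x + y)| := by
          rcases le_abs.1 hfar with h | h
          · linarith
          · linarith
        have e1 : blk (th (x + y)) ≤ blk Θ - 1 := by
          rw [blk_le hn hk hn0, sub_add_cancel, p0]; exact h1
        have e2 : blk Θ - 1 ≤ blk (th (x + y)) := by
          rw [le_blk hn hk hn0, p2]; linarith
        have e3 : blk (th (x * y)) ≤ blk Θ - 2 := by
          have h3 : blk Θ - 2 + 1 = blk Θ - 1 := by ring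
          rw [blk_le hn hk hm0, h3, p2, hmabs]; linarith
        have e4 : blk Θ - 2 ≤ blk (th (x * y)) := by
          rw [le_blk hn hk hm0, p3, hmabs]; linarith
        omega
      · have h1 : |th (x + y)| ≤ A := by
          rcases le_abs.1 hfar with h | h
          · linarith
          · linarith
        have e1 : blk (th (x + y)) ≤ blk Θ := by
          rw [blk_le hn hk hn0, p1]; linarith
        have e2 : blk Θ ≤ blk (th (x + y)) := by
          rw [le_blk hn hk hn0, p0]; exact h1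
        have e3 : blk (th (x * y)) ≤ blk Θ - 1 := by
          rw [blk_le hn hk hm0, sub_add_cancel, p0, hmabs]; linarith
        have e4 : blk Θ - 1 ≤ blk (th (x * y)) := by
          rw [le_blk hn hk hm0, p2, hmabs]; linarith
        omega
  · rintro ⟨j, hj1, hj2, hj3⟩
    have hj4 : j = T0 := by
      rcases lt_trichotomy j T0 with h | h | h
      · exfalso
        have h1 : 2 * A ≤ aa / 2 ^ j := by
          rw [hA, ← mul_div_assoc, div_le_div_iff₀ (by positivity) (by positivity)]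
          have h2 : (2 : ℝ) ^ (j + 1) ≤ 2 ^ T0 := pow_le_pow_right₀ (by norm_num) h
          rw [pow_succ] at h2
          nlinarith
        have h2 := (abs_lt.1 hj3).1
        linarith
      · exact h
      · exfalso
        have h1 : aa / 2 ^ j ≤ A / 2 := by
          rw [hA, div_div, div_le_div_iff₀ (by positivity) (by positivity)]
          have h2 : (2 : ℝ) ^ (T0 + 1) ≤ 2 ^ j := pow_le_pow_right₀ (by norm_num) h
          rw [pow_succ] at h2
          nlinarith
        have h2 := (abs_lt.1 hj3).2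
        linarith
    have h1 : blk Θ = (j : ℤ) := by rw [hj4]; exact hT0
    rw [h1]; exact hj2

end E14

end

end Pool.Agent.Lib.MP_60922f_co.T43
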