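import Pool.Agent.Lib.MP_60922f_co.T43Stmts

/-!
THREE COLOURS: modules F5 (`Θ = 0`, constant valuation) and F6 (powers of 3) (helper81).
-/

set_option autoImplicit false

namespace Pool.Agent.Lib.MP_60922f_co.T43

open Filter Topology

namespace F81

theorem aa_pos (hn : L_num) : 0 < aa := by
  have := hn.1
  linarith

theorem three_pow_of_th (n : ℕ) (hn : 1 ≤ n) (h : th n = 0) : n = 3 ^ b n := by
  have hn' : (0 : ℝ) < n := by exact_mod_cast hn
  have h1 : lg n = Lam n := by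
    unfold th at h
    linarith
  have h2 : (n : ℝ) = (3 : ℝ) ^ (Lam n : ℝ) := by
    rw [← h1, lg, Real.rpow_logb (by norm_num) (by norm_num) hn']
  have h3 : 0 ≤ Lam n := by
    by_contra hneg
    push Not at hneg
    have h4 : (Lam n : ℝ) < 0 := by exact_mod_cast hneg
    have h5 : (3 : ℝ) ^ (Lam n : ℝ) < 1 := Real.rpow_lt_one_of_one_lt_of_neg (by norm_num) h4
    rw [← h2] at h5
    have h6 : (1 : ℝ) ≤ n := by exact_mod_cast hn
    linarith
  obtain ⟨N, hN⟩ := Int.eq_ofNat_of_zero_le h3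
  rw [hN] at h2
  have h7 : n = 3 ^ N := by
    have h8 : (n : ℝ) = (3 : ℝ) ^ N := by
      rw [h2]
      push_cast
      rw [Real.rpow_natCast]
    exact_mod_cast h8
  have h9 : b n = N := by
    have : Fact (Nat.Prime 3) := ⟨Nat.prime_three⟩
    rw [b, h7, padicValNat.prime_pow]
  rw [h9]
  exact h7

theorem blk_big (hn : L_num) {θ : ℝ} (h0 : θ ≠ 0) {K : ℕ} (h : |θ| < aa / 2 ^ K) :
    (K : ℤ) ≤ blk θ := by
  have ha := aa_pos hn
  have h1 : 0 < |θ| := abs_pos.2 h0
  rw [blk, Int.le_floor, Real.le_logb_iff_rpow_le (by norm_num) (div_pos ha h1)]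
  push_cast
  rw [Real.rpow_natCast, le_div_iff₀ h1]
  have h2 : (0 : ℝ) < 2 ^ K := by positivity
  rw [lt_div_iff₀ h2] at h
  linarith [mul_comm |θ| (2 ^ K)]

theorem q_ne {θ : ℝ} (h : |θ| < uu) : q θ ≠ 0 := by
  unfold q
  rw [if_neg (not_le.2 h)]
  split_ifs <;> decide

/-- Colours of numbers of small position. -/
theorem smallW (hn : L_num) (w n : ℕ) (h1 : 1 ≤ b n) (hw : b n ≤ w) (hp : 3 ^ b n < n)
    (hθ : |th n| < aa / 2 ^ (4 * w + 3)) (hs : 1 / Real.sqrt n < aa / 2 ^ (4 * w + 3)) :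
    (¬ ev n → col n = 0) ∧ (ev n → col n ≠ 0) := by
  have ha := aa_pos hn
  have hn1 : 1 ≤ n := by
    have := Nat.one_le_pow (b n) 3 (by norm_num)
    omega
  have hth : th n ≠ 0 := by
    intro h
    have := three_pow_of_th n hn1 h
    omega
  have h3 : 3 ∣ n := by
    have := pow_padicValNat_dvd (p := 3) (n := n)
    exact (dvd_pow_self 3 (by unfold b at h1; omega)).trans this
  have h30 : n % 3 = 0 := Nat.mod_eq_zero_of_dvd h3
  have hG : G n < blk (th n) := by
    have h4 := blk_big hn hth hθ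
    unfold G
    split_ifs <;> push_cast at h4 ⊢ <;> omega
  have hS : ¬ S n := by
    rintro ⟨j, hj1, hj2, hj3⟩
    have hj : j ≤ 4 * w + 1 := by
      unfold J at hj2
      split_ifs at hj2 <;> omega
    have h5 : aa / 2 ^ (4 * w + 1) ≤ aa / 2 ^ j :=
      div_le_div_of_nonneg_left ha.le (by positivity) (pow_le_pow_right₀ (by norm_num) hj)
    have h6 : aa / 2 ^ (4 * w + 1) = 4 * (aa / 2 ^ (4 * w + 3)) := by
      rw [show 4 * w + 3 = (4 * w + 1) + 2 by ring, pow_add (2 : ℝ) (4 * w + 1) 2]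
      field_simp
      norm_num
    have h7 : 0 < aa / 2 ^ (4 * w + 3) := by positivity
    rw [abs_lt] at hj3
    linarith [hj3.1]
  have hu : |th n| < uu := by
    have h8 : aa / 2 ^ (4 * w + 3) ≤ aa := by
      rw [div_le_iff₀ (by positivity)]
      have : (1 : ℝ) ≤ 2 ^ (4 * w + 3) := one_le_pow₀ (by norm_num)
      nlinarith
    have := hn.2.1
    have := hn.2.2.1
    linarith
  have hq := q_ne hu
  have hq' : - q (th n) ≠ 0 := by
    intro h
    exact hq (neg_eq_zero.1 h)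
  constructor
  · intro he
    unfold col
    rw [if_neg (by omega), if_neg (by omega), if_neg (by omega), if_neg hS, if_neg (not_le.2 hG),
      if_pos he]
  · intro he
    unfold col
    rw [if_neg (by omega), if_neg (by omega), if_neg (by omega), if_neg hS, if_neg (not_le.2 hG),
      if_neg (not_not.2 he)]
    split_ifs
    · exact hq
    · exact hq'

/-- the inverse square root is small. -/
theorem inv_sqrt (F : Ultrafilter ℕ) (hF : (F : Filter ℕ) ≤ atTop) {ε : ℝ} (hε : 0 < ε) :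
    ∀ᶠ y in (F : Filter ℕ), ∀ n : ℕ, y ≤ n → 1 / Real.sqrt n < ε := by
  have h1 : Tendsto (fun y : ℕ => 1 / Real.sqrt y) atTop (𝓝 0) := by
    have h2 : Tendsto (fun y : ℕ => Real.sqrt y) atTop atTop :=
      Real.tendsto_sqrt_atTop.comp tendsto_natCast_atTop_atTop
    exact tendsto_const_nhds.div_atTop h2
  have h3 : ∀ᶠ y : ℕ in (atTop : Filter ℕ), 1 / Real.sqrt y < ε := h1.eventually_lt_const hε
  filter_upwards [hF h3, hF (eventually_ge_atTop 1)] with y hy hy1 n hn
  refine lt_of_le_of_lt ?_ hy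
  have h4 : 0 < Real.sqrt y := Real.sqrt_pos.2 (by exact_mod_cast hy1)
  exact div_le_div_of_nonneg_left (by norm_num) h4 (Real.sqrt_le_sqrt (by exact_mod_cast hn))

theorem div_small (F : Ultrafilter ℕ) (hF : (F : Filter ℕ) ≤ atTop) (x : ℕ) {ε : ℝ} (hε : 0 < ε) :
    ∀ᶠ y : ℕ in (F : Filter ℕ), (x : ℝ) / y < ε := by
  have h1 : Tendsto (fun y : ℕ => (x : ℝ) / y) atTop (𝓝 0) :=
    tendsto_const_nhds.div_atTop tendsto_natCast_atTop_atTop
  exact hF (h1.eventually_lt_const hε)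

theorem pos_small (F : Ultrafilter ℕ) (hp : Pos F 0) {ε : ℝ} (hε : 0 < ε) :
    ∀ᶠ y in (F : Filter ℕ), |th y| < ε := by
  have h := (Metric.tendsto_nhds.1 hp) ε hε
  simpa [Real.dist_eq] using h

end F81

open F81 in
theorem p_F5 (hn : L_num) (hsum : L_sum) (hprod : L_prod) (hbs : L_bsum_c) (hev : L_ev_c) :
    P_F5 := by
  intro F v hF hb hp hcon
  have h0 : |(0 : ℝ)| < 1 / 4 := by norm_num
  have ha := aa_pos hn
  set ε : ℝ := aa / 2 ^ (4 * (2 * v) + 3) with hε
  have hε0 : 0 < ε := by positivity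
  have hε1 : ε ≤ aa / 2 ^ (4 * v + 3) :=
    div_le_div_of_nonneg_left ha.le (by positivity) (pow_le_pow_right₀ (by norm_num) (by omega))
  have hS := hsum F 0 hF hp (by norm_num)
  have hP := hprod F 0 hF hp h0
  have hB := hbs F v hF hb
  -- everything for the sum
  have hx1 : ∀ᶠ x in (F : Filter ℕ), 1 ≤ x := hF (eventually_ge_atTop 1)
  have hbig : ∀ᶠ y in (F : Filter ℕ), 3 ^ (2 * v) < y := hF (eventually_gt_atTop _)
  have hps := pos_small F hp (half_pos hε0)
  have hsq := inv_sqrt F hF hε0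
  have h31 : 3 ^ v ≤ 3 ^ (2 * v) := Nat.pow_le_pow_right (by norm_num) (by omega)
  have hsumA : AE F (fun x y => (¬ ev (x + y) → col (x + y) = 0) ∧
      (ev (x + y) → col (x + y) ≠ 0)) := by
    have hB' : ∀ᶠ x in (F : Filter ℕ), ∀ᶠ y in (F : Filter ℕ), b (x + y) = v := hB
    filter_upwards [hB', hx1] with x hx hx1
    filter_upwards [hx, hbig, hps, hsq, div_small F hF x (half_pos hε0), hS x hx1] with y h1 h2 h3 h4
      h5 h6
    refine smallW hn v (x + y) (by rw [h1]; exact hb.1) h1.le (by rw [h1]; omega) ?_ ?_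
    · refine lt_of_lt_of_le ?_ hε1
      rw [abs_lt] at h3 ⊢
      constructor <;> linarith [h6.2.1, h6.2.2, h3.1, h3.2]
    · exact lt_of_lt_of_le (h4 _ (by omega)) hε1
  have hprodA : AE F (fun x y => (¬ ev (x * y) → col (x * y) = 0) ∧
      (ev (x * y) → col (x * y) ≠ 0)) := by
    have hP' : ∀ᶠ x in (F : Filter ℕ), ∀ᶠ y in (F : Filter ℕ),
      Lam (x * y) = Lam x + Lam y ∧ th (x * y) = th x + th y := hP
    filter_upwards [hP', hx1, hps, hb.2] with x hx hx1 hpx hbx
    filter_upwards [hx, hbig, hps, hsq, hb.2] with y h1 h2 h3 h4 h5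
    have hbxy : b (x * y) = 2 * v := by
      have : Fact (Nat.Prime 3) := ⟨Nat.prime_three⟩
      unfold b at hbx h5 ⊢
      have hy0 : y ≠ 0 := by
        rintro rfl
        exact absurd h2 (Nat.not_lt_zero _)
      rw [padicValNat.mul (by omega) hy0, hbx, h5]
      ring
    have hxy : y ≤ x * y := Nat.le_mul_of_pos_left y hx1
    refine smallW hn (2 * v) (x * y) (by have := hb.1; omega) hbxy.le (by rw [hbxy]; omega) ?_ ?_
    · rw [h1.2]
      refine lt_of_le_of_lt (abs_add_le _ _) ?_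
      linarith
    · exact h4 _ hxy
  rcases hev F 0 v hF hp h0 hb with he | he
  · obtain ⟨x, y, ⟨h1, h2⟩, h3, h4⟩ := ((hsumA.and hprodA).and (he.and hcon)).exists
    exact h1.2 h3.1 (h4.trans (h2.1 h3.2))
  · obtain ⟨x, y, ⟨h1, h2⟩, h3, h4⟩ := ((hsumA.and hprodA).and (he.and hcon)).exists
    exact h2.2 h3.2 (h4.symm.trans (h1.1 h3.1))

end Pool.Agent.Lib.MP_60922f_co.T43
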