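import Pool.Agent.Lib.MP_60922f_co.T43F5

/-!
THREE COLOURS: module F6 (powers of 3) (helper81).
-/

set_option autoImplicit false

namespace Pool.Agent.Lib.MP_60922f_co.T43

open Filter Topology

namespace F81

theorem pv (m c : ℕ) (hc : c % 2 = 1) : padicValNat 2 (2 ^ m * c) = m := by
  have : Fact (Nat.Prime 2) := ⟨Nat.prime_two⟩
  rw [padicValNat.mul (by positivity) (by omega), padicValNat.prime_pow,
    padicValNat.eq_zero_of_not_dvd (by omega), add_zero]

theorem val_dec {A : ℕ} (hA : A ≠ 0) : ∃ c, c % 2 = 1 ∧ A = 2 ^ padicValNat 2 A * c := by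
  obtain ⟨m, c, hc, h⟩ := Nat.exists_eq_two_pow_mul_odd hA
  have hc' : c % 2 = 1 := Nat.odd_iff.1 hc
  refine ⟨c, hc', ?_⟩
  rw [h, pv m c hc']

theorem gcd_odd {a c : ℕ} (hc : a % 2 = 1) : Nat.gcd a c % 2 = 1 := by
  have h : Nat.gcd a c ∣ a := Nat.gcd_dvd_left a c
  by_contra h1
  have h2 : 2 ∣ Nat.gcd a c := by omega
  have := h2.trans h
  omega

/-- equal valuations. -/
theorem val1 {A B m : ℕ} (hA : A ≠ 0) (hB : B ≠ 0) (h1 : padicValNat 2 A = m)
    (h2 : padicValNat 2 B = m) (h3 : A % 2 ^ (m + 2) = B % 2 ^ (m + 2)) :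
    padicValNat 2 (A + B) = m + 1 ∧ padicValNat 2 (Nat.gcd B (2 * A)) = m := by
  obtain ⟨a, ha, hA'⟩ := val_dec hA
  obtain ⟨c, hc, hB'⟩ := val_dec hB
  rw [h1] at hA'
  rw [h2] at hB'
  have h4 : a % 4 = c % 4 := by
    rw [hA', hB', pow_add, Nat.mul_mod_mul_left, Nat.mul_mod_mul_left] at h3
    exact Nat.eq_of_mul_eq_mul_left (by positivity) h3
  constructor
  · have h5 : A + B = 2 ^ (m + 1) * ((a + c) / 2) := by
      rw [hA', hB', pow_succ, mul_assoc, Nat.mul_div_cancel' (by omega)]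
      ring
    rw [h5]
    exact pv _ _ (by omega)
  · have h5 : Nat.gcd B (2 * A) = 2 ^ m * Nat.gcd c (2 * a) := by
      rw [hA', hB', show 2 * (2 ^ m * a) = 2 ^ m * (2 * a) by ring, Nat.gcd_mul_left]
    rw [h5]
    exact pv _ _ (gcd_odd hc)

/-- larger valuation of `B`. -/
theorem val2 {A B m : ℕ} (hA : A ≠ 0) (hB : B ≠ 0) (h1 : padicValNat 2 A = m)
    (h2 : m + 1 < padicValNat 2 B) :
    padicValNat 2 (A + B) = m ∧ padicValNat 2 (Nat.gcd B (2 * A)) = m + 1 := by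
  obtain ⟨a, ha, hA'⟩ := val_dec hA
  obtain ⟨c, hc, hB'⟩ := val_dec hB
  rw [h1] at hA'
  obtain ⟨k, hk⟩ : ∃ k, padicValNat 2 B = m + 2 + k := ⟨padicValNat 2 B - (m + 2), by omega⟩
  rw [hk] at hB'
  constructor
  · have h5 : A + B = 2 ^ m * (a + 4 * (2 ^ k * c)) := by
      rw [hA', hB']
      ring
    rw [h5]
    exact pv _ _ (by omega)
  · have h5 : Nat.gcd B (2 * A) = 2 ^ (m + 1) * Nat.gcd a (2 * (2 ^ k * c)) := by
      rw [Nat.gcd_comm a, hA', hB', ← Nat.gcd_mul_left]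
      congr 1 <;> ring
    rw [h5]
    exact pv _ _ (gcd_odd ha)

theorem const_of_lt (F : Ultrafilter ℕ) (f : ℕ → ℕ) (K : ℕ)
    (h : ∀ᶠ x in (F : Filter ℕ), f x < K) : ∃ r, ∀ᶠ x in (F : Filter ℕ), f x = r := by
  have h1 : ∀ᶠ x in (F : Filter ℕ), ∃ v ∈ (Finset.range K : Set ℕ), f x = v := by
    refine h.mono fun x hx => ⟨f x, ?_, rfl⟩
    simpa using hx
  rw [Ultrafilter.eventually_exists_mem_iff (Finset.finite_toSet _)] at h1
  obtain ⟨v, -, hv⟩ := h1
  exact ⟨v, hv⟩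

/-- parities of the 2-adic valuations. -/
theorem parity (F : Ultrafilter ℕ) (h1 : ∀ᶠ x in (F : Filter ℕ), b x ≠ 0) :
    AE F (fun x y => (Even (padicValNat 2 (Nat.gcd (b y) (2 * b x))) ↔
      Odd (padicValNat 2 (b x + b y)))) := by
  by_cases hm : ∃ m, ∀ᶠ x in (F : Filter ℕ), padicValNat 2 (b x) = m
  · obtain ⟨m, hm⟩ := hm
    obtain ⟨r, hr⟩ := const_of_lt F (fun x => b x % 2 ^ (m + 2)) (2 ^ (m + 2))
      (Eventually.of_forall fun x => Nat.mod_lt _ (by positivity))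
    filter_upwards [h1, hm, hr] with x hx1 hx2 hx3
    filter_upwards [h1, hm, hr] with y hy1 hy2 hy3
    obtain ⟨h2, h3⟩ := val1 hx1 hy1 hx2 hy2 (hx3.trans hy3.symm)
    rw [h2, h3, Nat.odd_add_one, Nat.not_odd_iff_even]
  · have hinf : ∀ m, ∀ᶠ x in (F : Filter ℕ), m < padicValNat 2 (b x) := by
      intro m
      by_contra h
      have h2 : ∀ᶠ x in (F : Filter ℕ), ¬ (m < padicValNat 2 (b x)) :=
        (Ultrafilter.eventually_not).2 h
      obtain ⟨r, hr⟩ := const_of_lt F (fun x => padicValNat 2 (b x)) (m + 1)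
        (h2.mono fun x hx => by omega)
      exact hm ⟨r, hr⟩
    filter_upwards [h1] with x hx1
    filter_upwards [h1, hinf (padicValNat 2 (b x) + 1)] with y hy1 hy2
    obtain ⟨h2, h3⟩ := val2 hx1 hy1 rfl hy2
    rw [h2, h3, Nat.even_add_one, Nat.not_even_iff_odd]

theorem b_pow (N : ℕ) : b (3 ^ N) = N := by
  have : Fact (Nat.Prime 3) := ⟨Nat.prime_three⟩
  rw [b, padicValNat.prime_pow]

theorem lg_pow (N : ℕ) : lg (3 ^ N) = N := by
  rw [lg]
  push_cast
  rw [Real.logb_pow, Real.logb_self_eq_one (by norm_num), mul_one]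

theorem Lam_pow (N : ℕ) : Lam (3 ^ N) = N := by
  rw [Lam, lg_pow, round_natCast]

theorem th_pow (N : ℕ) : th (3 ^ N) = 0 := by
  rw [th, Lam_pow, lg_pow]
  simp

/-- colours of powers of 3. -/
theorem col_pow (N : ℕ) (hN : 1 ≤ N) :
    col (3 ^ N) = if Odd (padicValNat 2 N) then 0 else 1 := by
  have h3 : 3 ^ N % 3 = 0 := by
    obtain ⟨M, rfl⟩ : ∃ M, N = M + 1 := ⟨N - 1, by omega⟩
    rw [pow_succ]
    exact Nat.mul_mod_left _ _
  unfold col
  rw [if_neg (by omega), if_neg (by omega), if_pos (by rw [b_pow]), b_pow]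

end F81

open F81 in
theorem p_F6 (hn : L_num) (hsum : L_sum) (hbs : L_bsum_i) : P_F6 := by
  intro F hF hpw hcon
  have ha := aa_pos hn
  -- the exponents tend to infinity
  have hinf : Binf F := by
    rw [Binf, Filter.tendsto_atTop]
    intro m
    filter_upwards [hpw, hF (eventually_ge_atTop (3 ^ m))] with x hx hx1
    rw [hx] at hx1
    exact (Nat.pow_le_pow_iff_right (by norm_num)).1 hx1
  have hp : Pos F 0 := by
    have h : th =ᶠ[(F : Filter ℕ)] fun _ => 0 := by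
      filter_upwards [hpw] with x hx
      rw [hx, th_pow]
    exact (tendsto_congr' h).2 tendsto_const_nhds
  have hS := hsum F 0 hF hp (by norm_num)
  have hB := hbs F hF hinf
  have hx1 : ∀ᶠ x in (F : Filter ℕ), 1 ≤ x := hF (eventually_ge_atTop 1)
  have hb1 : ∀ᶠ x in (F : Filter ℕ), 1 ≤ b x := hinf.eventually_ge_atTop 1
  have hpar := parity F (hb1.mono fun x hx => by omega)
  have hsumA : AE F (fun x y => ((¬ ev (x + y) → col (x + y) = 0) ∧
      (ev (x + y) → col (x + y) ≠ 0)) ∧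
      (ev (x + y) ↔ Even (padicValNat 2 (Nat.gcd (b y) (2 * b x))))) := by
    filter_upwards [hx1, hb1] with x hx1 hbx
    have hε0 : 0 < aa / 2 ^ (4 * b x + 3) := by positivity
    filter_upwards [hB x hx1, hF (eventually_gt_atTop (3 ^ b x)), inv_sqrt F hF hε0,
      div_small F hF x hε0, hS x hx1, hpw] with y h1 h2 h3 h4 h5 h6
    constructor
    · refine smallW hn (b x) (x + y) (by rw [h1]; exact hbx) h1.le (by rw [h1]; omega) ?_
        (h3 _ (by omega))
      have h7 : th y = 0 := by rw [h6, th_pow]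
      rw [h7] at h5
      rw [abs_lt]
      constructor <;> linarith [h5.2.1, h5.2.2]
    · have h8 : Lam y = b y := by
        conv_lhs => rw [h6]
        rw [Lam_pow]
      unfold ev
      rw [h5.1, h8, h1]
      rfl
  have hprodA : AE F (fun x y => col (x * y) = if Odd (padicValNat 2 (b x + b y)) then 0 else 1) := by
    filter_upwards [hpw, hb1] with x hx hbx
    filter_upwards [hpw] with y hy
    conv_lhs => rw [hx, hy, ← pow_add]
    exact col_pow _ (by omega)
  obtain ⟨x, y, ⟨⟨⟨h1, h2⟩, h3⟩, h4⟩, h5, h6⟩ := ((hsumA.and hprodA).and (hpar.and hcon)).exists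
  by_cases he : ev (x + y)
  · have h7 : Odd (padicValNat 2 (b x + b y)) := h5.1 (h3.1 he)
    rw [if_pos h7] at h4
    exact h2 he (h6.trans h4)
  · have h7 : ¬ Odd (padicValNat 2 (b x + b y)) := fun h => he (h3.2 (h5.2 h))
    rw [if_neg h7] at h4
    have h8 := (h1 he).symm.trans (h6.trans h4)
    exact absurd h8 (by decide)

end Pool.Agent.Lib.MP_60922f_co.T43
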