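import Pool.Agent.Lib.MP_60922f_co.T43Stmts

/-!
THREE COLOURS: modules G1 and G2 (helper66).
-/

set_option autoImplicit false

namespace Pool.Agent.Lib.MP_60922f_co.T43.G66

open Filter Topology

noncomputable section

/-! ### Elementary facts -/

theorem rpow_lg {n : ℕ} (hn : 1 ≤ n) : (3 : ℝ) ^ (lg n) = n :=
  Real.rpow_logb (by norm_num) (by norm_num) (by exact_mod_cast hn)

theorem lg_eq (n : ℕ) : lg n = Lam n + th n := by
  unfold th
  ring

theorem th_ne_zero {n : ℕ} (hn : 1 ≤ n) (h : n ≠ 3 ^ b n) : th n ≠ 0 := by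
  intro h0
  apply h
  have h1 : lg n = Lam n := by rw [lg_eq, h0, add_zero]
  have h2 := rpow_lg hn
  rw [h1, Real.rpow_intCast] at h2
  have h3 : 0 ≤ Lam n := by
    by_contra h4
    push Not at h4
    have h5 : (3 : ℝ) ^ (Lam n) < 1 := zpow_lt_one_of_neg₀ (by norm_num) h4
    rw [h2] at h5
    have h6 : (1 : ℝ) ≤ n := by exact_mod_cast hn
    linarith
  obtain ⟨k, hk⟩ := Int.eq_ofNat_of_zero_le h3
  rw [hk, zpow_natCast] at h2
  have h4 : n = 3 ^ k := by exact_mod_cast h2.symm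
  have h5 : b n = k := by
    unfold b
    rw [h4]
    exact padicValNat.prime_pow k
  rw [h5]
  exact h4

theorem b_mul {x y : ℕ} (hx : 1 ≤ x) (hy : 1 ≤ y) : b (x * y) = b x + b y := by
  unfold b
  have : Fact (Nat.Prime 3) := ⟨Nat.prime_three⟩
  exact padicValNat.mul (by omega) (by omega)

theorem three_dvd {n : ℕ} (h : 1 ≤ b n) : n % 3 = 0 := by
  have h1 : 3 ∣ n := by
    by_contra h2
    unfold b at h
    rw [padicValNat.eq_zero_of_not_dvd h2] at h
    omega
  omega

theorem q_ne_zero {θ : ℝ} (h : |θ| < uu) : q θ ≠ 0 := by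
  unfold q
  rw [if_neg (not_le.2 h)]
  split <;> decide

theorem q_eq {θ θ' : ℝ} (h : |θ| < uu) (h' : |θ'| < uu) (hs : 0 < θ ↔ 0 < θ')
    (hb : blk θ = blk θ') : q θ = q θ' := by
  unfold q
  rw [if_neg (not_le.2 h), if_neg (not_le.2 h')]
  simp only [hs, hb]

theorem aa_pos (hnum : L_num) : 0 < aa := by
  have := hnum.1
  linarith

theorem le_blk (hnum : L_num) (hblk : L_blk) {θ : ℝ} (h0 : θ ≠ 0) {t : ℤ}
    (h : |θ| ≤ aa / (2 : ℝ) ^ t) : t ≤ blk θ := by
  have h1 := ((hblk θ (blk θ) h0).1 rfl).1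
  have h2 := h1.trans_le h
  have h3 : (2 : ℝ) ^ t < (2 : ℝ) ^ (blk θ + 1) :=
    (div_lt_div_iff_of_pos_left (aa_pos hnum) (by positivity) (by positivity)).1 h2
  have h4 := (zpow_lt_zpow_iff_right₀ (by norm_num : (1 : ℝ) < 2)).1 h3
  omega

theorem blk_lt (hnum : L_num) (hblk : L_blk) {θ : ℝ} (h0 : θ ≠ 0) {t : ℤ}
    (h : aa / (2 : ℝ) ^ t < |θ|) : blk θ < t := by
  have h1 := ((hblk θ (blk θ) h0).1 rfl).2
  have h2 := h.trans_le h1
  have h3 : (2 : ℝ) ^ (blk θ) < (2 : ℝ) ^ t :=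
    (div_lt_div_iff_of_pos_left (aa_pos hnum) (by positivity) (by positivity)).1 h2
  exact (zpow_lt_zpow_iff_right₀ (by norm_num : (1 : ℝ) < 2)).1 h3

theorem G_le (n : ℕ) : G n ≤ 4 * b n + 1 := by
  unfold G
  split <;> omega

theorem le_G (n : ℕ) : 2 * (b n : ℤ) ≤ G n := by
  unfold G
  split <;> omega

theorem J_le (n : ℕ) : J n ≤ 4 * b n + 1 := by
  unfold J
  split <;> omega

/-! ### Facts along the ultrafilter -/

section

variable {F : Ultrafilter ℕ} (hF : (F : Filter ℕ) ≤ atTop)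

include hF

theorem ev_ge (k : ℕ) : ∀ᶠ x in (F : Filter ℕ), k ≤ x := hF (eventually_ge_atTop k)

theorem ev_div (x : ℕ) {ε : ℝ} (hε : 0 < ε) : ∀ᶠ y : ℕ in (F : Filter ℕ), (x : ℝ) / y < ε :=
  (tendsto_const_div_atTop_nhds_zero_nat (x : ℝ)).mono_left hF |>.eventually_lt_const hε

theorem ev_sqrt (x : ℕ) {ε : ℝ} (hε : 0 < ε) :
    ∀ᶠ y in (F : Filter ℕ), 1 / Real.sqrt ((x + y : ℕ) : ℝ) < ε := by
  have h1 : Tendsto (fun y : ℕ => ((x + y : ℕ) : ℝ)) atTop atTop :=
    tendsto_natCast_atTop_atTop.comp (tendsto_atTop_mono (fun y => Nat.le_add_left y x) tendsto_id)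
  have h2 : Tendsto (fun y : ℕ => 1 / Real.sqrt ((x + y : ℕ) : ℝ)) atTop (𝓝 0) := by
    simp only [one_div]
    exact tendsto_inv_atTop_zero.comp (Real.tendsto_sqrt_atTop.comp h1)
  exact (h2.mono_left hF).eventually_lt_const hε

omit hF in
theorem ev_th (hp : Pos F 0) {ε : ℝ} (hε : 0 < ε) : ∀ᶠ y in (F : Filter ℕ), |th y| < ε := by
  have h1 : Tendsto (fun y => |th y|) (F : Filter ℕ) (𝓝 |0|) := (show Tendsto th _ _ from hp).abs
  rw [abs_zero] at h1
  exact h1.eventually_lt_const hε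

theorem ev_th_add (hp : Pos F 0) (hsum : L_sum) {x : ℕ} (hx : 1 ≤ x) {ε : ℝ} (hε : 0 < ε) :
    ∀ᶠ y in (F : Filter ℕ), |th (x + y)| < ε := by
  filter_upwards [hsum F 0 hF hp (by norm_num) x hx, ev_th hp (half_pos hε),
    ev_div hF x (half_pos hε)] with y h1 h2 h3
  rw [abs_lt] at h2 ⊢
  constructor <;> linarith [h1.2.1, h1.2.2]

/-- The sum is not a power. -/
theorem ev_add_np (hb : Binf F) (hbs : L_bsum_i) {x : ℕ} (hx : 1 ≤ x) :
    ∀ᶠ y in (F : Filter ℕ), x + y ≠ 3 ^ b (x + y) := by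
  filter_upwards [hbs F hF hb x hx, ev_ge hF (3 ^ b x)] with y h1 h2
  rw [h1]
  omega

theorem ev_add_blk (hp : Pos F 0) (hb : Binf F) (hnum : L_num) (hblk : L_blk) (hsum : L_sum)
    (hbs : L_bsum_i) {x : ℕ} (hx : 1 ≤ x) (t : ℤ) :
    ∀ᶠ y in (F : Filter ℕ), t < blk (th (x + y)) := by
  have h0 : 0 < aa / (2 : ℝ) ^ (t + 1) := div_pos (aa_pos hnum) (by positivity)
  filter_upwards [ev_th_add hF hp hsum hx h0, ev_add_np hF hb hbs hx] with y h1 h2
  have h3 : th (x + y) ≠ 0 := th_ne_zero (by omega) h2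
  have h4 := le_blk hnum hblk h3 h1.le
  omega

end

/-- Module G1. -/
theorem g1_66 (hirr : L_irr) (hnum : L_num) (hblk : L_blk) (hsum : L_sum) (hprod : L_prod)
    (hbs : L_bsum_i) (hpS : L_prodS) : P_G1 := by
  intro F hF hb hp hnp
  have huu : 0 < uu := by
    have := hnum.2.2.1
    linarith
  have haa := aa_pos hnum
  have hb' : Tendsto b (F : Filter ℕ) atTop := hb
  -- the common value of `q`
  obtain ⟨c, hc⟩ : ∃ c : Fin 3, ∀ᶠ x in (F : Filter ℕ), q (th x) = c := by
    have h1 : ∀ᶠ x in (F : Filter ℕ), ∃ c ∈ (Set.univ : Set (Fin 3)), q (th x) = c :=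
      Eventually.of_forall fun x => ⟨_, Set.mem_univ _, rfl⟩
    rw [Ultrafilter.eventually_exists_mem_iff (Set.toFinite _)] at h1
    obtain ⟨c, -, hc⟩ := h1
    exact ⟨c, hc⟩
  have hc0 : c ≠ 0 := by
    obtain ⟨x, h1, h2⟩ := (hc.and (ev_th hp huu)).exists
    rw [← h1]
    exact q_ne_zero h2
  refine ⟨c, hc0, hc, ?_, ?_⟩
  · -- the product
    have hthne : ∀ᶠ x in (F : Filter ℕ), th x ≠ 0 := by
      filter_upwards [hnp, ev_ge hF 1] with x h1 h2
      exact th_ne_zero h2 h1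
    have hP : AE F (fun x y => Lam (x * y) = Lam x + Lam y ∧ th (x * y) = th x + th y) :=
      hprod F 0 hF hp (by norm_num)
    have hS : AE F (fun x y => ¬ S (x * y)) := hpS F 0 hF hp hthne
    unfold AE at hP hS ⊢
    filter_upwards [hP, hS, hnp, hthne, ev_ge hF 1, ev_th hp huu, ev_th hp haa, hc,
      hb'.eventually_ge_atTop 1] with x hPx hSx hnpx hthx hx1 hxu hxa hcx hbx
    -- the block of `th x`
    have habs : 0 < |th x| := abs_pos.2 hthx
    have hblk0 : 0 ≤ blk (th x) := le_blk hnum hblk hthx (by rw [zpow_zero, div_one]; exact hxa.le)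
    obtain ⟨j, hj⟩ := Int.eq_ofNat_of_zero_le hblk0
    obtain ⟨h1, h2⟩ := (hblk (th x) (blk (th x)) hthx).1 rfl
    have h2' : |th x| < aa / (2 : ℝ) ^ (blk (th x)) := by
      refine lt_of_le_of_ne h2 fun e => ?_
      rw [hj, zpow_natCast] at e
      rcases abs_cases (th x) with ⟨h3, -⟩ | ⟨h3, -⟩
      · refine (hirr x hx1 (Lam x) 1 j (Or.inl rfl)).1 ?_
        rw [lg_eq, ← e, h3, one_mul]
      · refine (hirr x hx1 (Lam x) (-1) j (Or.inr rfl)).1 ?_
        rw [lg_eq, ← e, h3]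
        ring
    -- the neighbourhood
    obtain ⟨ε, hε0, hε⟩ : ∃ ε : ℝ, 0 < ε ∧ ∀ δ : ℝ, |δ| < ε →
        aa / (2 : ℝ) ^ (blk (th x) + 1) < |th x + δ| ∧
          |th x + δ| < aa / (2 : ℝ) ^ (blk (th x)) ∧ |th x + δ| < uu ∧
          (0 < th x + δ ↔ 0 < th x) ∧ |th x| / 2 < |th x + δ| := by
      refine ⟨min (min (|th x| - aa / (2 : ℝ) ^ (blk (th x) + 1))
        (aa / (2 : ℝ) ^ (blk (th x)) - |th x|)) (min (uu - |th x|) (|th x| / 2)), ?_, ?_⟩
      · refine lt_min (lt_min (sub_pos.2 h1) (sub_pos.2 h2')) (lt_min (sub_pos.2 hxu) ?_)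
        linarith
      · intro δ hδ
        rw [lt_min_iff, lt_min_iff, lt_min_iff] at hδ
        obtain ⟨⟨h3, h4⟩, h5, h6⟩ := hδ
        have h7 : |th x + δ| ≤ |th x| + |δ| := abs_add_le _ _
        have h8 : |th x| ≤ |th x + δ| + |δ| := by
          have := abs_sub (th x + δ) δ
          rwa [add_sub_cancel_right] at this
        refine ⟨by linarith, by linarith, by linarith, ?_, by linarith⟩
        have h9 := abs_lt.1 (h6.trans_le (half_le_self habs.le))
        rcases abs_cases (th x) with ⟨h10, h11⟩ | ⟨h10, h11⟩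
        · constructor
          · intro _
            exact lt_of_le_of_ne h11 hthx.symm
          · intro _
            linarith [h9.1]
        · constructor
          · intro h12
            linarith [h9.2]
          · intro h12
            linarith
    obtain ⟨N, hN⟩ : ∃ N : ℕ, aa / (2 : ℝ) ^ N < |th x| / 2 := by
      have h3 : Tendsto (fun N : ℕ => aa / (2 : ℝ) ^ N) atTop (𝓝 0) := by
        have h4 := tendsto_pow_atTop_nhds_zero_of_lt_one (r := (1 / 2 : ℝ)) (by norm_num)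
          (by norm_num)
        have h5 := h4.const_mul aa
        rw [mul_zero] at h5
        refine h5.congr fun N => ?_
        rw [one_div, inv_pow]
        rfl
      exact (h3.eventually_lt_const (half_pos habs)).exists
    filter_upwards [hPx, hSx, ev_th hp hε0, ev_ge hF 1, hb'.eventually_ge_atTop N]
      with y hPy hSy hy hy1 hby
    obtain ⟨h3, h4, h5, h6, h7⟩ := hε (th y) hy
    rw [← hPy.2] at h3 h4 h5 h6 h7
    have hne : th (x * y) ≠ 0 := by
      intro e
      rw [e, abs_zero] at h7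
      linarith
    have hbl : blk (th (x * y)) = blk (th x) := (hblk _ _ hne).2 ⟨h3, h4.le⟩
    have hbxy := b_mul hx1 hy1
    have hbx1 : 1 ≤ b (x * y) := by omega
    have hmod := three_dvd hbx1
    have hnp' : x * y ≠ 3 ^ b (x * y) := by
      intro e
      apply hnpx
      have hdvd : x ∣ 3 ^ b (x * y) := e ▸ Dvd.intro y rfl
      obtain ⟨k, -, hk⟩ := (Nat.dvd_prime_pow Nat.prime_three).1 hdvd
      have h8 : b x = k := by
        unfold b
        rw [hk]
        exact padicValNat.prime_pow k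
      rw [h8]
      exact hk
    have hG : blk (th (x * y)) ≤ G (x * y) := by
      have h8 : blk (th (x * y)) < N := blk_lt hnum hblk hne (by
        rw [zpow_natCast]
        exact hN.trans h7)
      have h9 := le_G (x * y)
      omega
    unfold col
    rw [if_neg (by omega), if_neg (by omega), if_neg hnp', if_neg hSy, if_pos hG,
      q_eq h5 hxu h6 hbl, hcx]
  · -- the sum
    unfold AE
    filter_upwards [ev_ge hF 1, hb'.eventually_ge_atTop 1] with x hx1 hbx
    have hK : 0 < aa / (2 : ℝ) ^ (4 * b x + 1 + 1) := div_pos haa (by positivity)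
    filter_upwards [hbs F hF hb x hx1, ev_add_np hF hb hbs hx1, ev_th_add hF hp hsum hx1 huu,
      ev_th_add hF hp hsum hx1 hK, ev_sqrt hF x hK,
      ev_add_blk hF hp hb hnum hblk hsum hbs hx1 (4 * b x + 1)] with y h1 h2 h3 h4 h5 h6
    have hmod := three_dvd (n := x + y) (by omega)
    have hS : ¬ S (x + y) := by
      rintro ⟨j, hj1, hj2, hj3⟩
      have h7 := J_le (x + y)
      rw [h1] at h7
      have h8 : j ≤ 4 * b x + 1 := by omega
      have h9 : aa / (2 : ℝ) ^ (4 * b x + 1) ≤ aa / (2 : ℝ) ^ j :=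
        div_le_div_of_nonneg_left haa.le (by positivity)
          (pow_le_pow_right₀ (by norm_num) h8)
      have h10 : aa / (2 : ℝ) ^ (4 * b x + 1) = 2 * (aa / (2 : ℝ) ^ (4 * b x + 1 + 1)) := by
        rw [pow_succ (2 : ℝ) (4 * b x + 1)]
        field_simp
      have h11 := (abs_lt.1 hj3).1
      linarith
    have hG : ¬ blk (th (x + y)) ≤ G (x + y) := by
      have h7 := G_le (x + y)
      rw [h1] at h7
      omega
    refine ⟨fun h => ?_, fun h => ⟨q_ne_zero h3, fun h' => ?_, fun h' => ?_⟩⟩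
    · unfold col
      rw [if_neg (by omega), if_neg (by omega), if_neg h2, if_neg hS, if_neg hG, if_pos h]
    · unfold col
      rw [if_neg (by omega), if_neg (by omega), if_neg h2, if_neg hS, if_neg hG,
        if_neg (not_not.2 h), if_pos h']
    · unfold col
      rw [if_neg (by omega), if_neg (by omega), if_neg h2, if_neg hS, if_neg hG,
        if_neg (not_not.2 h), if_neg h']

end

end Pool.Agent.Lib.MP_60922f_co.T43.G66
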