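import Pool.Agent.Lib.MP_60922f_co.T43G66

/-!
THREE COLOURS: module G2, crossing implies flagged (helper66).
-/

set_option autoImplicit false

namespace Pool.Agent.Lib.MP_60922f_co.T43.G66

open Filter Topology

noncomputable section

/-- Position of `T n` relative to `3 ^ Lam n`. -/
def ps (n : ℕ) : ℝ :=
  if 0 < th n then aa / (2 : ℝ) ^ (blk (th n) + 1) else -(aa / (2 : ℝ) ^ (blk (th n)))

theorem T_bd (n : ℕ) (h0 : 0 ≤ blk (th n)) : ∃ (s : ℝ) (j : ℕ), (s = 1 ∨ s = -1) ∧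
    T n = bd (Lam n) s j ∧ T n = (3 : ℝ) ^ ((Lam n : ℝ) + ps n) := by
  by_cases h : 0 < th n
  · refine ⟨1, (blk (th n) + 1).toNat, Or.inl rfl, ?_, ?_⟩
    · unfold T
      rw [if_pos h]
    · unfold T bd ps
      rw [if_pos h, if_pos h, one_mul]
      congr 3
      rw [← zpow_natCast, Int.toNat_of_nonneg (by omega)]
  · refine ⟨-1, (blk (th n)).toNat, Or.inr rfl, ?_, ?_⟩
    · unfold T
      rw [if_neg h]
    · unfold T bd ps
      rw [if_neg h, if_neg h, neg_one_mul]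
      congr 4
      rw [← zpow_natCast, Int.toNat_of_nonneg (by omega)]

theorem ps_le (hblk : L_blk) {n : ℕ} (hn : th n ≠ 0) : ps n ≤ th n := by
  obtain ⟨h1, h2⟩ := (hblk (th n) (blk (th n)) hn).1 rfl
  unfold ps
  split_ifs with h
  · rw [abs_of_pos h] at h1
    exact h1.le
  · have h3 : th n ≤ 0 := not_lt.1 h
    rw [abs_of_nonpos h3] at h2
    linarith

/-- A crossing. -/
theorem lt_ps (hirr : L_irr) (hnum : L_num) (hblk : L_blk) {m n : ℕ} (hm : 1 ≤ m)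
    (hm0 : th m ≠ 0) (hn : th n ≠ 0) (h0 : 0 ≤ blk (th n)) (hlt : th m < th n)
    (hmu : |th m| < uu) (hnu : |th n| < uu) (hq : q (th n) ≠ q (th m)) : th m < ps n := by
  obtain ⟨h1, h2⟩ := (hblk (th n) (blk (th n)) hn).1 rfl
  by_contra hcon
  rw [not_lt] at hcon
  apply hq
  unfold ps at hcon
  split_ifs at hcon with h
  · rw [abs_of_pos h] at h1 h2
    have h3 : 0 < aa / (2 : ℝ) ^ (blk (th n) + 1) := div_pos (aa_pos hnum) (by positivity)
    have h4 : 0 < th m := h3.trans_le hcon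
    have h5 : aa / (2 : ℝ) ^ (blk (th n) + 1) < th m := by
      refine lt_of_le_of_ne hcon fun e => ?_
      obtain ⟨j, hj⟩ := Int.eq_ofNat_of_zero_le (show 0 ≤ blk (th n) + 1 by omega)
      rw [hj, zpow_natCast] at e
      refine (hirr m hm (Lam m) 1 j (Or.inl rfl)).1 ?_
      rw [lg_eq, ← e, one_mul]
    have h6 : blk (th m) = blk (th n) := (hblk _ _ hm0).2 (by
      rw [abs_of_pos h4]
      exact ⟨h5, hlt.le.trans h2⟩)
    exact q_eq hnu hmu ⟨fun _ => h4, fun _ => h⟩ h6.symm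
  · have h3 : th n ≤ 0 := not_lt.1 h
    have h4 : th m < 0 := hlt.trans_le h3
    rw [abs_of_nonpos h3] at h1 h2
    have h6 : blk (th m) = blk (th n) := (hblk _ _ hm0).2 (by
      rw [abs_of_neg h4]
      constructor <;> linarith)
    exact q_eq hnu hmu ⟨fun h5 => absurd h5 h, fun h5 => absurd h5 (not_lt.2 h4.le)⟩ h6.symm

/-- The boundary of a crossing. -/
theorem cross_T (hirr : L_irr) (hnum : L_num) (hblk : L_blk) {m n : ℕ} (hm : 1 ≤ m) (hn1 : 1 ≤ n)
    (hL : Lam n = Lam m) (hm0 : th m ≠ 0) (hn : th n ≠ 0) (h0 : 0 ≤ blk (th n))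
    (hlt : th m < th n) (hmu : |th m| < uu) (hnu : |th n| < uu) (hq : q (th n) ≠ q (th m)) :
    ∃ (s : ℝ) (j : ℕ), (s = 1 ∨ s = -1) ∧ T n = bd (Lam n) s j ∧ (m : ℝ) < T n ∧ T n ≤ n := by
  obtain ⟨s, j, hs, h1, h2⟩ := T_bd n h0
  refine ⟨s, j, hs, h1, ?_, ?_⟩
  · rw [h2, ← rpow_lg hm, lg_eq, hL]
    refine Real.rpow_lt_rpow_of_exponent_lt (by norm_num) ?_
    have := lt_ps hirr hnum hblk hm hm0 hn h0 hlt hmu hnu hq
    linarith
  · rw [h2]
    have h3 := rpow_lg hn1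
    rw [lg_eq] at h3
    rw [← h3]
    refine Real.rpow_le_rpow_of_exponent_le (by norm_num) ?_
    have := ps_le hblk hn
    linarith

/-- The boundary does not depend on the summand. -/
theorem T_congr (hnum : L_num) (hblk : L_blk) {n n' : ℕ} {θ e : ℝ} (hL : Lam n' = Lam n)
    (hn : th n ≠ 0) (h1 : θ < ps n) (h2 : th n ≤ th n') (h3 : th n' ≤ θ + e)
    (he : 0 < e) (hw : 3 * e < |θ|) : T n' = T n := by
  obtain ⟨h4, h5⟩ := (hblk (th n) (blk (th n)) hn).1 rfl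
  have hps := ps_le hblk hn
  have hzp : aa / (2 : ℝ) ^ (blk (th n)) = 2 * (aa / (2 : ℝ) ^ (blk (th n) + 1)) := by
    rw [zpow_add_one₀ (by norm_num : (2 : ℝ) ≠ 0)]
    field_simp
  have hgoal : (0 < th n' ↔ 0 < th n) ∧ blk (th n') = blk (th n) := by
    rcases lt_or_gt_of_ne hn with h | h
    · -- negative
      have h6 : ps n = -(aa / (2 : ℝ) ^ (blk (th n))) := by
        unfold ps
        rw [if_neg (not_lt.2 h.le)]
      rw [h6] at h1 hps
      have h7 : θ < 0 := by linarith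
      rw [abs_of_neg h7] at hw
      rw [abs_of_neg h] at h4 h5
      have h8 : th n' < 0 := by linarith
      refine ⟨⟨fun h9 => absurd h9 (not_lt.2 h8.le), fun h9 => absurd h9 (not_lt.2 h.le)⟩, ?_⟩
      refine (hblk _ _ h8.ne).2 ?_
      rw [abs_of_neg h8]
      constructor <;> linarith
    · -- positive
      have h6 : ps n = aa / (2 : ℝ) ^ (blk (th n) + 1) := by
        unfold ps
        rw [if_pos h]
      rw [h6] at h1 hps
      have h7 : 0 < θ := by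
        by_contra h8
        rw [not_lt] at h8
        rw [abs_of_nonpos h8] at hw
        linarith
      rw [abs_of_pos h7] at hw
      rw [abs_of_pos h] at h4 h5
      have h8 : 0 < th n' := h.trans_le h2
      refine ⟨⟨fun _ => h, fun _ => h8⟩, ?_⟩
      refine (hblk _ _ h8.ne').2 ?_
      rw [abs_of_pos h8]
      constructor <;> linarith
  unfold T
  rw [hgoal.2, hL]
  by_cases h : 0 < th n
  · rw [if_pos h, if_pos (hgoal.1.2 h)]
  · rw [if_neg h, if_neg fun h' => h (hgoal.1.1 h')]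

theorem width_aux {y : ℕ} (hy : 1 ≤ y) (hnp : y ≠ 3 ^ b y) :
    ((3 : ℝ) ^ (b y)) ≤ 4 * (|th y| * y) := by
  have hfact : Fact (Nat.Prime 3) := ⟨Nat.prime_three⟩
  have hdvd : 3 ^ b y ∣ y := pow_padicValNat_dvd
  have hth : |th y| ≤ 1 / 2 := th_abs y
  have hlog : Real.log 3 ≤ 2 := by
    have := Real.log_le_sub_one_of_pos (show (0 : ℝ) < 3 by norm_num)
    linarith
  have hlog0 : 0 < Real.log 3 := Real.log_pos (by norm_num)
  -- `b y ≤ Lam y`
  have hle : (b y : ℝ) ≤ lg y := by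
    have h1 : (3 : ℝ) ^ (b y : ℝ) ≤ y := by
      rw [Real.rpow_natCast]
      exact_mod_cast Nat.le_of_dvd hy hdvd
    unfold lg
    rw [Real.le_logb_iff_rpow_le (by norm_num) (by exact_mod_cast hy)]
    exact h1
  have hLb : (b y : ℤ) ≤ Lam y := by
    by_contra h1
    push Not at h1
    have h2 : (Lam y : ℝ) + 1 ≤ b y := by exact_mod_cast h1
    have h3 := lg_eq y
    have h4 := abs_le.1 hth
    linarith
  obtain ⟨l, hl⟩ := Int.eq_ofNat_of_zero_le ((Nat.cast_nonneg (b y)).trans hLb)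
  rw [hl] at hLb
  have hbl : b y ≤ l := by exact_mod_cast hLb
  have hne : (y : ℤ) - 3 ^ l ≠ 0 := by
    intro h1
    have h2 : y = 3 ^ l := by
      have h3 : (y : ℤ) = 3 ^ l := by linarith
      exact_mod_cast h3
    apply hnp
    have h3 : b y = l := by
      unfold b
      rw [h2]
      exact padicValNat.prime_pow l
    rw [h3]
    exact h2
  have hdv : ((3 ^ b y : ℕ) : ℤ) ∣ (y : ℤ) - 3 ^ l := by
    refine dvd_sub (by exact_mod_cast hdvd) ?_
    exact_mod_cast pow_dvd_pow 3 hbl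
  have h1 : ((3 ^ b y : ℕ) : ℤ) ≤ |(y : ℤ) - 3 ^ l| :=
    Int.le_of_dvd (abs_pos.2 hne) ((dvd_abs _ _).2 hdv)
  have h2 : (3 : ℝ) ^ (b y) ≤ |(y : ℝ) - 3 ^ l| := by
    exact_mod_cast h1
  refine h2.trans ?_
  have h3 : (3 : ℝ) ^ l = y * Real.exp (-(th y) * Real.log 3) := by
    have h4 : (l : ℝ) = lg y - th y := by
      have h5 := lg_eq y
      rw [hl] at h5
      push_cast at h5
      linarith
    rw [← Real.rpow_natCast, h4, sub_eq_add_neg, Real.rpow_add (by norm_num), rpow_lg hy,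
      Real.rpow_def_of_pos (by norm_num) (-(th y)), mul_comm (Real.log 3)]
  rw [h3]
  have h4 : (y : ℝ) - y * Real.exp (-(th y) * Real.log 3) =
      -(y * (Real.exp (-(th y) * Real.log 3) - 1)) := by ring
  have h5 : |(-(th y)) * Real.log 3| = |th y| * Real.log 3 := by
    rw [abs_mul, abs_neg, abs_of_pos hlog0]
  have h6 : |(-(th y)) * Real.log 3| ≤ 1 := by
    rw [h5]
    nlinarith [abs_nonneg (th y)]
  have h7 := Real.abs_exp_sub_one_le h6
  rw [h4, abs_neg, abs_mul, abs_of_nonneg (Nat.cast_nonneg y)]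
  rw [h5] at h7
  have h8 : |Real.exp (-(th y) * Real.log 3) - 1| ≤ 4 * |th y| := by
    nlinarith [abs_nonneg (th y)]
  calc (y : ℝ) * |Real.exp (-(th y) * Real.log 3) - 1| ≤ y * (4 * |th y|) :=
        mul_le_mul_of_nonneg_left h8 (Nat.cast_nonneg y)
    _ = 4 * (|th y| * y) := by ring

theorem ev_width {F : Ultrafilter ℕ} (hF : (F : Filter ℕ) ≤ atTop) (hb : Binf F)
    (hnp : ∀ᶠ x in (F : Filter ℕ), x ≠ 3 ^ b x) (C : ℝ) :
    ∀ᶠ y : ℕ in (F : Filter ℕ), C < |th y| * y := by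
  have hb' : Tendsto b (F : Filter ℕ) atTop := hb
  obtain ⟨N, hN⟩ := exists_nat_gt (4 * C)
  filter_upwards [hnp, ev_ge hF 1, hb'.eventually_ge_atTop N] with y h1 h2 h3
  have h4 := width_aux h2 h1
  have h5 : (N : ℝ) < (3 : ℝ) ^ (b y) := by
    exact_mod_cast lt_of_le_of_lt h3 (Nat.lt_pow_self (by norm_num))
  linarith

/-- Module G2. -/
theorem g2_66 (hirr : L_irr) (hnum : L_num) (hblk : L_blk) (hsum : L_sum) (hbs : L_bsum_i) :
    P_G2 := by
  intro F hF hb hp hnp hcr _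
  have huu : 0 < uu := by
    have := hnum.2.2.1
    linarith
  have haa := aa_pos hnum
  have hb' : Tendsto b (F : Filter ℕ) atTop := hb
  have hcr' : ∀ᶠ x in (F : Filter ℕ), ∀ᶠ y in (F : Filter ℕ), Cross x y := hcr
  obtain ⟨k, hk, hk1⟩ := (hcr'.and (ev_ge hF 1)).exists
  -- the limit of `Lam x * log_2 3` modulo `1`
  let r : ℕ → ℝ := fun x => Int.fract ((Lam x : ℝ) * Real.logb 2 3)
  obtain ⟨ρ, hρ⟩ : ∃ ρ : ℝ, Tendsto r (F : Filter ℕ) (𝓝 ρ) := by
    have hm : (F.map r : Filter ℝ) ≤ 𝓟 (Set.Icc (0 : ℝ) 1) := by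
      rw [Filter.le_principal_iff, Ultrafilter.coe_map, Filter.mem_map]
      refine Filter.univ_mem' fun n => ?_
      exact ⟨Int.fract_nonneg _, (Int.fract_lt_one _).le⟩
    obtain ⟨ρ, -, h2⟩ := (isCompact_Icc (a := (0 : ℝ)) (b := 1)).ultrafilter_le_nhds (F.map r) hm
    exact ⟨ρ, h2⟩
  have hr : ∀ᶠ x in (F : Filter ℕ), |r x - ρ| < 1 / 8 := by
    have h1 : Tendsto (fun x => |r x - ρ|) (F : Filter ℕ) (𝓝 |ρ - ρ|) :=
      (hρ.sub tendsto_const_nhds).abs
    rw [sub_self, abs_zero] at h1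
    exact h1.eventually_lt_const (by norm_num)
  have hthne : ∀ᶠ x in (F : Filter ℕ), th x ≠ 0 := by
    filter_upwards [hnp, ev_ge hF 1] with x h1 h2
    exact th_ne_zero h2 h1
  -- the crossing with the fixed number `k`
  have hbase : ∀ᶠ x in (F : Filter ℕ), 1 ≤ x ∧ Lam (k + x) = Lam x ∧ th x < th (k + x) ∧
      th x ≠ 0 ∧ th (k + x) ≠ 0 ∧ 0 ≤ blk (th (k + x)) ∧ |th x| < uu ∧ |th (k + x)| < uu ∧
      q (th (k + x)) ≠ q (th x) := by
    filter_upwards [ev_ge hF 1, hsum F 0 hF hp (by norm_num) k hk1, hthne,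
      ev_add_np hF hb hbs hk1, ev_add_blk hF hp hb hnum hblk hsum hbs hk1 0, ev_th hp huu,
      ev_th_add hF hp hsum hk1 huu, hk] with x h1 h2 h3 h4 h5 h6 h7 h8
    exact ⟨h1, h2.1, h2.2.1, h3, th_ne_zero (by omega) h4, h5.le, h6, h7, h8⟩
  unfold AE
  filter_upwards [hbase, ev_ge hF k, hb'.eventually_ge_atTop (2 * k), hr] with x hx hkx hbx hrx
  obtain ⟨hx1, hx2, hx3, hx4, hx5, hx6, hx7, hx8, hx9⟩ := hx
  obtain ⟨s, j, hs, hT1, hT2, hT3⟩ := cross_T hirr hnum hblk hx1 (by omega : 1 ≤ k + x) hx2 hx4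
    hx5 hx6 hx3 hx7 hx8 hx9
  filter_upwards [hbase, hsum F 0 hF hp (by norm_num) x hx1, hbs F hF hb x hx1,
    ev_add_blk hF hp hb hnum hblk hsum hbs hx1 (4 * b x + 6), ev_width hF hb hnp (3 * x), hr]
    with y hy hsy hby hbl hwy hry
  obtain ⟨hy1, hy2, hy3, hy4, hy5, hy6, hy7, hy8, hy9⟩ := hy
  obtain ⟨-, -, -, -, hU2, hU3⟩ := cross_T hirr hnum hblk hy1 (by omega : 1 ≤ k + y) hy2 hy4
    hy5 hy6 hy3 hy7 hy8 hy9
  have hy0 : (0 : ℝ) < y := by exact_mod_cast hy1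
  have hx0 : (0 : ℝ) < x := by exact_mod_cast hx1
  -- `T (x + y) = T (k + y)`
  have hTT : T (x + y) = T (k + y) := by
    refine T_congr hnum hblk (θ := th y) (e := x / y) (by rw [hsy.1, hy2]) hy5
      (lt_ps hirr hnum hblk hy1 hy4 hy5 hy6 hy3 hy7 hy8 hy9) ?_ hsy.2.2 (div_pos hx0 hy0) ?_
    · unfold th
      rw [hsy.1, hy2]
      have h1 : lg (k + y) ≤ lg (x + y) := by
        unfold lg
        refine Real.logb_le_logb_of_le (by norm_num) (by positivity) ?_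
        exact_mod_cast Nat.add_le_add_right hkx y
      linarith
    · rw [← mul_div_assoc, div_lt_iff₀ hy0]
      exact hwy
  refine ⟨?_, Lam x, s, j, hs, ?_, ?_, ?_⟩
  · have h1 := G_le (x + y)
    rw [hby] at h1
    omega
  · rw [← hx2, ← hT1, hTT]
    push_cast
    linarith
  · rw [← hx2, ← hT1, hTT, hby]
    have h1 : (2 : ℝ) * k ≤ b x := by exact_mod_cast hbx
    push_cast at hT3 hU3 ⊢
    linarith
  · refine ⟨⌊(Lam y : ℝ) * Real.logb 2 3⌋ - ⌊(Lam x : ℝ) * Real.logb 2 3⌋, ?_⟩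
    rw [hsy.1]
    have h1 : (((Lam y - Lam x : ℤ) : ℝ) * Real.logb 2 3 -
        ((⌊(Lam y : ℝ) * Real.logb 2 3⌋ - ⌊(Lam x : ℝ) * Real.logb 2 3⌋ : ℤ) : ℝ)) =
        (r y - ρ) - (r x - ρ) := by
      change _ = (Int.fract _ - ρ) - (Int.fract _ - ρ)
      unfold Int.fract
      push_cast
      ring
    rw [h1]
    have h2 := abs_lt.1 hrx
    have h3 := abs_lt.1 hry
    rw [abs_lt]
    constructor <;> linarith

end

end Pool.Agent.Lib.MP_60922f_co.T43.G66
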