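import Pool.Agent.Lib.MP_60922f_co.T43Stmts

/-!
THREE COLOURS, module LB (seat 98): positions of sums and products.
-/

set_option autoImplicit false

namespace Pool.Agent.Lib.MP_60922f_co.T43

open Filter Topology

namespace LB98

theorem round_eq_of {r : ℝ} {m : ℤ} (h1 : -(1 / 2) ≤ r - m) (h2 : r - m < 1 / 2) :
    round r = m := by
  have h3 : round (r - m) = 0 := round_eq_zero_iff.2 ⟨h1, h2⟩
  rw [round_sub_intCast] at h3
  omega

theorem lg_eq (n : ℕ) : lg n = Lam n + th n := by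
  unfold th
  ring

theorem lg_mul {x y : ℕ} (hx : 1 ≤ x) (hy : 1 ≤ y) : lg (x * y) = lg x + lg y := by
  unfold lg
  push_cast
  rw [Real.logb_mul (by positivity) (by positivity)]

theorem ev_pos {F : Ultrafilter ℕ} (hF : (F : Filter ℕ) ≤ atTop) :
    ∀ᶠ x in (F : Filter ℕ), 1 ≤ x := hF (Filter.eventually_ge_atTop 1)

theorem ev_div {F : Ultrafilter ℕ} (hF : (F : Filter ℕ) ≤ atTop) (x : ℕ) {δ : ℝ} (hδ : 0 < δ) :
    ∀ᶠ y : ℕ in (F : Filter ℕ), (x : ℝ) / y < δ := by
  apply hF
  have h1 : Tendsto (fun y : ℕ => (x : ℝ) / y) atTop (𝓝 0) :=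
    tendsto_const_div_atTop_nhds_zero_nat (x : ℝ)
  exact (h1.eventually (gt_mem_nhds hδ))

theorem ev_near {F : Ultrafilter ℕ} {Θ : ℝ} (hp : Pos F Θ) {δ : ℝ} (hδ : 0 < δ) :
    ∀ᶠ y in (F : Filter ℕ), |th y - Θ| < δ := by
  have h1 := (Metric.tendsto_nhds.1 hp) δ hδ
  exact h1.mono fun y hy => by rwa [Real.dist_eq] at hy

end LB98

open LB98

theorem l_sum98 (hadd : L_add) : L_sum := by
  intro F Θ hF hp hΘ x hx
  have hδ : 0 < (1 / 2 - |Θ|) / 3 := by linarith
  filter_upwards [ev_near hp hδ, ev_div hF x hδ, ev_pos hF] with y h1 h2 h3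
  obtain ⟨h4, h5⟩ := hadd x y hx h3
  rw [abs_lt] at h1
  have h6 := lg_eq y
  have h7 := abs_le.1 (le_refl |Θ|)
  have hL : Lam (x + y) = Lam y := by
    unfold Lam
    apply round_eq_of
    · change -(1 / 2) ≤ lg (x + y) - (Lam y : ℝ)
      linarith [h7.1]
    · change lg (x + y) - (Lam y : ℝ) < 1 / 2
      linarith [h7.2]
  refine ⟨hL, ?_, ?_⟩
  · unfold th
    rw [hL]
    linarith
  · unfold th
    rw [hL]
    linarith

theorem l_sum_half98 (hadd : L_add) : L_sum_half := by
  intro F Θ hF hp hΘ x hx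
  filter_upwards [ev_near hp (show (0 : ℝ) < 0.05 by norm_num),
    ev_div hF x (show (0 : ℝ) < 0.05 by norm_num), ev_pos hF] with y h1 h2 h3
  obtain ⟨h4, h5⟩ := hadd x y hx h3
  rw [abs_lt] at h1
  have h6 := lg_eq y
  have h7 := lg_eq (x + y)
  have h8 := th_abs y
  rw [abs_le] at h8
  -- the integer difference
  have hcast : (((Lam (x + y) - Lam y : ℤ)) : ℝ) = (Lam (x + y) : ℝ) - Lam y := by push_cast; ring
  have h9 : th (x + y) = (lg (x + y) - Lam y) - ((Lam (x + y) - Lam y : ℤ) : ℝ) := by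
    rw [hcast]; linarith
  set m : ℤ := Lam (x + y) - Lam y with hm
  rcases (abs_eq (by norm_num : (0 : ℝ) ≤ 1 / 2)).1 hΘ with h | h
  · -- Θ = 1/2
    rcases le_or_gt m 0 with h0 | h0
    · have h10 : (m : ℝ) ≤ 0 := by exact_mod_cast h0
      apply lt_of_lt_of_le _ (le_abs_self _)
      rw [h9]
      linarith
    · have h10 : (1 : ℝ) ≤ m := by exact_mod_cast h0
      apply lt_of_lt_of_le _ (neg_le_abs _)
      rw [h9]
      linarith
  · rcases le_or_gt m (-1) with h0 | h0
    · have h10 : (m : ℝ) ≤ -1 := by exact_mod_cast h0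
      apply lt_of_lt_of_le _ (le_abs_self _)
      rw [h9]
      linarith
    · have h10 : (0 : ℝ) ≤ m := by exact_mod_cast (by omega : 0 ≤ m)
      apply lt_of_lt_of_le _ (neg_le_abs _)
      rw [h9]
      linarith

theorem l_prod98 : L_prod := by
  intro F Θ hF hp hΘ
  have hδ : 0 < 1 / 4 - |Θ| := by linarith
  have hev : ∀ᶠ x in (F : Filter ℕ), 1 ≤ x ∧ |th x| < 1 / 4 := by
    filter_upwards [ev_near hp hδ, ev_pos hF] with x h1 h2
    refine ⟨h2, ?_⟩
    have : |th x| ≤ |th x - Θ| + |Θ| := by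
      have := abs_add_le (th x - Θ) Θ
      rwa [sub_add_cancel] at this
    linarith
  change ∀ᶠ x in (F : Filter ℕ), ∀ᶠ y in (F : Filter ℕ), _
  filter_upwards [hev] with x hx
  filter_upwards [hev] with y hy
  have h1 := lg_mul hx.1 hy.1
  have h2 := lg_eq x
  have h3 := lg_eq y
  have h4 := abs_lt.1 hx.2
  have h5 := abs_lt.1 hy.2
  have hL : Lam (x * y) = Lam x + Lam y := by
    unfold Lam
    apply round_eq_of
    · change -(1 / 2) ≤ lg (x * y) - ((Lam x + Lam y : ℤ) : ℝ)
      push_cast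
      linarith
    · change lg (x * y) - ((Lam x + Lam y : ℤ) : ℝ) < 1 / 2
      push_cast
      linarith
  refine ⟨hL, ?_⟩
  unfold th
  rw [hL]
  push_cast
  linarith

theorem l_prod_big98 : L_prod_big := by
  intro F Θ hF hp hΘ
  have hδ : 0 < |Θ| - 1 / 4 := by linarith
  rcases le_or_gt Θ 0 with h0 | h0
  · refine ⟨-1, Or.inr ⟨rfl, ?_⟩, ?_⟩
    · rcases h0.lt_or_eq with h | h
      · exact h
      · rw [h, abs_zero] at hΘ
        norm_num at hΘ
    · have hev : ∀ᶠ x in (F : Filter ℕ), 1 ≤ x ∧ th x < -(1 / 4) := by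
        filter_upwards [ev_near hp hδ, ev_pos hF] with x h1 h2
        refine ⟨h2, ?_⟩
        rw [abs_of_nonpos h0, abs_lt] at h1
        linarith [h1.2]
      change ∀ᶠ x in (F : Filter ℕ), ∀ᶠ y in (F : Filter ℕ), _
      filter_upwards [hev] with x hx
      filter_upwards [hev] with y hy
      have h1 := lg_mul hx.1 hy.1
      have h2 := lg_eq x
      have h3 := lg_eq y
      have h4 := abs_le.1 (th_abs x)
      have h5 := abs_le.1 (th_abs y)
      have hL : Lam (x * y) = Lam x + Lam y + (-1) := by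
        unfold Lam
        apply round_eq_of
        · change -(1 / 2) ≤ lg (x * y) - ((Lam x + Lam y + (-1) : ℤ) : ℝ)
          push_cast
          linarith
        · change lg (x * y) - ((Lam x + Lam y + (-1) : ℤ) : ℝ) < 1 / 2
          push_cast
          linarith [hx.2, hy.2]
      refine ⟨hL, ?_⟩
      unfold th
      rw [hL]
      push_cast
      linarith
  · refine ⟨1, Or.inl ⟨rfl, h0⟩, ?_⟩
    have hev : ∀ᶠ x in (F : Filter ℕ), 1 ≤ x ∧ 1 / 4 < th x := by
      filter_upwards [ev_near hp hδ, ev_pos hF] with x h1 h2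
      refine ⟨h2, ?_⟩
      rw [abs_of_pos h0, abs_lt] at h1
      linarith [h1.1]
    change ∀ᶠ x in (F : Filter ℕ), ∀ᶠ y in (F : Filter ℕ), _
    filter_upwards [hev] with x hx
    filter_upwards [hev] with y hy
    have h1 := lg_mul hx.1 hy.1
    have h2 := lg_eq x
    have h3 := lg_eq y
    have h4 := abs_le.1 (th_abs x)
    have h5 := abs_le.1 (th_abs y)
    have hL : Lam (x * y) = Lam x + Lam y + 1 := by
      unfold Lam
      apply round_eq_of
      · change -(1 / 2) ≤ lg (x * y) - ((Lam x + Lam y + 1 : ℤ) : ℝ)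
        push_cast
        linarith [hx.2, hy.2]
      · change lg (x * y) - ((Lam x + Lam y + 1 : ℤ) : ℝ) < 1 / 2
        push_cast
        linarith
    refine ⟨hL, ?_⟩
    unfold th
    rw [hL]
    push_cast
    linarith

end Pool.Agent.Lib.MP_60922f_co.T43
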