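import Pool.Agent.Lib.MP_60922f_co.T43Stmts
import Pool.Agent.Lib.MP_60922f_co.T43LB98

/-!
THREE COLOURS, module H (seat 98): without a crossing the sum is not flagged.
-/

set_option autoImplicit false

namespace Pool.Agent.Lib.MP_60922f_co.T43

open Filter Topology

namespace H98

open LB98

/-! ### boundaries -/

theorem aa_pos : 0 < aa := by
  unfold aa
  have : 0 < Real.logb 3 2 := Real.logb_pos (by norm_num) (by norm_num)
  linarith

/-- `3^(aa/2^j)` -/
noncomputable def ww (j : ℕ) : ℝ := (3 : ℝ) ^ (aa / 2 ^ j)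

theorem ww_zero_sq : ww 0 ^ 2 = 2 := by
  unfold ww
  rw [← Real.rpow_natCast, ← Real.rpow_mul (by norm_num)]
  have h1 : aa / 2 ^ 0 * ((2 : ℕ) : ℝ) = Real.logb 3 2 := by
    unfold aa
    push_cast
    ring
  rw [h1, Real.rpow_logb (by norm_num) (by norm_num) (by norm_num)]

theorem ww_succ_sq (j : ℕ) : ww (j + 1) ^ 2 = ww j := by
  unfold ww
  rw [← Real.rpow_natCast, ← Real.rpow_mul (by norm_num)]
  congr 1
  rw [pow_succ]
  push_cast
  field_simp

theorem ww_gt_one (j : ℕ) : 1 < ww j := by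
  unfold ww
  exact Real.one_lt_rpow (by norm_num) (by have := aa_pos; positivity)

theorem ww_anti {i j : ℕ} (h : i ≤ j) : ww j ≤ ww i := by
  unfold ww
  apply Real.rpow_le_rpow_of_exponent_le (by norm_num)
  apply div_le_div_of_nonneg_left aa_pos.le (by positivity)
  exact pow_le_pow_right₀ (by norm_num) h

theorem ww_le (j : ℕ) : ww j ≤ 3 / 2 := by
  refine (ww_anti (Nat.zero_le j)).trans ?_
  have h1 := ww_zero_sq
  have h2 := ww_gt_one 0
  nlinarith

theorem bd_one (M : ℤ) (j : ℕ) : bd M 1 j = (3 : ℝ) ^ (M : ℝ) * ww j := by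
  unfold bd ww
  rw [← Real.rpow_add (by norm_num)]
  congr 1
  ring

theorem bd_neg (M : ℤ) (j : ℕ) : bd M (-1) j = (3 : ℝ) ^ (M : ℝ) / ww j := by
  unfold bd ww
  rw [← Real.rpow_sub (by norm_num)]
  congr 1
  ring

theorem pow3_pos (M : ℤ) : 0 < (3 : ℝ) ^ (M : ℝ) := Real.rpow_pos_of_pos (by norm_num) _

theorem pow3_lt {M M' : ℤ} (h : M < M') : 3 * (3 : ℝ) ^ (M : ℝ) ≤ (3 : ℝ) ^ (M' : ℝ) := by
  have h1 : 3 * (3 : ℝ) ^ (M : ℝ) = (3 : ℝ) ^ ((M : ℝ) + 1) := by
    rw [Real.rpow_add (by norm_num), Real.rpow_one]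
    ring
  rw [h1]
  apply Real.rpow_le_rpow_of_exponent_le (by norm_num)
  have : M + 1 ≤ M' := h
  exact_mod_cast this

theorem bd_le (M : ℤ) (s : ℝ) (hs : s = 1 ∨ s = -1) (j : ℕ) :
    bd M s j ≤ 3 / 2 * (3 : ℝ) ^ (M : ℝ) := by
  have hX := pow3_pos M
  have h1 := ww_le j
  have h2 := ww_gt_one j
  rcases hs with rfl | rfl
  · rw [bd_one]
    nlinarith
  · rw [bd_neg, div_le_iff₀ (by linarith)]
    nlinarith

theorem bd_ge (M : ℤ) (s : ℝ) (hs : s = 1 ∨ s = -1) (j : ℕ) :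
    2 / 3 * (3 : ℝ) ^ (M : ℝ) ≤ bd M s j := by
  have hX := pow3_pos M
  have h1 := ww_le j
  have h2 := ww_gt_one j
  rcases hs with rfl | rfl
  · rw [bd_one]
    nlinarith
  · rw [bd_neg, le_div_iff₀ (by linarith)]
    nlinarith

/-- WIDTH: two different boundaries are far apart. -/
theorem width {M M' : ℤ} {s s' : ℝ} (hs : s = 1 ∨ s = -1) (hs' : s' = 1 ∨ s' = -1) {j j' : ℕ}
    (h : bd M s j < bd M' s' j') :
    |bd M s j - (3 : ℝ) ^ (M : ℝ)| ≤ 3 * (bd M' s' j' - bd M s j) := by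
  have hX := pow3_pos M
  have h1 := ww_le j
  have h2 := ww_gt_one j
  have h1' := ww_le j'
  have h2' := ww_gt_one j'
  have hb := bd_le M s hs j
  have hg := bd_ge M s hs j
  have hb' := bd_le M' s' hs' j'
  have hg' := bd_ge M' s' hs' j'
  set X : ℝ := (3 : ℝ) ^ (M : ℝ) with hXd
  rcases lt_trichotomy M' M with hM | hM | hM
  · have h3 := pow3_lt hM
    have h4 := pow3_pos M'
    linarith
  · subst hM
    rcases hs with rfl | rfl
    · rw [bd_one] at h ⊢
      rcases hs' with rfl | rfl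
      · rw [bd_one] at h ⊢
        rw [← hXd] at h ⊢
        have h3 : ww j < ww j' := lt_of_mul_lt_mul_left h hX.le
        have h4 : j' < j := by
          by_contra hn
          push Not at hn
          exact absurd (ww_anti hn) (not_le.2 h3)
        obtain ⟨i, rfl⟩ : ∃ i, j = i + 1 := ⟨j - 1, by omega⟩
        have h5 : ww i ≤ ww j' := ww_anti (by omega)
        have h6 := ww_succ_sq i
        rw [abs_of_nonneg (by nlinarith)]
        have h7 : 0 ≤ X * (ww j' - ww i) := mul_nonneg hX.le (by linarith)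
        have h8 : 0 ≤ X * ((ww (i + 1) - 1) ^ 2) := by positivity
        have h9 : 0 ≤ X * (ww (i + 1) - 1) := mul_nonneg hX.le (by linarith)
        rw [← h6] at h7
        nlinarith
      · rw [bd_neg] at h ⊢
        rw [← hXd] at h ⊢
        exfalso
        have h3 : X / ww j' ≤ X := div_le_self hX.le h2'.le
        nlinarith
    · rw [bd_neg] at h ⊢
      have h3 : X / ww j ≤ X := div_le_self hX.le h2.le
      rcases hs' with rfl | rfl
      · rw [bd_one] at h ⊢
        rw [← hXd] at h ⊢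
        rw [abs_of_nonpos (by linarith)]
        nlinarith
      · rw [bd_neg] at h ⊢
        rw [← hXd] at h ⊢
        have h4 : ww j' < ww j := by
          by_contra hn
          push Not at hn
          exact absurd (div_le_div_of_nonneg_left hX.le (by linarith) hn) (not_le.2 h)
        have h5 : j < j' := by
          by_contra hn
          push Not at hn
          exact absurd (ww_anti hn) (not_le.2 h4)
        have h6 : ww j' ≤ ww (j + 1) := ww_anti (by omega)
        have h7 := ww_succ_sq j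
        have h8 := ww_gt_one (j + 1)
        have h9 := ww_le (j + 1)
        set v := ww (j + 1) with hv
        rw [abs_of_nonpos (by linarith)]
        have h10 : X / v ≤ X / ww j' := div_le_div_of_nonneg_left hX.le (by linarith) h6
        rw [← h7] at h3 ⊢
        have h11 : X / v ^ 2 * v = X / v := by
          field_simp
        have h12 : X / v ^ 2 * v ^ 2 = X := by
          field_simp
        have h13 : 0 < X / v ^ 2 := by positivity
        set Z := X / v ^ 2 with hZ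
        rw [← h11] at h10
        have h14 : 0 ≤ Z * ((v - 1) * (2 - v)) := by
          apply mul_nonneg h13.le
          apply mul_nonneg <;> linarith
        nlinarith
  · have h3 := pow3_lt hM
    rw [abs_le]
    constructor <;> nlinarith

/-! ### facts on one number -/

theorem pow_lg {y : ℕ} (hy : 1 ≤ y) : (3 : ℝ) ^ (lg y) = y := by
  unfold lg
  rw [Real.rpow_logb (by norm_num) (by norm_num)]
  have : 0 < y := hy
  exact_mod_cast this

theorem log3_lt : Real.log 3 < 2 := by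
  have h1 : Real.exp 2 > 3 := by
    have h := Real.add_one_lt_exp (show (2 : ℝ) ≠ 0 by norm_num)
    linarith
  rw [Real.log_lt_iff_lt_exp (by norm_num)]
  exact h1

theorem log3_pos : 0 < Real.log 3 := Real.log_pos (by norm_num)

/-- the distance to the power of 3 -/
theorem dist_le {y : ℕ} (hy : 1 ≤ y) : |(y : ℝ) - (3 : ℝ) ^ (Lam y : ℝ)| ≤ 4 * y * |th y| := by
  have h1 := pow_lg hy
  have h2 := lg_eq y
  have h3 : (3 : ℝ) ^ (Lam y : ℝ) = y * Real.exp (-(th y * Real.log 3)) := by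
    have h4 : (Lam y : ℝ) = lg y + -th y := by linarith
    rw [h4, Real.rpow_add (by norm_num), h1]
    congr 1
    rw [Real.rpow_def_of_pos (by norm_num)]
    congr 1
    ring
  have hy0 : (0 : ℝ) < y := by exact_mod_cast (show 0 < y by omega)
  have h5 : (y : ℝ) - (3 : ℝ) ^ (Lam y : ℝ) = -(y * (Real.exp (-(th y * Real.log 3)) - 1)) := by
    rw [h3]; ring
  rw [h5, abs_neg, abs_mul, abs_of_pos hy0]
  have h6 := th_abs y
  have h7 := log3_lt
  have h8 := log3_pos
  have h9 : |-(th y * Real.log 3)| ≤ 1 := by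
    rw [abs_neg, abs_mul, abs_of_pos h8]
    nlinarith [abs_nonneg (th y)]
  have h10 := Real.abs_exp_sub_one_le h9
  rw [abs_neg, abs_mul, abs_of_pos h8] at h10
  have h11 : |Real.exp (-(th y * Real.log 3)) - 1| ≤ 4 * |th y| := by
    nlinarith [abs_nonneg (th y)]
  nlinarith

theorem three_pow_dvd (y : ℕ) : 3 ^ b y ∣ y := by
  unfold b
  exact pow_padicValNat_dvd

theorem three_pow_le {y : ℕ} (hy : 1 ≤ y) : 3 ^ b y ≤ y :=
  Nat.le_of_dvd hy (three_pow_dvd y)

theorem b_le_Lam {y : ℕ} (hy : 1 ≤ y) : (b y : ℤ) ≤ Lam y := by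
  have h1 : ((3 : ℝ) ^ (b y : ℝ)) ≤ y := by
    rw [Real.rpow_natCast]
    exact_mod_cast three_pow_le hy
  have hy0 : (0 : ℝ) < y := by exact_mod_cast (show 0 < y by omega)
  have h2 : (b y : ℝ) ≤ lg y := by
    unfold lg
    rw [Real.le_logb_iff_rpow_le (by norm_num) hy0]
    exact h1
  have h3 := th_abs y
  have h4 := lg_eq y
  rw [abs_le] at h3
  have h5 : (b y : ℝ) - 1 < Lam y := by linarith
  have h6 : ((b y : ℤ) : ℝ) - 1 < Lam y := by exact_mod_cast h5
  have h7 : (b y : ℤ) - 1 < Lam y := by exact_mod_cast h6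
  omega

theorem dist_ge {y : ℕ} (hy : 1 ≤ y) (hne : y ≠ 3 ^ b y) :
    (3 : ℝ) ^ (b y) ≤ |(y : ℝ) - (3 : ℝ) ^ (Lam y : ℝ)| := by
  have h1 := b_le_Lam hy
  obtain ⟨k, hk⟩ : ∃ k : ℕ, Lam y = k := ⟨(Lam y).toNat, by omega⟩
  rw [hk]
  have h2 : b y ≤ k := by omega
  have h3 : (3 : ℝ) ^ (((k : ℕ) : ℤ) : ℝ) = ((3 ^ k : ℤ) : ℝ) := by
    push_cast
    rw [Real.rpow_natCast]
  rw [h3]
  have h4 : (3 : ℤ) ^ b y ∣ (y : ℤ) - 3 ^ k := by
    apply dvd_sub
    · exact_mod_cast three_pow_dvd y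
    · exact pow_dvd_pow 3 h2
  have h5 : (y : ℤ) - 3 ^ k ≠ 0 := by
    intro h
    have h6 : (y : ℤ) = 3 ^ k := by linarith
    have h7 : y = 3 ^ k := by exact_mod_cast h6
    apply hne
    have h8 : b y = k := by
      unfold b
      rw [h7]
      have : Fact (Nat.Prime 3) := ⟨Nat.prime_three⟩
      exact padicValNat.prime_pow k
    rw [h8]
    exact h7
  have h6 : (3 : ℤ) ^ b y ≤ |(y : ℤ) - 3 ^ k| := by
    apply Int.le_of_dvd (abs_pos.2 h5)
    exact (dvd_abs _ _).2 h4
  have h7 : (((3 : ℤ) ^ b y : ℤ) : ℝ) ≤ ((|(y : ℤ) - 3 ^ k| : ℤ) : ℝ) := by exact_mod_cast h6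
  push_cast at h7 ⊢
  exact h7

theorem th_ne {y : ℕ} (hy : 1 ≤ y) (hne : y ≠ 3 ^ b y) : th y ≠ 0 := by
  intro h
  have h1 := dist_ge hy hne
  have h2 := dist_le hy
  rw [h, abs_zero, mul_zero] at h2
  have h3 : (0 : ℝ) < (3 : ℝ) ^ (b y) := by positivity
  linarith

/-- the boundary below `y` -/
theorem T_spec (hblk : L_blk) {y : ℕ} (hy : 1 ≤ y) (h0 : th y ≠ 0) (ha : |th y| ≤ aa) :
    (∃ (s : ℝ) (j : ℕ), (s = 1 ∨ s = -1) ∧ T y = bd (Lam y) s j) ∧ T y ≤ y := by
  obtain ⟨h1, h2⟩ := (hblk (th y) (blk (th y)) h0).1 rfl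
  set t := blk (th y) with ht
  have haa := aa_pos
  have ht0 : 0 ≤ t := by
    by_contra hn
    push Not at hn
    have h3 : (2 : ℝ) ^ (t + 1) ≤ 1 := by
      have h4 : (2 : ℝ) ^ (t + 1) ≤ (2 : ℝ) ^ (0 : ℤ) := zpow_le_zpow_right₀ (by norm_num) (by omega)
      simpa using h4
    have h5 : aa ≤ aa / (2 : ℝ) ^ (t + 1) := by
      rw [le_div_iff₀ (by positivity)]
      nlinarith
    linarith
  have hlg := lg_eq y
  have hpw := pow_lg hy
  unfold T
  split_ifs with hpos
  · refine ⟨⟨1, _, Or.inl rfl, rfl⟩, ?_⟩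
    rw [← hpw]
    unfold bd
    apply Real.rpow_le_rpow_of_exponent_le (by norm_num)
    rw [hlg]
    have h3 : (2 : ℝ) ^ (t + 1).toNat = (2 : ℝ) ^ (t + 1) := by
      rw [← zpow_natCast, Int.toNat_of_nonneg (by omega)]
    rw [h3]
    rw [abs_of_pos hpos] at h1
    linarith
  · refine ⟨⟨-1, _, Or.inr rfl, rfl⟩, ?_⟩
    rw [← hpw]
    unfold bd
    apply Real.rpow_le_rpow_of_exponent_le (by norm_num)
    rw [hlg]
    have h3 : (2 : ℝ) ^ t.toNat = (2 : ℝ) ^ t := by
      rw [← zpow_natCast, Int.toNat_of_nonneg ht0]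
    rw [h3]
    rw [abs_of_nonpos (not_lt.1 hpos)] at h2
    linarith

/-- no crossing: the boundary below `x + y` is the boundary below `y`. -/
theorem T_eq (hblk : L_blk) {x y : ℕ} (hL : Lam (x + y) = Lam y) (h0 : th y ≠ 0)
    (h1 : th y < th (x + y)) (h2 : th (x + y) ≤ th y + |th y| / 10) (hu : |th y| < uu / 2)
    (hq : q (th (x + y)) = q (th y)) : T (x + y) = T y := by
  have hab : 0 < |th y| := abs_pos.2 h0
  have hsign : 0 < th (x + y) ↔ 0 < th y := by
    constructor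
    · intro h
      by_contra hn
      push Not at hn
      rw [abs_of_nonpos hn] at h2
      have : th y < 0 := lt_of_le_of_ne hn h0
      linarith
    · intro h
      linarith
  have h0' : th (x + y) ≠ 0 := by
    intro h
    rcases lt_or_gt_of_ne h0 with h3 | h3
    · rw [abs_of_neg h3] at h2
      linarith
    · linarith
  have hlow : 9 / 10 * |th y| ≤ |th (x + y)| := by
    rcases lt_or_gt_of_ne h0 with h3 | h3
    · rw [abs_of_neg h3] at h2 ⊢
      refine le_trans ?_ (neg_le_abs _)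
      linarith
    · rw [abs_of_pos h3] at h2 ⊢
      refine le_trans ?_ (le_abs_self _)
      linarith
  have hupp : |th (x + y)| ≤ 11 / 10 * |th y| := by
    rcases lt_or_gt_of_ne h0 with h3 | h3
    · rw [abs_of_neg h3] at h2 ⊢
      rw [abs_le]
      constructor <;> linarith
    · rw [abs_of_pos h3] at h2 ⊢
      rw [abs_le]
      constructor <;> linarith
  have haa := aa_pos
  obtain ⟨b1, b2⟩ := (hblk (th y) (blk (th y)) h0).1 rfl
  obtain ⟨c1, c2⟩ := (hblk (th (x + y)) (blk (th (x + y))) h0').1 rfl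
  have hpar : (Even (blk (th (x + y))) ↔ Even (blk (th y))) := by
    have e1 : ¬ uu ≤ |th (x + y)| := by
      have : 0 < uu := by linarith
      push Not
      linarith
    have e2 : ¬ uu ≤ |th y| := by
      push Not
      linarith
    have f1 : q (th (x + y)) = if (0 < th (x + y) ↔ Even (blk (th (x + y)))) then 1 else 2 := by
      unfold q
      rw [if_neg e1]
    have f2 : q (th y) = if (0 < th y ↔ Even (blk (th y))) then 1 else 2 := by
      unfold q
      rw [if_neg e2]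
    rw [f1, f2] at hq
    by_cases p1 : (0 < th (x + y) ↔ Even (blk (th (x + y))))
    · by_cases p2 : (0 < th y ↔ Even (blk (th y)))
      · rw [← p1, ← p2]; exact hsign
      · rw [if_pos p1, if_neg p2] at hq
        exact absurd hq (by decide)
    · by_cases p2 : (0 < th y ↔ Even (blk (th y)))
      · rw [if_neg p1, if_pos p2] at hq
        exact absurd hq (by decide)
      · have q1 : ¬ (0 < th y ↔ Even (blk (th (x + y)))) := by rwa [hsign] at p1
        tauto
  have hblkeq : blk (th (x + y)) = blk (th y) := by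
    set t := blk (th y) with ht
    set t' := blk (th (x + y)) with ht'
    have hle : t' ≤ t + 1 := by
      by_contra hn
      push Not at hn
      have h3 : (2 : ℝ) ^ (t + 1) * 2 ≤ (2 : ℝ) ^ t' := by
        rw [← zpow_add_one₀ (by norm_num)]
        exact zpow_le_zpow_right₀ (by norm_num) (by omega)
      have h4 : aa / (2 : ℝ) ^ t' ≤ aa / ((2 : ℝ) ^ (t + 1) * 2) :=
        div_le_div_of_nonneg_left haa.le (by positivity) h3
      have h5 : aa / ((2 : ℝ) ^ (t + 1) * 2) = aa / (2 : ℝ) ^ (t + 1) / 2 := by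
        rw [div_div]
      linarith
    have hge : t ≤ t' + 1 := by
      by_contra hn
      push Not at hn
      have h3 : (2 : ℝ) ^ (t' + 1) * 2 ≤ (2 : ℝ) ^ t := by
        rw [← zpow_add_one₀ (by norm_num)]
        exact zpow_le_zpow_right₀ (by norm_num) (by omega)
      have h4 : aa / (2 : ℝ) ^ t ≤ aa / ((2 : ℝ) ^ (t' + 1) * 2) :=
        div_le_div_of_nonneg_left haa.le (by positivity) h3
      have h5 : aa / ((2 : ℝ) ^ (t' + 1) * 2) = aa / (2 : ℝ) ^ (t' + 1) / 2 := by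
        rw [div_div]
      linarith
    rcases (by omega : t' = t + 1 ∨ t' = t ∨ t' = t - 1) with h | h | h
    · exfalso
      rw [h, Int.even_add_one] at hpar
      tauto
    · exact h
    · exfalso
      rw [h, Int.even_sub_one] at hpar
      tauto
  unfold T
  rw [hL, hblkeq]
  by_cases hp : 0 < th y
  · rw [if_pos (hsign.2 hp), if_pos hp]
  · rw [if_neg (fun h => hp (hsign.1 h)), if_neg hp]

/-! ### the logarithmic computation -/

theorem loglog : -(3 / 5) < Real.logb 2 (Real.log 2) ∧ Real.logb 2 (Real.log 2) < -(1 / 2) := by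
  have h1 := Real.log_two_gt_d9
  have h2 := Real.log_two_lt_d9
  have h0 : 0 < Real.log 2 := by linarith
  have e1 : Real.logb 2 (1 / 2) = -1 := by
    rw [one_div, Real.logb_inv, Real.logb_self_eq_one (by norm_num)]
  have e2 : Real.logb 2 ((1 / 2) ^ 3) = -3 := by
    rw [Real.logb_pow, e1]
    norm_num
  constructor
  · have h3 : (1 / 2 : ℝ) ^ 3 < Real.log 2 ^ 5 := by
      have h4 : (0.69 : ℝ) ^ 5 ≤ Real.log 2 ^ 5 := pow_le_pow_left₀ (by norm_num) (by linarith) 5
      have h5 : (1 / 2 : ℝ) ^ 3 < (0.69 : ℝ) ^ 5 := by norm_num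
      linarith
    have h4 := Real.logb_lt_logb (b := 2) (by norm_num) (by positivity) h3
    rw [e2, Real.logb_pow] at h4
    push_cast at h4
    linarith
  · have h3 : Real.log 2 ^ 2 < 1 / 2 := by nlinarith
    have h4 := Real.logb_lt_logb (b := 2) (by norm_num) (by positivity) h3
    rw [e1, Real.logb_pow] at h4
    push_cast at h4
    linarith

theorem log_ww (j : ℕ) : Real.log (ww j) = Real.log 2 / 2 ^ (j + 1) := by
  unfold ww
  rw [Real.log_rpow (by norm_num)]
  unfold aa Real.logb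
  have := log3_pos
  rw [pow_succ]
  field_simp

theorem final {R β X e : ℝ} {M0 M : ℤ} {s : ℝ} (hs : s = 1 ∨ s = -1) {j : ℕ} (hR : 0 ≤ R)
    (hβ : 0 ≤ β) (hX : 0 < X) (hsmall : R + β ≤ X / 200)
    (hP : 1000 * X ≤ (3 : ℝ) ^ (M0 : ℝ)) (h1 : |e - (3 : ℝ) ^ (M0 : ℝ)| ≤ R)
    (h2 : X + e < bd M s j) (h3 : bd M s j ≤ X + e + β) :
    ∃ err : ℝ, |err| ≤ 1 / 50 ∧
      (M : ℝ) * Real.logb 2 3 - Real.logb 2 X = (j + 1) - Real.logb 2 (Real.log 2) + err := by
  have hP0 := pow3_pos M0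
  have hb := bd_le M s hs j
  have hg := bd_ge M s hs j
  rw [abs_le] at h1
  have hM : M = M0 := by
    rcases lt_trichotomy M M0 with h | h | h
    · have h4 := pow3_lt h
      have h5 := pow3_pos M
      exfalso
      linarith
    · exact h
    · have h4 := pow3_lt h
      exfalso
      linarith
  subst hM
  set P : ℝ := (3 : ℝ) ^ (M : ℝ) with hPd
  have hs1 : s = 1 := by
    rcases hs with h | h
    · exact h
    · exfalso
      rw [h, bd_neg, ← hPd] at h2
      have h5 : P / ww j ≤ P := div_le_self hP0.le (ww_gt_one j).le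
      linarith
  subst hs1
  rw [bd_one, ← hPd] at h2 h3
  have hw := ww_gt_one j
  set w := ww j with hwd
  set D := P * (w - 1) with hD
  have hD1 : X * (1 - 1 / 200) ≤ D := by
    rw [hD]
    linarith
  have hD2 : D ≤ X * (1 + 1 / 200) := by
    rw [hD]
    linarith
  have hD0 : 0 < D := by linarith
  have hw1 : w - 1 ≤ 1 / 900 := by
    have h5 : P * (w - 1) ≤ P * (1 / 900) := by
      rw [← hD]
      linarith
    exact le_of_mul_le_mul_left h5 hP0
  set δ := Real.log w with hδ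
  have hδ0 : 0 < δ := Real.log_pos hw
  have hexp : Real.exp δ = w := Real.exp_log (by linarith)
  have hδ1 : δ ≤ w - 1 := by
    have := Real.add_one_le_exp δ
    linarith
  have hδ2 : w - 1 - δ ≤ δ ^ 2 := by
    have := Real.abs_exp_sub_one_sub_id_le (x := δ) (by rw [abs_of_pos hδ0]; linarith)
    rw [hexp, abs_le] at this
    exact this.2
  set η := (w - 1) / δ - 1 with hη
  have hη0 : 0 ≤ η := by
    rw [hη, sub_nonneg, le_div_iff₀ hδ0]
    linarith
  have hη1 : η ≤ 1 / 900 := by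
    have : (w - 1) / δ ≤ 1 + δ := by
      rw [div_le_iff₀ hδ0]
      nlinarith
    linarith
  have hw2 : w - 1 = δ * (1 + η) := by
    rw [hη]
    field_simp
    ring
  have hlogD : Real.log D = Real.log P + (Real.log δ + Real.log (1 + η)) := by
    rw [hD, Real.log_mul hP0.ne' (by linarith), hw2, Real.log_mul hδ0.ne' (by linarith)]
  have hlogP : Real.log P = M * Real.log 3 := by
    rw [hPd, Real.log_rpow (by norm_num)]
  have hlog2 : 0 < Real.log 2 := Real.log_pos (by norm_num)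
  have hlogδ : Real.log δ = Real.log (Real.log 2) - (j + 1) * Real.log 2 := by
    rw [hδ, hwd, log_ww, Real.log_div hlog2.ne' (by positivity), Real.log_pow]
    push_cast
    ring
  have hlogX : Real.log D = Real.log X + Real.log (D / X) := by
    rw [Real.log_div hD0.ne' hX.ne']
    ring
  have hr1 : 1 - 1 / 200 ≤ D / X := by
    rw [le_div_iff₀ hX]
    linarith
  have hr2 : D / X ≤ 1 + 1 / 200 := by
    rw [div_le_iff₀ hX]
    linarith
  have hl1 : Real.log (D / X) ≤ 1 / 200 := by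
    have := Real.log_le_sub_one_of_pos (show 0 < D / X by positivity)
    linarith
  have hl2 : -(1 / 199) ≤ Real.log (D / X) := by
    have h5 := Real.one_sub_inv_le_log_of_pos (show 0 < D / X by positivity)
    have h6 : (D / X)⁻¹ ≤ (1 - 1 / 200 : ℝ)⁻¹ := inv_anti₀ (by norm_num) hr1
    have h7 : (1 - 1 / 200 : ℝ)⁻¹ = 1 + 1 / 199 := by norm_num
    linarith
  have hl3 : 0 ≤ Real.log (1 + η) := Real.log_nonneg (by linarith)
  have hl4 : Real.log (1 + η) ≤ 1 / 900 := by
    have := Real.log_le_sub_one_of_pos (show 0 < 1 + η by linarith)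
    linarith
  refine ⟨(Real.log (D / X) - Real.log (1 + η)) / Real.log 2, ?_, ?_⟩
  · rw [abs_div, abs_of_pos hlog2, div_le_iff₀ hlog2, abs_le]
    have := Real.log_two_gt_d9
    constructor <;> linarith
  · unfold Real.logb
    have h5 : (M : ℝ) * Real.log 3 - Real.log X =
        (j + 1) * Real.log 2 - Real.log (Real.log 2) +
          (Real.log (D / X) - Real.log (1 + η)) := by
      rw [hlogX, hlogP, hlogδ] at hlogD
      linarith
    field_simp
    linarith

/-! ### the flags -/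

/-- what the flag says if there is no crossing -/
def FF (x y : ℕ) : Prop := ∃ (M : ℤ) (s : ℝ) (j : ℕ), (s = 1 ∨ s = -1) ∧
  (x : ℝ) + ((y : ℝ) - T y) < bd M s j ∧ bd M s j ≤ (x : ℝ) + ((y : ℝ) - T y) + b x ∧
  ∃ z : ℤ, |((Lam y - M : ℤ) : ℝ) * Real.logb 2 3 - z| < 1 / 4

theorem ev_pow3 (K : ℝ) (c : ℝ) : ∀ᶠ m : ℕ in atTop, K + c * m < (3 : ℝ) ^ m := by
  have h1 : Tendsto (fun m : ℕ => (m : ℝ) ^ 1 / (3 : ℝ) ^ m) atTop (𝓝 0) :=
    tendsto_pow_const_div_const_pow_of_one_lt 1 (by norm_num)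
  have h2 : Tendsto (fun m : ℕ => K / (3 : ℝ) ^ m) atTop (𝓝 0) :=
    tendsto_const_nhds.div_atTop (tendsto_pow_atTop_atTop_of_one_lt (by norm_num))
  have h3 : Tendsto (fun m : ℕ => K / (3 : ℝ) ^ m + c * ((m : ℝ) ^ 1 / (3 : ℝ) ^ m)) atTop
      (𝓝 (0 + c * 0)) := h2.add (h1.const_mul c)
  rw [mul_zero, add_zero] at h3
  filter_upwards [h3.eventually (gt_mem_nhds (show (0 : ℝ) < 1 by norm_num))] with m hm
  have h4 : 0 < (3 : ℝ) ^ m := by positivity
  have h5 : (K / (3 : ℝ) ^ m + c * ((m : ℝ) ^ 1 / (3 : ℝ) ^ m)) * (3 : ℝ) ^ m = K + c * m := by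
    field_simp
  rw [← h5]
  nlinarith

theorem ev_b {F : Ultrafilter ℕ} (hb : Binf F) (K c : ℝ) :
    ∀ᶠ y in (F : Filter ℕ), K + c * (b y : ℝ) < (3 : ℝ) ^ (b y) :=
  hb.eventually (ev_pow3 K c)

theorem ae_FF (hnum : L_num) (hblk : L_blk) (hadd : L_add) (hbs : L_bsum_i) {F : Ultrafilter ℕ}
    (hF : (F : Filter ℕ) ≤ atTop) (hb : Binf F) (hp : Pos F 0)
    (hnp : ∀ᶠ x in (F : Filter ℕ), x ≠ 3 ^ b x) (hcr : AE F (fun x y => ¬ Cross x y))
    (hfl : AE F (fun x y => flag (x + y))) : AE F FF := by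
  have hcr' : ∀ᶠ x in (F : Filter ℕ), ∀ᶠ y in (F : Filter ℕ), ¬ Cross x y := hcr
  have hfl' : ∀ᶠ x in (F : Filter ℕ), ∀ᶠ y in (F : Filter ℕ), flag (x + y) := hfl
  change ∀ᶠ x in (F : Filter ℕ), ∀ᶠ y in (F : Filter ℕ), FF x y
  filter_upwards [hcr', hfl', ev_pos hF] with x h1 h2 hx
  filter_upwards [h1, h2, ev_pos hF, hnp, ev_near hp (show (0 : ℝ) < 1 / 10 by norm_num),
    l_sum98 hadd F 0 hF hp (by norm_num) x hx, hbs F hF hb x hx,
    ev_b hb (40 * x) 0] with y g1 g2 hy g3 g4 g5 g6 g7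
  obtain ⟨g8, g9, g10⟩ := g5
  rw [sub_zero] at g4
  have hth := th_ne hy g3
  have hy0 : (0 : ℝ) < y := by exact_mod_cast (show 0 < y by omega)
  have k1 := dist_ge hy g3
  have k2 := dist_le hy
  have k3 : (x : ℝ) / y ≤ |th y| / 10 := by
    rw [div_le_div_iff₀ hy0 (by norm_num)]
    linarith
  have hT : T (x + y) = T y := by
    apply T_eq hblk g8 hth g9 (by linarith)
    · have := hnum.2.2.1
      linarith
    · by_contra hn
      exact g1 hn
  obtain ⟨-, M, s, j, hs, f1, f2, z, hz⟩ := g2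
  rw [hT] at f1 f2
  rw [g6] at f2
  rw [g8] at hz
  refine ⟨M, s, j, hs, ?_, ?_, z, hz⟩
  · push_cast at f1
    linarith
  · push_cast at f2
    linarith

end H98

open H98 LB98 in
theorem p_H98 (hnum : L_num) (hblk : L_blk) (hadd : L_add) (hbs : L_bsum_i) : P_H := by
  intro F hF hb hp hnp hcr hfl
  have hFF : ∀ᶠ x in (F : Filter ℕ), ∀ᶠ y in (F : Filter ℕ), FF x y :=
    ae_FF hnum hblk hadd hbs hF hb hp hnp hcr hfl
  -- facts on one number
  have hone : ∀ᶠ x in (F : Filter ℕ), 1 ≤ x ∧ x ≠ 3 ^ b x ∧ |th x| < 1 / 1000 := by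
    filter_upwards [ev_pos hF, hnp, ev_near hp (show (0 : ℝ) < 1 / 1000 by norm_num)] with x h1 h2 h3
    rw [sub_zero] at h3
    exact ⟨h1, h2, h3⟩
  have hT : ∀ x : ℕ, 1 ≤ x ∧ x ≠ 3 ^ b x ∧ |th x| < 1 / 1000 →
      (∃ (s : ℝ) (j : ℕ), (s = 1 ∨ s = -1) ∧ T x = bd (Lam x) s j) ∧ T x ≤ x := by
    rintro x ⟨h1, h2, h3⟩
    apply T_spec hblk h1 (th_ne h1 h2)
    have := hnum.1
    linarith
  by_cases hE : ∃ E : ℝ, ∀ᶠ y : ℕ in (F : Filter ℕ), (y : ℝ) - T y ≤ E
  · -- bounded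
    obtain ⟨E, hE⟩ := hE
    have hcomb := ((hFF.and hone).and (hE.and (ev_b hb (7 * E) 3))).exists
    obtain ⟨x, ⟨h1, h2⟩, h3, h4⟩ := hcomb
    obtain ⟨y, ⟨h5, h6⟩, h7⟩ := ((h1.and hone).and hE).exists
    obtain ⟨⟨s0, j0, hs0, hT0⟩, hTx⟩ := hT x h2
    obtain ⟨-, hTy⟩ := hT y h6
    obtain ⟨M, s, j, hs, f1, f2, -⟩ := h5
    have hlt : bd (Lam x) s0 j0 < bd M s j := by
      rw [← hT0]
      linarith
    have hw := width hs0 hs hlt
    rw [← hT0] at hw
    have hd := dist_ge h2.1 h2.2.1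
    have htri : |(x : ℝ) - (3 : ℝ) ^ (Lam x : ℝ)| ≤ (x - T x) + |T x - (3 : ℝ) ^ (Lam x : ℝ)| := by
      have h8 := abs_sub_le (x : ℝ) (T x) ((3 : ℝ) ^ (Lam x : ℝ))
      rw [abs_of_nonneg (by linarith : (0 : ℝ) ≤ (x : ℝ) - T x)] at h8
      exact h8
    linarith
  · -- unbounded
    push Not at hE
    have hE' : ∀ E : ℝ, ∀ᶠ y : ℕ in (F : Filter ℕ), E < (y : ℝ) - T y := fun E => hE E
    -- two outer variables
    obtain ⟨x0, hx0⟩ := hFF.exists
    have hgt : ∀ᶠ x : ℕ in (F : Filter ℕ), x0 + b x0 < x := hF (Filter.eventually_gt_atTop _)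
    obtain ⟨x1, hx1, hx01⟩ := (hFF.and hgt).exists
    set R : ℝ := x0 + b x0 + 3 * (x1 + b x1) with hR
    have hR0 : 0 ≤ R := by positivity
    have hM0 : ∀ᶠ y : ℕ in (F : Filter ℕ), ∃ M0 : ℤ, |((y : ℝ) - T y) - (3 : ℝ) ^ (M0 : ℝ)| ≤ R := by
      filter_upwards [hx0, hx1] with y h1 h2
      obtain ⟨M, s, j, hs, f1, f2, -⟩ := h1
      obtain ⟨M', s', j', hs', f1', f2', -⟩ := h2
      have hx01' : (x0 : ℝ) + b x0 < x1 := by exact_mod_cast hx01
      have hlt : bd M s j < bd M' s' j' := by linarith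
      have hw := width hs hs' hlt
      refine ⟨M, ?_⟩
      have hb0 : (0 : ℝ) ≤ b x0 := by positivity
      have hb1 : (0 : ℝ) ≤ b x1 := by positivity
      have hx00 : (0 : ℝ) ≤ x0 := by positivity
      rw [abs_le] at hw ⊢
      constructor <;> linarith [hw.1, hw.2]
    -- the limit of the angles
    set A : ℕ → ℝ := fun y => Int.fract ((Lam y : ℝ) * Real.logb 2 3) with hA
    obtain ⟨lam, -, hlam⟩ : ∃ lam ∈ Set.Icc (0 : ℝ) 1, Tendsto A (F : Filter ℕ) (𝓝 lam) := by
      have hc : IsCompact (Set.Icc (0 : ℝ) 1) := isCompact_Icc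
      have hm : (F.map A : Filter ℝ) ≤ 𝓟 (Set.Icc (0 : ℝ) 1) := by
        rw [Filter.le_principal_iff, Ultrafilter.coe_map, Filter.mem_map]
        refine Filter.univ_mem' fun n => ?_
        exact ⟨Int.fract_nonneg _, (Int.fract_lt_one _).le⟩
      obtain ⟨lam, h1, h2⟩ := hc.ultrafilter_le_nhds (F.map A) hm
      exact ⟨lam, h1, h2⟩
    have hang : ∀ᶠ y in (F : Filter ℕ), |A y - lam| < 1 / 100 := by
      have h1 := (Metric.tendsto_nhds.1 hlam) (1 / 100) (by norm_num)
      exact h1.mono fun y hy => by rwa [Real.dist_eq] at hy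
    -- choose x
    have hge : ∀ᶠ x : ℕ in (F : Filter ℕ), ⌈400 * R⌉₊ + 1 ≤ x :=
      hF (Filter.eventually_ge_atTop _)
    obtain ⟨x, ⟨h1, h2⟩, h3, h4, h5⟩ := ((hFF.and hone).and (hang.and
      (hge.and (ev_b hb 0 400)))).exists
    obtain ⟨y, ⟨⟨h6, h7⟩, h8⟩, h9⟩ := (((h1.and hang).and hM0).and (hE' (1000 * x + R))).exists
    obtain ⟨M0, hM0⟩ := h8
    obtain ⟨M, s, j, hs, f1, f2, z, hz⟩ := h6
    have hx1 : (1 : ℝ) ≤ x := by exact_mod_cast h2.1
    have hxR : 400 * R ≤ x := by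
      have g1 : 400 * R ≤ (⌈400 * R⌉₊ : ℝ) := Nat.le_ceil _
      have g2 : ((⌈400 * R⌉₊ + 1 : ℕ) : ℝ) ≤ x := by exact_mod_cast h4
      push_cast at g2
      linarith
    have hxb : 400 * (b x : ℝ) ≤ x := by
      have g1 : ((3 : ℝ) ^ b x) ≤ x := by exact_mod_cast three_pow_le h2.1
      linarith
    have hP : 1000 * (x : ℝ) ≤ (3 : ℝ) ^ (M0 : ℝ) := by
      rw [abs_le] at hM0
      linarith
    obtain ⟨err, herr, hfin⟩ := final (X := x) (β := b x) (R := R) hs hR0 (by positivity)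
      (by linarith) (by linarith) hP hM0 f1 f2
    -- the position of x
    have hlgx : Real.logb 2 x = (Lam x + th x) * Real.logb 2 3 := by
      rw [← lg_eq x]
      unfold lg Real.logb
      have g1 : Real.log 3 ≠ 0 := log3_pos.ne'
      field_simp
    have hl23 : 0 < Real.logb 2 3 ∧ Real.logb 2 3 < 2 := by
      constructor
      · exact Real.logb_pos (by norm_num) (by norm_num)
      · rw [Real.logb_lt_iff_lt_rpow (by norm_num) (by norm_num)]
        norm_num
    have hsm : |th x * Real.logb 2 3| ≤ 1 / 500 := by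
      rw [abs_mul, abs_of_pos hl23.1]
      nlinarith [abs_nonneg (th x), h2.2.2]
    -- the angles
    have hAx : (Lam x : ℝ) * Real.logb 2 3 = ⌊(Lam x : ℝ) * Real.logb 2 3⌋ + A x :=
      (Int.floor_add_fract _).symm
    have hAy : (Lam y : ℝ) * Real.logb 2 3 = ⌊(Lam y : ℝ) * Real.logb 2 3⌋ + A y :=
      (Int.floor_add_fract _).symm
    set nx : ℤ := ⌊(Lam x : ℝ) * Real.logb 2 3⌋ with hnx
    set ny : ℤ := ⌊(Lam y : ℝ) * Real.logb 2 3⌋ with hny
    have hll := loglog
    push_cast at hz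
    rw [abs_lt] at hz h7 h3
    rw [abs_le] at herr hsm
    -- the integer K
    have hK : ∃ K : ℤ, (K : ℝ) = -(z : ℝ) + ny - nx - (j + 1) := by
      refine ⟨-z + ny - nx - (j + 1), ?_⟩
      push_cast
      ring
    obtain ⟨K, hK⟩ := hK
    have hKe : (K : ℝ) + Real.logb 2 (Real.log 2) =
        err + th x * Real.logb 2 3 + (A x - A y) +
          (((Lam y : ℝ) - M) * Real.logb 2 3 - z) := by
      rw [hK]
      rw [hlgx] at hfin
      have e1 : ((Lam x : ℝ) + th x) * Real.logb 2 3 =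
        Lam x * Real.logb 2 3 + th x * Real.logb 2 3 := by ring
      rw [e1] at hfin
      have e2 : ((Lam y : ℝ) - M) * Real.logb 2 3 = Lam y * Real.logb 2 3 - M * Real.logb 2 3 := by
        ring
      rw [e2]
      linarith
    have hK1 : (0 : ℝ) < K := by linarith [hz.1, h7.1, h7.2, h3.1, h3.2]
    have hK2 : (K : ℝ) < 1 := by linarith [hz.2, h7.1, h7.2, h3.1, h3.2]
    have hK3 : (0 : ℤ) < K := by exact_mod_cast hK1
    have hK4 : K < (1 : ℤ) := by exact_mod_cast hK2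
    omega

end Pool.Agent.Lib.MP_60922f_co.T43
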