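import Pool.Agent.Lib.MP_60922f_co.T43Stmts

/-! THREE COLOURS, module LA (helper43). -/

set_option autoImplicit false

namespace Pool.Agent.Lib.MP_60922f_co.T43

open Filter Topology

noncomputable section

theorem irr_nat43 (x e p r : ℕ) (hx : 1 ≤ x) (he : Even e) (h : x ^ e * 3 ^ r = 3 ^ p * 2) :
    False := by
  have h2 : padicValNat 2 (x ^ e * 3 ^ r) = padicValNat 2 (3 ^ p * 2) := by rw [h]
  have : Fact (Nat.Prime 2) := ⟨Nat.prime_two⟩
  have h3 : padicValNat 2 3 = 0 := padicValNat.eq_zero_of_not_dvd (by norm_num)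
  rw [padicValNat.mul (by positivity) (by positivity), padicValNat.mul (by positivity) (by norm_num),
    padicValNat.pow, padicValNat.pow, padicValNat.pow,
    padicValNat.self (by norm_num), h3] at h2
  obtain ⟨k, rfl⟩ := he
  have : (k + k) * padicValNat 2 x = 2 * (k * padicValNat 2 x) := by ring
  omega

theorem irr_nat43' (x e p r : ℕ) (hx : 1 ≤ x) (h : x ^ e * 3 ^ r * 2 = 3 ^ p) :
    False := by
  have h2 : padicValNat 2 (x ^ e * 3 ^ r * 2) = padicValNat 2 (3 ^ p) := by rw [h]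
  have : Fact (Nat.Prime 2) := ⟨Nat.prime_two⟩
  have h3 : padicValNat 2 3 = 0 := padicValNat.eq_zero_of_not_dvd (by norm_num)
  rw [padicValNat.mul (by positivity) (by norm_num), padicValNat.pow 3 p,
    padicValNat.self (by norm_num), h3] at h2
  omega

theorem irr_aux43 (x : ℕ) (hx : 1 ≤ x) (e : ℕ) (he : Even e) (N : ℤ) (s : ℝ)
    (hs : s = 1 ∨ s = -1) : (e : ℝ) * lg x ≠ N + s * Real.logb 3 2 := by
  intro h
  have hx0 : (0 : ℝ) < x := by exact_mod_cast hx
  have h1 : (3 : ℝ) ^ ((e : ℝ) * lg x) = (x : ℝ) ^ e := by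
    rw [mul_comm, Real.rpow_mul (by norm_num), lg, Real.rpow_logb (by norm_num) (by norm_num) hx0,
      Real.rpow_natCast]
  have h2 : (3 : ℝ) ^ (Real.logb 3 2) = 2 := Real.rpow_logb (by norm_num) (by norm_num) (by norm_num)
  obtain ⟨p, r, rfl⟩ : ∃ p r : ℕ, N = (p : ℤ) - r := ⟨N.toNat, (-N).toNat, by omega⟩
  have h3 : (3 : ℝ) ^ ((((p : ℤ) - r : ℤ) : ℝ)) = 3 ^ p / 3 ^ r := by
    rw [Real.rpow_intCast, zpow_sub₀ (by norm_num)]
    simp
  have h4 := congrArg (fun z => (3 : ℝ) ^ z) h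
  simp only [h1] at h4
  rw [Real.rpow_add (by norm_num), h3] at h4
  rcases hs with rfl | rfl
  · rw [one_mul, h2] at h4
    have h5 : (x : ℝ) ^ e * 3 ^ r = 3 ^ p * 2 := by
      rw [h4]; field_simp
    exact irr_nat43 x e p r hx he (by exact_mod_cast h5)
  · rw [neg_one_mul, Real.rpow_neg (by norm_num), h2] at h4
    have h5 : (x : ℝ) ^ e * 3 ^ r * 2 = 3 ^ p := by
      rw [h4]; field_simp
    exact irr_nat43' x e p r hx (by exact_mod_cast h5)

theorem l_irr : L_irr := by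
  intro x hx M s j hs
  constructor
  · intro h
    refine irr_aux43 x hx (2 ^ (j + 1)) ⟨2 ^ j, by ring⟩ (M * 2 ^ (j + 1)) s hs ?_
    rw [h]
    unfold aa
    push_cast
    have : (2 : ℝ) ^ j ≠ 0 := by positivity
    field_simp
    ring
  · intro h
    refine irr_aux43 x hx (2 ^ (j + 2)) ⟨2 ^ (j + 1), by ring⟩ (M * 2 ^ (j + 1)) s hs ?_
    have h' : lg x = (M + s * (aa / 2 ^ j)) / 2 := by linarith
    rw [h']
    unfold aa
    push_cast
    have : (2 : ℝ) ^ j ≠ 0 := by positivity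
    field_simp
    ring

theorem logb32_lower : (94 / 149 : ℝ) < Real.logb 3 2 := by
  rw [Real.lt_logb_iff_rpow_lt (by norm_num) (by norm_num)]
  have h1 : ((3 : ℝ) ^ (94 / 149 : ℝ)) ^ (149 : ℕ) = 3 ^ 94 := by
    rw [← Real.rpow_natCast, ← Real.rpow_mul (by norm_num)]
    norm_num
  have h2 : ((3 : ℝ) ^ (94 / 149 : ℝ)) ^ (149 : ℕ) < 2 ^ 149 := by
    rw [h1]; norm_num
  exact lt_of_pow_lt_pow_left₀ 149 (by norm_num) h2

theorem logb32_upper : Real.logb 3 2 < (53 / 84 : ℝ) := by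
  rw [Real.logb_lt_iff_lt_rpow (by norm_num) (by norm_num)]
  have h1 : ((3 : ℝ) ^ (53 / 84 : ℝ)) ^ (84 : ℕ) = 3 ^ 53 := by
    rw [← Real.rpow_natCast, ← Real.rpow_mul (by norm_num)]
    norm_num
  have h2 : (2 : ℝ) ^ 84 < ((3 : ℝ) ^ (53 / 84 : ℝ)) ^ (84 : ℕ) := by
    rw [h1]; norm_num
  exact lt_of_pow_lt_pow_left₀ 84 (by positivity) h2

theorem uu_lower43 : (47 / 139 : ℝ) < uu := by
  unfold uu
  rw [Real.lt_logb_iff_rpow_lt (by norm_num) (by norm_num)]
  have h1 : ((3 : ℝ) ^ (47 / 139 : ℝ)) ^ (139 : ℕ) = 3 ^ 47 := by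
    rw [← Real.rpow_natCast, ← Real.rpow_mul (by norm_num)]
    norm_num
  have h2 : ((3 : ℝ) ^ (47 / 139 : ℝ)) ^ (139 : ℕ) < (29 / 20) ^ 139 := by
    rw [h1]; norm_num
  exact lt_of_pow_lt_pow_left₀ 139 (by norm_num) h2

theorem uu_upper43 : uu < (23 / 68 : ℝ) := by
  unfold uu
  rw [Real.logb_lt_iff_lt_rpow (by norm_num) (by norm_num)]
  have h1 : ((3 : ℝ) ^ (23 / 68 : ℝ)) ^ (68 : ℕ) = 3 ^ 23 := by
    rw [← Real.rpow_natCast, ← Real.rpow_mul (by norm_num)]
    norm_num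
  have h2 : (29 / 20 : ℝ) ^ 68 < ((3 : ℝ) ^ (23 / 68 : ℝ)) ^ (68 : ℕ) := by
    rw [h1]; norm_num
  exact lt_of_pow_lt_pow_left₀ 68 (by positivity) h2

theorem l_num : L_num := by
  have h1 := logb32_lower
  have h2 := logb32_upper
  have h3 := uu_lower43
  have h4 := uu_upper43
  have h5 : aa = Real.logb 3 2 / 2 := rfl
  refine ⟨?_, ?_, ?_, ?_⟩
  · rw [h5]; norm_num at h1 ⊢; linarith
  · rw [h5]; norm_num at h2 ⊢; linarith
  · norm_num at h3 ⊢; linarith
  · norm_num at h4 ⊢; linarith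

theorem aa_pos : 0 < aa := by
  have := l_num.1
  linarith

theorem l_blk : L_blk := by
  intro θ t hθ
  have hpos : 0 < |θ| := abs_pos.2 hθ
  have ha := aa_pos
  have hq : 0 < aa / |θ| := by positivity
  unfold blk
  rw [Int.floor_eq_iff]
  have e1 : ((t : ℤ) : ℝ) ≤ Real.logb 2 (aa / |θ|) ↔ |θ| ≤ aa / (2 : ℝ) ^ t := by
    rw [Real.le_logb_iff_rpow_le (by norm_num) hq, Real.rpow_intCast,
      le_div_iff₀ hpos, le_div_iff₀ (by positivity), mul_comm]
  have e2 : Real.logb 2 (aa / |θ|) < ((t : ℤ) : ℝ) + 1 ↔ aa / (2 : ℝ) ^ (t + 1) < |θ| := by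
    have : ((t : ℤ) : ℝ) + 1 = ((t + 1 : ℤ) : ℝ) := by push_cast; ring
    rw [this, Real.logb_lt_iff_lt_rpow (by norm_num) hq, Real.rpow_intCast,
      div_lt_iff₀ hpos, div_lt_iff₀ (by positivity), mul_comm]
  rw [e1, e2]
  tauto

theorem l_add : L_add := by
  intro x y hx hy
  have hx' : (1 : ℝ) ≤ x := by exact_mod_cast hx
  have hy' : (1 : ℝ) ≤ y := by exact_mod_cast hy
  have hy0 : (0 : ℝ) < y := by linarith
  constructor
  · unfold lg
    apply Real.logb_lt_logb (by norm_num) hy0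
    push_cast
    linarith
  · unfold lg
    have h1 : (((x + y : ℕ)) : ℝ) = y * (1 + x / y) := by
      push_cast
      field_simp
      ring
    have h2 : (0 : ℝ) < 1 + x / y := by positivity
    rw [h1, Real.logb_mul (by positivity) (by positivity)]
    have h3 : Real.logb 3 (1 + x / y) ≤ x / y := by
      unfold Real.logb
      have h4 : Real.log (1 + x / y) ≤ x / y := by
        have := Real.log_le_sub_one_of_pos h2
        linarith
      have h5 : (1 : ℝ) ≤ Real.log 3 := by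
        rw [Real.le_log_iff_exp_le (by norm_num)]
        have := Real.exp_one_lt_d9
        linarith
      have h6 : (0 : ℝ) ≤ x / y := by positivity
      rw [div_le_iff₀ (by linarith)]
      nlinarith
    linarith

end

end Pool.Agent.Lib.MP_60922f_co.T43
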