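import Pool.Agent.Lib.MP_60922f_co.T43Stmts

/-!
THREE COLOURS, module LC (helper72): valuations of sums, states of sums and products.
-/

set_option autoImplicit false

namespace Pool.Agent.Lib.MP_60922f_co.T43

open Filter Topology

noncomputable section

/-- a function into a finite type is constant almost everywhere. -/
theorem const72 {ι : Type} [Finite ι] (F : Ultrafilter ℕ) (f : ℕ → ι) :
    ∃ c : ι, ∀ᶠ x in (F : Filter ℕ), f x = c := by
  obtain ⟨c, hc⟩ := (F.map f).eq_pure_of_finite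
  refine ⟨c, ?_⟩
  have h : ({c} : Set ι) ∈ F.map f := by
    rw [hc]; exact Ultrafilter.mem_pure.2 rfl
  exact h

theorem b_dec72 {x v : ℕ} (hv : 1 ≤ v) (h : b x = v) :
    x ≠ 0 ∧ x = 3 ^ v * (x / 3 ^ v) ∧ ¬ 3 ∣ x / 3 ^ v := by
  have hx : x ≠ 0 := by
    rintro rfl
    simp [b] at h
    omega
  have h1 : 3 ^ v ∣ x := by
    rw [← h]; exact pow_padicValNat_dvd
  have h2 : x = 3 ^ v * (x / 3 ^ v) := (Nat.mul_div_cancel' h1).symm
  refine ⟨hx, h2, ?_⟩
  intro h3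
  have h4 : 3 ^ (v + 1) ∣ x := by
    rw [pow_succ]
    have := Nat.mul_dvd_mul_left (3 ^ v) h3
    rwa [← h2] at this
  have h5 : ¬ 3 ^ (b x + 1) ∣ x := pow_succ_padicValNat_not_dvd hx
  rw [h] at h5
  exact h5 h4

theorem b_mul72 {x y : ℕ} (hx : x ≠ 0) (hy : y ≠ 0) : b (x * y) = b x + b y := by
  unfold b
  exact padicValNat.mul hx hy

theorem b_of72 {v m : ℕ} (hm : ¬ 3 ∣ m) : b (3 ^ v * m) = v := by
  have hm0 : m ≠ 0 := by
    rintro rfl; exact hm (dvd_zero 3)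
  rw [b_mul72 (by positivity) hm0]
  unfold b
  rw [padicValNat.prime_pow, padicValNat.eq_zero_of_not_dvd hm]
  rfl

theorem l_bsum_c72 : L_bsum_c := by
  intro F v _ hB
  obtain ⟨hv, hb⟩ := hB
  obtain ⟨c, hc⟩ := const72 F (fun x => ((x / 3 ^ v : ℕ) : ZMod 3))
  have hcx : ∀ᶠ x in (F : Filter ℕ), b x = v ∧ ((x / 3 ^ v : ℕ) : ZMod 3) = c := hb.and hc
  refine hcx.mono fun x hx => hcx.mono fun y hy => ?_
  obtain ⟨hx0, hx1, hx2⟩ := b_dec72 hv hx.1
  obtain ⟨hy0, hy1, hy2⟩ := b_dec72 hv hy.1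
  have hsum : x + y = 3 ^ v * (x / 3 ^ v + y / 3 ^ v) := by
    rw [mul_add, ← hx1, ← hy1]
  rw [hsum]
  apply b_of72
  intro h3
  have h4 : ((x / 3 ^ v + y / 3 ^ v : ℕ) : ZMod 3) = 0 := (ZMod.natCast_eq_zero_iff _ 3).2 h3
  rw [Nat.cast_add, hx.2, hy.2] at h4
  apply hx2
  rw [← ZMod.natCast_eq_zero_iff, hx.2]
  have h5 : ∀ c : ZMod 3, c + c = 0 → c = 0 := by decide
  exact h5 c h4

theorem l_bsum_i72 : L_bsum_i := by
  intro F _ hB x hx
  have h1 : ∀ᶠ y in (F : Filter ℕ), b x + 1 ≤ b y := hB.eventually (eventually_ge_atTop (b x + 1))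
  refine h1.mono fun y hy => ?_
  have hx0 : x ≠ 0 := by omega
  have hv : 3 ^ (b x) ∣ x := pow_padicValNat_dvd
  have hxe : x = 3 ^ (b x) * (x / 3 ^ (b x)) := (Nat.mul_div_cancel' hv).symm
  have hx3 : ¬ 3 ∣ x / 3 ^ (b x) := by
    intro h3
    have h4 : 3 ^ (b x + 1) ∣ x := by
      rw [pow_succ]
      have := Nat.mul_dvd_mul_left (3 ^ (b x)) h3
      rwa [← hxe] at this
    exact pow_succ_padicValNat_not_dvd hx0 h4
  have hyv : 3 ^ (b x + 1) ∣ y := (pow_dvd_pow 3 hy).trans pow_padicValNat_dvd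
  obtain ⟨k, hk⟩ := hyv
  have hsum : x + y = 3 ^ (b x) * (x / 3 ^ (b x) + 3 * k) := by
    rw [mul_add, ← hxe, hk, pow_succ]; ring
  have h5 : b (3 ^ (b x) * (x / 3 ^ (b x) + 3 * k)) = b x := by
    apply b_of72
    intro h3
    apply hx3
    exact (Nat.dvd_add_left (Dvd.intro k rfl)).1 h3
  rw [hsum]
  exact h5

/-- doubling both arguments raises the 2-adic valuation of the gcd by one. -/
theorem val_double72 {r w : ℤ} (hw : w ≠ 0) :
    padicValNat 2 (Int.gcd (2 * r) (2 * w)) = padicValNat 2 (Int.gcd r w) + 1 := by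
  rw [Int.gcd_mul_left]
  have h0 : Int.gcd r w ≠ 0 := by
    intro h
    exact hw (Int.gcd_eq_zero_iff.1 h).2
  have h2 : (2 : ℤ).natAbs = 2 := rfl
  rw [h2, padicValNat.mul (by norm_num) h0, padicValNat.self (by norm_num)]
  omega

theorem gcd_congr72 {r s w : ℤ} (h : r ≡ s [ZMOD w]) : Int.gcd r w = Int.gcd s w := by
  have aux : ∀ r s : ℤ, r ≡ s [ZMOD w] → Int.gcd r w ∣ Int.gcd s w := by
    intro r s h
    obtain ⟨k, hk⟩ := h.dvd
    have hs : s = r + w * k := by linarith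
    have h1 : ((Int.gcd r w : ℕ) : ℤ) ∣ r := Int.gcd_dvd_left ..
    have h2 : ((Int.gcd r w : ℕ) : ℤ) ∣ w := Int.gcd_dvd_right ..
    have h3 : ((Int.gcd r w : ℕ) : ℤ) ∣ s := by
      rw [hs]; exact dvd_add h1 (Dvd.dvd.mul_right h2 k)
    exact Int.natCast_dvd_natCast.1 (Int.dvd_coe_gcd h3 h2)
  exact Nat.dvd_antisymm (aux r s h) (aux s r h.symm)

theorem l_ev_c72 (hs : L_sum) (hp : L_prod) : L_ev_c := by
  intro F Θ v hF hpos hΘ hB
  have hv : 1 ≤ v := hB.1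
  have : NeZero (4 * v) := ⟨by omega⟩
  obtain ⟨c, hc⟩ := const72 F (fun x => ((Lam x : ℤ) : ZMod (4 * v)))
  have hpos1 : ∀ᶠ x in (F : Filter ℕ), 1 ≤ x := hF (eventually_ge_atTop 1)
  have hb := hB.2
  -- the good set
  have hcx : ∀ᶠ x in (F : Filter ℕ), (b x = v ∧ ((Lam x : ℤ) : ZMod (4 * v)) = c) ∧ 1 ≤ x :=
    (hb.and hc).and hpos1
  obtain ⟨x0, hx0⟩ := hcx.exists
  have hsumb : AE F (fun x y => b (x + y) = v) := l_bsum_c72 F v hF hB
  have hprod : AE F (fun x y => Lam (x * y) = Lam x + Lam y ∧ th (x * y) = th x + th y) :=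
    hp F Θ hF hpos hΘ
  have hsumL : AE F (fun x y => Lam (x + y) = Lam y) := by
    refine hpos1.mono fun x hx => ?_
    exact (hs F Θ hF hpos (by linarith) x hx).mono fun y hy => hy.1
  have hX : AE F (fun x _ => (b x = v ∧ ((Lam x : ℤ) : ZMod (4 * v)) = c) ∧ 1 ≤ x) :=
    hcx.mono fun x hx => Eventually.of_forall fun _ => hx
  have hY : AE F (fun _ y => (b y = v ∧ ((Lam y : ℤ) : ZMod (4 * v)) = c) ∧ 1 ≤ y) :=
    Eventually.of_forall fun _ => hcx
  have hall := (((hX.and hY).and hsumb).and hsumL).and hprod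
  -- the value of the state
  have key : AE F (fun x y => (ev (x + y) ↔ Even (padicValNat 2 (Int.gcd (Lam x0) (2 * v)))) ∧
      (ev (x * y) ↔ ¬ Even (padicValNat 2 (Int.gcd (Lam x0) (2 * v))))) := by
    refine AE.mono hall fun x y h => ?_
    obtain ⟨⟨⟨⟨hx, hy⟩, hbs⟩, hL⟩, hP, _⟩ := h
    have hcast : ∀ z : ℕ, ((Lam z : ℤ) : ZMod (4 * v)) = c →
        Lam z ≡ Lam x0 [ZMOD ((4 * v : ℕ) : ℤ)] := by
      intro z hz
      rw [← ZMod.intCast_eq_intCast_iff, hz, hx0.1.2]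
    have hyx : Lam y ≡ Lam x0 [ZMOD ((4 * v : ℕ) : ℤ)] := hcast y hy.1.2
    have hxx : Lam x ≡ Lam x0 [ZMOD ((4 * v : ℕ) : ℤ)] := hcast x hx.1.2
    constructor
    · unfold ev
      rw [hbs, hL]
      have h1 : Lam y ≡ Lam x0 [ZMOD (2 * (v : ℤ))] := by
        refine Int.ModEq.of_dvd ?_ hyx
        push_cast
        exact ⟨2, by ring⟩
      rw [gcd_congr72 h1]
    · unfold ev
      rw [hP, b_mul72 (by omega) (by omega), hx.1.1, hy.1.1]
      have h1 : Lam x + Lam y ≡ 2 * Lam x0 [ZMOD (2 * (2 * (v : ℤ)))] := by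
        have h2 := hxx.add hyx
        have h3 : Lam x0 + Lam x0 = 2 * Lam x0 := by ring
        rw [h3] at h2
        refine Int.ModEq.of_dvd ?_ h2
        push_cast
        exact ⟨1, by ring⟩
      have h4 : (2 * ((v + v : ℕ) : ℤ)) = 2 * (2 * (v : ℤ)) := by push_cast; ring
      rw [h4, gcd_congr72 h1, val_double72 (by positivity), Nat.even_add_one]
  by_cases hE : Even (padicValNat 2 (Int.gcd (Lam x0) (2 * v)))
  · left
    exact AE.mono key fun x y h => ⟨h.1.2 hE, fun h' => h.2.1 h' hE⟩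
  · right
    exact AE.mono key fun x y h => ⟨fun h' => hE (h.1.1 h'), h.2.2 hE⟩

theorem l_ev_big72 (hb : L_prod_big) : L_ev_big := by
  intro F Θ hF hpos hΘ
  obtain ⟨e, he, hP⟩ := hb F Θ hF hpos hΘ
  obtain ⟨c, hc⟩ := const72 F (fun x => ((Lam x : ℤ) : ZMod 2))
  have hX : AE F (fun x _ => ((Lam x : ℤ) : ZMod 2) = c) :=
    hc.mono fun x hx => Eventually.of_forall fun _ => hx
  have hY : AE F (fun _ y => ((Lam y : ℤ) : ZMod 2) = c) :=
    Eventually.of_forall fun _ => hc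
  refine AE.mono ((hX.and hY).and hP) fun x y h => ?_
  obtain ⟨⟨hx, hy⟩, hL, _⟩ := h
  have hmod : Lam x ≡ Lam y [ZMOD 2] := by
    have := (ZMod.intCast_eq_intCast_iff (Lam x) (Lam y) 2).1 (by rw [hx, hy])
    exact_mod_cast this
  have hodd : ¬ (2 : ℤ) ∣ Lam (x * y) := by
    rw [hL]
    have h1 : (Lam x - Lam y) % 2 = 0 := by
      have := hmod.dvd
      omega
    rcases he with ⟨rfl, _⟩ | ⟨rfl, _⟩ <;> omega
  unfold ev
  have hnd : ¬ 2 ∣ Int.gcd (Lam (x * y)) (2 * b (x * y)) := by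
    intro h
    apply hodd
    have h1 : ((2 : ℕ) : ℤ) ∣ (Int.gcd (Lam (x * y)) (2 * b (x * y)) : ℤ) := by exact_mod_cast h
    exact (by exact_mod_cast h1 : (2 : ℤ) ∣ _).trans (Int.gcd_dvd_left ..)
  rw [padicValNat.eq_zero_of_not_dvd hnd]
  exact Even.zero

end

end Pool.Agent.Lib.MP_60922f_co.T43
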