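import Pool.Agent.Lib.MP_60922f_co.T43LA43

/-! THREE COLOURS, module LD (helper43): products are not in the thin zones. -/

set_option autoImplicit false

namespace Pool.Agent.Lib.MP_60922f_co.T43

open Filter Topology

noncomputable section

/-- distance to the nearest integer. -/
def gd (z : ℝ) : ℝ := |z - round z|

theorem gd_lip (z w : ℝ) : gd z ≤ |z - w| + gd w := by
  unfold gd
  calc |z - round z| ≤ |z - round w| := round_le z (round w)
    _ = |(z - w) + (w - round w)| := by ring_nf
    _ ≤ |z - w| + |w - round w| := abs_add_le _ _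

theorem gd_lip' (z w : ℝ) : |gd z - gd w| ≤ |z - w| := by
  rw [abs_le]
  constructor
  · have := gd_lip w z
    rw [abs_sub_comm] at this
    linarith
  · have := gd_lip z w
    linarith

theorem gd_cont : Continuous gd := by
  rw [Metric.continuous_iff]
  intro w e he
  refine ⟨e, he, fun z hz => ?_⟩
  rw [Real.dist_eq] at hz ⊢
  exact lt_of_le_of_lt (gd_lip' z w) hz

theorem gd_nonneg (z : ℝ) : 0 ≤ gd z := abs_nonneg _

theorem gd_le (z : ℝ) : gd z ≤ 1 / 2 := abs_sub_round z

theorem lg_mul43 (x y : ℕ) (hx : 1 ≤ x) (hy : 1 ≤ y) : lg (x * y) = lg x + lg y := by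
  unfold lg
  push_cast
  have h1 : (x : ℝ) ≠ 0 := by positivity
  have h2 : (y : ℝ) ≠ 0 := by positivity
  exact Real.logb_mul h1 h2

theorem lg_eq43 (x : ℕ) : lg x = Lam x + th x := by unfold th; ring

theorem Lam_mul43 (x y : ℕ) (hx : 1 ≤ x) (hy : 1 ≤ y) :
    Lam (x * y) = Lam x + Lam y + round (th x + th y) := by
  have h : lg (x * y) = ((Lam x + Lam y : ℤ) : ℝ) + (th x + th y) := by
    rw [lg_mul43 x y hx hy, lg_eq43 x, lg_eq43 y]; push_cast; ring
  show round (lg (x * y)) = _
  rw [h, round_intCast_add]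

theorem th_mul43 (x y : ℕ) (hx : 1 ≤ x) (hy : 1 ≤ y) :
    th (x * y) = th x + th y - round (th x + th y) := by
  have h1 := Lam_mul43 x y hx hy
  have h2 := lg_mul43 x y hx hy
  rw [lg_eq43 x, lg_eq43 y, lg_eq43 (x * y), h1] at h2
  push_cast at h2
  linarith

theorem abs_th_mul43 (x y : ℕ) (hx : 1 ≤ x) (hy : 1 ≤ y) :
    |th (x * y)| = gd (th x + th y) := by
  rw [th_mul43 x y hx hy]; rfl

theorem disc43 (p : ℝ) (hp : 0 < p) : ∃ d > 0, ∀ j : ℕ, aa / 2 ^ j ≠ p → d ≤ |p - aa / 2 ^ j| := by
  have hlim : Tendsto (fun j : ℕ => aa / 2 ^ j) atTop (𝓝 0) := by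
    have := tendsto_pow_atTop_nhds_zero_of_lt_one (r := (1/2 : ℝ)) (by norm_num) (by norm_num)
    have h2 := this.const_mul aa
    simp only [mul_zero] at h2
    refine h2.congr fun j => ?_
    rw [one_div, inv_pow]; rfl
  have hev : ∀ᶠ j : ℕ in atTop, aa / 2 ^ j < p / 2 := hlim.eventually_lt_const (by linarith)
  obtain ⟨N, hN⟩ := eventually_atTop.1 hev
  have hfin : ∀ N : ℕ, ∃ d > 0, ∀ j < N, aa / 2 ^ j ≠ p → d ≤ |p - aa / 2 ^ j| := by
    intro N
    induction N with
    | zero => exact ⟨1, one_pos, fun j hj => absurd hj (by omega)⟩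
    | succ N ih =>
      obtain ⟨d, hd, h⟩ := ih
      by_cases hN : aa / 2 ^ N = p
      · refine ⟨d, hd, fun j hj hj' => ?_⟩
        rcases Nat.lt_succ_iff_lt_or_eq.1 hj with h1 | h1
        · exact h j h1 hj'
        · subst h1; exact absurd hN hj'
      · refine ⟨min d |p - aa / 2 ^ N|, lt_min hd (abs_pos.2 (sub_ne_zero.2 (Ne.symm hN))), fun j hj hj' => ?_⟩
        rcases Nat.lt_succ_iff_lt_or_eq.1 hj with h1 | h1
        · exact (min_le_left _ _).trans (h j h1 hj')
        · subst h1; exact min_le_right _ _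
  obtain ⟨d, hd, h⟩ := hfin N
  refine ⟨min d (p / 2), lt_min hd (by linarith), fun j hj => ?_⟩
  rcases lt_or_ge j N with h1 | h1
  · exact (min_le_left _ _).trans (h j h1 hj)
  · have h2 := hN j h1
    refine (min_le_right _ _).trans ?_
    have h3 : p / 2 ≤ p - aa / 2 ^ j := by linarith
    exact h3.trans (le_abs_self _)

/-- no integer has `2 log_3 x` odd. -/
theorem no_half43 (x : ℕ) (hx : 1 ≤ x) : |th x| ≠ 1 / 2 := by
  intro h
  have hx0 : (0 : ℝ) < x := by exact_mod_cast hx
  have h1 : ∃ k : ℤ, 2 * lg x = 2 * k + 1 := by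
    rcases abs_eq (by norm_num : (0:ℝ) ≤ 1/2) |>.1 h with h | h
    · exact ⟨Lam x, by rw [lg_eq43, h]; ring⟩
    · exact ⟨Lam x - 1, by rw [lg_eq43, h]; push_cast; ring⟩
  obtain ⟨k, hk⟩ := h1
  have h0 : 0 ≤ lg x := Real.logb_nonneg (by norm_num) (by exact_mod_cast hx)
  have hk0 : 0 ≤ 2 * k + 1 := by
    have : (0 : ℝ) ≤ ((2 * k + 1 : ℤ) : ℝ) := by push_cast; linarith
    exact_mod_cast this
  obtain ⟨m, rfl⟩ : ∃ m : ℕ, k = m := ⟨k.toNat, by omega⟩
  have h3 : (x : ℝ) ^ 2 = 3 ^ (2 * m + 1) := by
    have e1 : (3 : ℝ) ^ (2 * lg x) = (x : ℝ) ^ 2 := by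
      rw [mul_comm, Real.rpow_mul (by norm_num), lg, Real.rpow_logb (by norm_num) (by norm_num) hx0]
      norm_num
    rw [← e1, hk]
    have : (2 * ((m : ℤ) : ℝ) + 1) = ((2 * m + 1 : ℕ) : ℝ) := by push_cast; ring
    rw [this, Real.rpow_natCast]
  have h4 : x ^ 2 = 3 ^ (2 * m + 1) := by exact_mod_cast h3
  have : Fact (Nat.Prime 3) := ⟨Nat.prime_three⟩
  have h5 := congrArg (padicValNat 3) h4
  rw [padicValNat.pow, padicValNat.pow, padicValNat.self (by norm_num)] at h5
  omega

theorem aaj_pos43 (j : ℕ) : 0 < aa / 2 ^ j := by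
  have := aa_pos; positivity

theorem aaj_le43 (j : ℕ) : aa / 2 ^ j ≤ aa := by
  have := aa_pos
  apply div_le_self this.le
  exact one_le_pow₀ (by norm_num)

/-- a number whose double position is at distance `aa/2^j` from an integer does not exist. -/
theorem no_gd43 (x : ℕ) (hx : 1 ≤ x) (j : ℕ) : gd (2 * th x) ≠ aa / 2 ^ j := by
  intro h
  unfold gd at h
  have h2 : 2 * lg x = 2 * Lam x + 2 * th x := by rw [lg_eq43]; ring
  rcases (abs_eq (aaj_pos43 j).le).1 h with h | h
  · refine (l_irr x hx (2 * Lam x + round (2 * th x)) 1 j (Or.inl rfl)).2 ?_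
    push_cast; linarith
  · refine (l_irr x hx (2 * Lam x + round (2 * th x)) (-1) j (Or.inr rfl)).2 ?_
    push_cast; linarith

/-- a number whose position is at distance `aa/2^j` from an integer does not exist. -/
theorem no_th43 (x : ℕ) (hx : 1 ≤ x) (j : ℕ) : |th x| ≠ aa / 2 ^ j := by
  intro h
  rcases (abs_eq (aaj_pos43 j).le).1 h with h | h
  · refine (l_irr x hx (Lam x) 1 j (Or.inl rfl)).1 ?_
    rw [lg_eq43 x, h]; ring
  · refine (l_irr x hx (Lam x) (-1) j (Or.inr rfl)).1 ?_
    rw [lg_eq43 x, h]; ring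

/-- two close points with the same distance to the integers, not `0`, `1/2`, are equal. -/
theorem gd_inj43 (z w p : ℝ) (hz : gd z = p) (hw : gd w = p) (h1 : |z - w| < 2 * p)
    (h2 : |z - w| < 1 - 2 * p) : z = w := by
  have hp : 0 ≤ p := hz ▸ gd_nonneg z
  unfold gd at hz hw
  by_cases hr : round z = round w
  · rcases (abs_eq hp).1 hz with hz' | hz' <;> rcases (abs_eq hp).1 hw with hw' | hw'
    · rw [hr] at hz'; linarith
    · rw [hr] at hz'
      have : z - w = 2 * p := by linarith
      rw [this, abs_of_nonneg (by linarith)] at h1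
      linarith
    · rw [hr] at hz'
      have : z - w = -(2 * p) := by linarith
      rw [this, abs_neg, abs_of_nonneg (by linarith)] at h1
      linarith
    · rw [hr] at hz'; linarith
  · exfalso
    have h3 : (1 : ℝ) ≤ |(round z : ℝ) - round w| := by
      have : (1 : ℤ) ≤ |round z - round w| := Int.one_le_abs (sub_ne_zero.2 hr)
      exact_mod_cast this
    have h4 : |(round z : ℝ) - round w| ≤ |z - round z| + |z - w| + |w - round w| := by
      have e : (round z : ℝ) - round w = -(z - round z) + (z - w) + (w - round w) := by ring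
      rw [e]
      refine (abs_add_le _ _).trans ?_
      gcongr
      refine (abs_add_le _ _).trans ?_
      rw [abs_neg]
    linarith

theorem good43 (F : Ultrafilter ℕ) (Θ : ℝ) (hF : (F : Filter ℕ) ≤ atTop) (hP : Pos F Θ)
    (h0 : ∀ᶠ x in (F : Filter ℕ), th x ≠ 0) :
    ∀ᶠ x in (F : Filter ℕ), 1 ≤ x ∧ 0 < gd (th x + Θ) ∧ ∀ j : ℕ, 1 ≤ j → aa / 2 ^ j ≠ gd (th x + Θ) := by
  have hpos : ∀ᶠ x in (F : Filter ℕ), 1 ≤ x := hF (Filter.eventually_ge_atTop 1)
  have hlim : Tendsto (fun x => gd (th x + Θ)) (F : Filter ℕ) (𝓝 (gd (2 * Θ))) := by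
    have h1 : Tendsto (fun x => th x + Θ) (F : Filter ℕ) (𝓝 (Θ + Θ)) := hP.add_const Θ
    rw [two_mul]
    exact (gd_cont.tendsto _).comp h1
  have hdiff : Tendsto (fun x => th x - Θ) (F : Filter ℕ) (𝓝 0) := by
    have h1 := hP.sub_const Θ
    rwa [sub_self] at h1
  rcases (gd_nonneg (2 * Θ)).eq_or_lt with hz | hpp
  · -- `2 Θ` is an integer
    have hΘ : |Θ| ≤ 1 / 2 := by
      have h1 : Tendsto (fun x => |th x|) (F : Filter ℕ) (𝓝 |Θ|) := hP.abs
      exact le_of_tendsto' h1 th_abs
    have hz' : 2 * Θ = round (2 * Θ) := by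
      have := hz.symm
      unfold gd at this
      have := abs_eq_zero.1 this
      linarith
    rw [abs_le] at hΘ
    have h3 : round (2 * Θ) = 0 ∨ round (2 * Θ) = 1 ∨ round (2 * Θ) = -1 := by
      have h4 : (-1 : ℝ) ≤ (round (2 * Θ) : ℝ) := by linarith
      have h5 : (round (2 * Θ) : ℝ) ≤ 1 := by linarith
      have h4' : (-1 : ℤ) ≤ round (2 * Θ) := by exact_mod_cast h4
      have h5' : round (2 * Θ) ≤ 1 := by exact_mod_cast h5
      omega
    rcases h3 with h3 | h3
    · have hΘ0 : Θ = 0 := by rw [h3] at hz'; simp at hz'; linarith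
      subst hΘ0
      filter_upwards [hpos, h0] with x hx hx0
      have e : gd (th x + 0) = |th x| := by
        rw [add_zero]
        unfold gd
        have hr : |th x| ≤ 1 / 2 := th_abs x
        have hne := no_half43 x hx
        have : round (th x) = 0 := by
          rw [round_eq_zero_iff]
          have hlt : |th x| < 1 / 2 := lt_of_le_of_ne hr hne
          rw [abs_lt] at hlt
          exact ⟨by linarith [hlt.1], hlt.2⟩
        rw [this]; simp
      refine ⟨hx, ?_, fun j hj => ?_⟩
      · rw [e]; exact abs_pos.2 hx0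
      · rw [e]; exact (no_th43 x hx j).symm
    · -- `|Θ| = 1/2`
      have hΘ1 : ∃ e : ℤ, (e = 1 ∨ e = -1) ∧ Θ = e / 2 := by
        rcases h3 with h3 | h3
        · exact ⟨1, Or.inl rfl, by rw [h3] at hz'; push_cast at hz' ⊢; linarith⟩
        · exact ⟨-1, Or.inr rfl, by rw [h3] at hz'; push_cast at hz' ⊢; linarith⟩
      obtain ⟨e, he, hΘe⟩ := hΘ1
      filter_upwards [hpos] with x hx
      -- `gd (th x + e/2)`: positive, twice it is `gd`-related
      have key : ∀ r : ℝ, gd (th x + Θ) = r → 2 * r ≤ 1 / 2 → gd (2 * th x) = 2 * r := by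
        intro r hr hr2
        have hrr : 0 ≤ r := hr ▸ gd_nonneg _
        unfold gd at hr ⊢
        have h5 : 2 * th x = ((2 * round (th x + Θ) - e : ℤ) : ℝ) + 2 * (th x + Θ - round (th x + Θ)) := by
          rw [hΘe]; push_cast; ring
        rcases (abs_eq hrr).1 hr with h6 | h6
        · rw [h6] at h5
          rcases hr2.lt_or_eq with h7 | h7
          · have h8 : round (2 * th x) = 2 * round (th x + Θ) - e := by
              rw [h5, round_intCast_add]
              have : round (2 * r) = 0 := by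
                rw [round_eq_zero_iff]; exact ⟨by linarith, h7⟩
              rw [this]; ring
            rw [h8]
            have : 2 * th x - ((2 * round (th x + Θ) - e : ℤ) : ℝ) = 2 * r := by linarith
            rw [this, abs_of_nonneg (by linarith)]
          · have h8 : round (2 * th x) = 2 * round (th x + Θ) - e + 1 := by
              rw [h5, round_intCast_add, h7]
              have : round ((1:ℝ) / 2) = 1 := by rw [one_div]; exact round_two_inv
              rw [this]
            rw [h8]
            have : 2 * th x - ((2 * round (th x + Θ) - e + 1 : ℤ) : ℝ) = 2 * r - 1 := by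
              push_cast at h5 ⊢; linarith
            rw [this, h7]; norm_num [abs_of_nonneg]
        · rw [h6] at h5
          have h8 : round (2 * th x) = 2 * round (th x + Θ) - e := by
            rw [h5, round_intCast_add]
            have : round (2 * -r) = 0 := by
              rw [round_eq_zero_iff]; exact ⟨by linarith, by linarith⟩
            rw [this]; ring
          rw [h8]
          have : 2 * th x - ((2 * round (th x + Θ) - e : ℤ) : ℝ) = -(2 * r) := by linarith
          rw [this, abs_neg, abs_of_nonneg (by linarith)]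
      refine ⟨hx, ?_, fun j hj => ?_⟩
      · rcases (gd_nonneg (th x + Θ)).eq_or_lt with h | h
        · exfalso
          unfold gd at h
          have h5 : th x + Θ = round (th x + Θ) := by
            have := abs_eq_zero.1 h.symm; linarith
          -- th x = integer - e/2, so |th x| = 1/2
          have h6 := th_abs x
          have h7 : 2 * th x = ((2 * round (th x + Θ) - e : ℤ) : ℝ) := by
            rw [hΘe] at h5 ⊢; push_cast; linarith
          have h8 : |((2 * round (th x + Θ) - e : ℤ) : ℝ)| ≤ 1 := by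
            rw [← h7, abs_mul]; norm_num; linarith
          have h9 : |2 * round (th x + Θ) - e| ≤ 1 := by exact_mod_cast h8
          have h10 : |2 * round (th x + Θ) - e| = 1 := by
            rcases he with rfl | rfl
            · rw [abs_le] at h9
              rcases (show 2 * round (th x + Θ) - 1 = 1 ∨ 2 * round (th x + Θ) - 1 = -1 by omega) with h | h
              · rw [h]; rfl
              · rw [h]; rfl
            · rw [abs_le] at h9
              rcases (show 2 * round (th x + Θ) - (-1) = 1 ∨ 2 * round (th x + Θ) - (-1) = -1 by omega) with h | h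
              · rw [h]; rfl
              · rw [h]; rfl
          have h11 : |2 * th x| = 1 := by rw [h7]; exact_mod_cast h10
          rw [abs_mul] at h11
          norm_num at h11
          exact no_half43 x hx (by linarith)
        · exact h
      · intro h
        obtain ⟨i, rfl⟩ : ∃ i, j = i + 1 := ⟨j - 1, by omega⟩
        have h1 := aaj_le43 i
        have h2 := l_num.2.1
        have h3 : 2 * (aa / 2 ^ (i + 1)) = aa / 2 ^ i := by rw [pow_succ]; field_simp
        have := key _ h.symm (by rw [h3]; norm_num at h2 ⊢; linarith)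
        rw [h3] at this
        exact no_gd43 x hx i this
  · obtain ⟨d, hd, hdj⟩ := disc43 _ hpp
    have hev1 : ∀ᶠ x in (F : Filter ℕ), |gd (th x + Θ) - gd (2 * Θ)| < min d (gd (2 * Θ)) := by
      have h1 := Metric.tendsto_nhds.1 hlim (min d (gd (2 * Θ))) (lt_min hd hpp)
      simpa [Real.dist_eq] using h1
    have hev2 : ∀ᶠ x in (F : Filter ℕ), |th x - Θ| < min (2 * gd (2 * Θ)) (1 / 4) := by
      have h1 := Metric.tendsto_nhds.1 hdiff (min (2 * gd (2 * Θ)) (1 / 4)) (lt_min (by linarith) (by norm_num))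
      simpa [Real.dist_eq] using h1
    filter_upwards [hpos, hev1, hev2] with x hx h1 h2
    refine ⟨hx, ?_, fun j hj h => ?_⟩
    · have := (abs_lt.1 h1).1
      have h3 : min d (gd (2 * Θ)) ≤ gd (2 * Θ) := min_le_right _ _
      linarith
    · have h3 : aa / 2 ^ j = gd (2 * Θ) := by
        by_contra hne
        have h4 := hdj j hne
        rw [h, abs_sub_comm] at h4
        have h5 : min d (gd (2 * Θ)) ≤ d := min_le_left _ _
        linarith
      have ha : gd (2 * Θ) < 1 / 3 := by
        rw [← h3]; have := aaj_le43 j; have := l_num.2.1; norm_num at *; linarith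
      have h4 : th x + Θ = 2 * Θ := by
        refine gd_inj43 _ _ (gd (2 * Θ)) (by rw [← h3, h]) rfl ?_ ?_
        · have e : th x + Θ - 2 * Θ = th x - Θ := by ring
          rw [e]; exact lt_of_lt_of_le h2 (min_le_left _ _)
        · have e : th x + Θ - 2 * Θ = th x - Θ := by ring
          rw [e]
          have := lt_of_lt_of_le h2 (min_le_right _ _)
          linarith
      have h5 : Θ = th x := by linarith
      rw [h5] at h3
      exact no_gd43 x hx j h3.symm

theorem l_prodS : L_prodS := by
  intro F Θ hF hP h0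
  have hpos : ∀ᶠ x in (F : Filter ℕ), 1 ≤ x := hF (Filter.eventually_ge_atTop 1)
  refine (good43 F Θ hF hP h0).mono fun x hx => ?_
  obtain ⟨hx1, hp, hj⟩ := hx
  obtain ⟨d, hd, hdj⟩ := disc43 _ hp
  have hlim : Tendsto (fun y => gd (th x + th y)) (F : Filter ℕ) (𝓝 (gd (th x + Θ))) := by
    have h1 : Tendsto (fun y => th x + th y) (F : Filter ℕ) (𝓝 (th x + Θ)) := hP.const_add (th x)
    exact (gd_cont.tendsto _).comp h1
  have hev1 : ∀ᶠ y in (F : Filter ℕ), |gd (th x + th y) - gd (th x + Θ)| < d / 2 := by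
    have h1 := Metric.tendsto_nhds.1 hlim (d / 2) (by linarith)
    simpa [Real.dist_eq] using h1
  have hev2 : ∀ᶠ y in (F : Filter ℕ), 1 / Real.sqrt ((x * y : ℕ) : ℝ) < d / 2 := by
    have h1 : Tendsto (fun y : ℕ => 1 / Real.sqrt ((x * y : ℕ) : ℝ)) atTop (𝓝 0) := by
      have h2 : Tendsto (fun y : ℕ => ((x * y : ℕ) : ℝ)) atTop atTop := by
        have h3 : Tendsto (fun y : ℕ => x * y) atTop atTop :=
          tendsto_id.const_mul_atTop' (by omega)
        exact tendsto_natCast_atTop_atTop.comp h3
      have h4 := (Real.tendsto_sqrt_atTop.comp h2)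
      exact (tendsto_const_nhds.div_atTop h4)
    exact hF (h1.eventually_lt_const (by linarith))
  filter_upwards [hpos, hev1, hev2] with y hy h1 h2 hS
  obtain ⟨j, hj1, -, hj3⟩ := hS
  rw [abs_th_mul43 x y hx1 hy] at hj3
  have h3 := hdj j (hj j hj1)
  have h4 : |gd (th x + Θ) - aa / 2 ^ j| ≤ |gd (th x + th y) - gd (th x + Θ)| + |gd (th x + th y) - aa / 2 ^ j| := by
    have e : gd (th x + Θ) - aa / 2 ^ j = -(gd (th x + th y) - gd (th x + Θ)) + (gd (th x + th y) - aa / 2 ^ j) := by ring
    rw [e]
    refine (abs_add_le _ _).trans ?_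
    rw [abs_neg]
  linarith

end

end Pool.Agent.Lib.MP_60922f_co.T43
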