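import Pool.Agent.Lib.MP_60922f_co.T43B38
import Pool.Agent.Lib.MP_60922f_co.T43E14c
import Pool.Agent.Lib.MP_60922f_co.T43F5
import Pool.Agent.Lib.MP_60922f_co.T43F6
import Pool.Agent.Lib.MP_60922f_co.T43G66
import Pool.Agent.Lib.MP_60922f_co.T43Gb66
import Pool.Agent.Lib.MP_60922f_co.T43H98
import Pool.Agent.Lib.MP_60922f_co.T43LA43
import Pool.Agent.Lib.MP_60922f_co.T43LB98
import Pool.Agent.Lib.MP_60922f_co.T43LC72
import Pool.Agent.Lib.MP_60922f_co.T43LD43

/-!
THREE COLOURS (MP_60922f_co): the final theorem.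
-/

set_option autoImplicit false

namespace Pool.Agent.Lib.MP_60922f_co.T43

open Filter Topology

/-- For every nonprincipal ultrafilter `F` the colours of `x + y` and `x * y` do not agree
for almost all `x` and almost all `y`. -/
theorem flips_all (F : Ultrafilter ℕ) (hF : (F : Filter ℕ) ≤ atTop) : Flips F := by
  have hsum : L_sum := l_sum98 l_add
  have hsumh : L_sum_half := l_sum_half98 l_add
  have hev : L_ev_c := l_ev_c72 hsum l_prod98
  have hevb : L_ev_big := l_ev_big72 l_prod_big98
  exact glueF B38.P_zero' (E14.E1 l_num l_blk hsum hsumh l_prodS hevb)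
    (E14.E2 l_num l_blk hsum l_prod98 l_bsum_c72 l_bsum_i72 hev l_prodS)
    (p_F5 l_num hsum l_prod98 l_bsum_c72 hev) (p_F6 l_num hsum l_bsum_i72)
    (G66.g1_66 l_irr l_num l_blk hsum l_prod98 l_bsum_i72 l_prodS)
    (G66.g2_66 l_irr l_num l_blk hsum l_bsum_i72)
    (p_H98 l_num l_blk l_add l_bsum_i72) F hF

/-- The three colouring `col` has no infinite sequence with `a i + a j` and `a i * a j` of the
same colour for all `i < j`. -/
theorem three_key (a : ℕ → ℕ) (ha : StrictMono a) :
    ∃ i j, i < j ∧ col (a i + a j) ≠ col (a i * a j) :=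
  glue flips_all a ha

end Pool.Agent.Lib.MP_60922f_co.T43
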