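import Pool.Agent.Lib.MP_60922f_co.T43Defs

/-!
THREE COLOURS: statements of the modules (Props) and the glue.
-/

set_option autoImplicit false

namespace Pool.Agent.Lib.MP_60922f_co.T43

open Filter Topology

noncomputable section

/-! ### Shared lemmas -/

/-- (IR) -/
def L_irr : Prop := ∀ x : ℕ, 1 ≤ x → ∀ (M : ℤ) (s : ℝ) (j : ℕ), (s = 1 ∨ s = -1) →
  lg x ≠ M + s * (aa / 2 ^ j) ∧ 2 * lg x ≠ M + s * (aa / 2 ^ j)

/-- numerical values. -/
def L_num : Prop := 0.3154 < aa ∧ aa < 0.3156 ∧ 0.3381 < uu ∧ uu < 0.3383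

/-- block index. -/
def L_blk : Prop := ∀ (θ : ℝ) (t : ℤ), θ ≠ 0 →
  (blk θ = t ↔ aa / (2 : ℝ) ^ (t + 1) < |θ| ∧ |θ| ≤ aa / (2 : ℝ) ^ t)

/-- increment of the logarithm under addition. -/
def L_add : Prop := ∀ x y : ℕ, 1 ≤ x → 1 ≤ y → lg y < lg (x + y) ∧ lg (x + y) ≤ lg y + x / y

/-- position of the sum. -/
def L_sum : Prop := ∀ (F : Ultrafilter ℕ) (Θ : ℝ), (F : Filter ℕ) ≤ atTop → Pos F Θ → |Θ| < 1 / 2 →
  ∀ x : ℕ, 1 ≤ x → ∀ᶠ y in (F : Filter ℕ), Lam (x + y) = Lam y ∧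
    th y < th (x + y) ∧ th (x + y) ≤ th y + x / y

/-- position of the sum near one half. -/
def L_sum_half : Prop := ∀ (F : Ultrafilter ℕ) (Θ : ℝ), (F : Filter ℕ) ≤ atTop → Pos F Θ → |Θ| = 1 / 2 →
  ∀ x : ℕ, 1 ≤ x → ∀ᶠ y in (F : Filter ℕ), 0.4 < |th (x + y)|

/-- position of the product, small `Θ`. -/
def L_prod : Prop := ∀ (F : Ultrafilter ℕ) (Θ : ℝ), (F : Filter ℕ) ≤ atTop → Pos F Θ → |Θ| < 1 / 4 →
  AE F (fun x y => Lam (x * y) = Lam x + Lam y ∧ th (x * y) = th x + th y)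

/-- position of the product, large `Θ`. -/
def L_prod_big : Prop := ∀ (F : Ultrafilter ℕ) (Θ : ℝ), (F : Filter ℕ) ≤ atTop → Pos F Θ → 1 / 4 < |Θ| →
  ∃ e : ℤ, (e = 1 ∧ 0 < Θ ∨ e = -1 ∧ Θ < 0) ∧
  AE F (fun x y => Lam (x * y) = Lam x + Lam y + e ∧ th (x * y) = th x + th y - e)

/-- valuation of the sum, constant case. -/
def L_bsum_c : Prop := ∀ (F : Ultrafilter ℕ) (v : ℕ), (F : Filter ℕ) ≤ atTop → Bc F v →
  AE F (fun x y => b (x + y) = v)

/-- valuation of the sum, divergent case. -/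
def L_bsum_i : Prop := ∀ (F : Ultrafilter ℕ), (F : Filter ℕ) ≤ atTop → Binf F →
  ∀ x : ℕ, 1 ≤ x → ∀ᶠ y in (F : Filter ℕ), b (x + y) = b x

/-- states, constant valuation: the product has the other state (small `Θ`). -/
def L_ev_c : Prop := ∀ (F : Ultrafilter ℕ) (Θ : ℝ) (v : ℕ), (F : Filter ℕ) ≤ atTop → Pos F Θ → |Θ| < 1 / 4 →
  Bc F v → (AE F (fun x y => ev (x + y) ∧ ¬ ev (x * y))) ∨ (AE F (fun x y => ¬ ev (x + y) ∧ ev (x * y)))

/-- states of products of types with `|Θ| > 1/4`: even. -/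
def L_ev_big : Prop := ∀ (F : Ultrafilter ℕ) (Θ : ℝ), (F : Filter ℕ) ≤ atTop → Pos F Θ → 1 / 4 < |Θ| →
  AE F (fun x y => ev (x * y))

/-- products are not in the thin zones. -/
def L_prodS : Prop := ∀ (F : Ultrafilter ℕ) (Θ : ℝ), (F : Filter ℕ) ≤ atTop → Pos F Θ →
  (∀ᶠ x in (F : Filter ℕ), th x ≠ 0) → AE F (fun x y => ¬ S (x * y))

/-! ### The cases -/

/-- module B: not divisible by 3. -/
def P_zero : Prop := ∀ F : Ultrafilter ℕ, (F : Filter ℕ) ≤ atTop →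
  (∀ᶠ x in (F : Filter ℕ), ¬ 3 ∣ x) → Flips F

/-- module E1: `|Θ| ≥ u/2`. -/
def P_E1 : Prop := ∀ (F : Ultrafilter ℕ) (Θ : ℝ), (F : Filter ℕ) ≤ atTop →
  ((∃ v, Bc F v) ∨ Binf F) → Pos F Θ → uu / 2 ≤ |Θ| → Flips F

/-- module E2: `0 < |Θ| < u/2`. -/
def P_E2 : Prop := ∀ (F : Ultrafilter ℕ) (Θ : ℝ), (F : Filter ℕ) ≤ atTop →
  ((∃ v, Bc F v) ∨ Binf F) → Pos F Θ → 0 < |Θ| → |Θ| < uu / 2 → Flips F

/-- module F5: `Θ = 0`, constant valuation. -/
def P_F5 : Prop := ∀ (F : Ultrafilter ℕ) (v : ℕ), (F : Filter ℕ) ≤ atTop →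
  Bc F v → Pos F 0 → Flips F

/-- module F6: powers of 3. -/
def P_F6 : Prop := ∀ F : Ultrafilter ℕ, (F : Filter ℕ) ≤ atTop →
  (∀ᶠ x in (F : Filter ℕ), x = 3 ^ b x) → Flips F

/-- module G1: `Θ = 0`, `b → ∞`, no powers: the basic facts. `c` is the common value of `q`. -/
def P_G1 : Prop := ∀ F : Ultrafilter ℕ, (F : Filter ℕ) ≤ atTop → Binf F → Pos F 0 →
  (∀ᶠ x in (F : Filter ℕ), x ≠ 3 ^ b x) →
  ∃ c : Fin 3, c ≠ 0 ∧ (∀ᶠ x in (F : Filter ℕ), q (th x) = c) ∧ AE F (fun x y => col (x * y) = c) ∧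
    AE F (fun x y => (¬ ev (x + y) → col (x + y) = 0) ∧
      (ev (x + y) → q (th (x + y)) ≠ 0 ∧ (flag (x + y) → col (x + y) = q (th (x + y))) ∧
        (¬ flag (x + y) → col (x + y) = - q (th (x + y)))))

/-- module G2: crossing implies flagged. -/
def P_G2 : Prop := ∀ F : Ultrafilter ℕ, (F : Filter ℕ) ≤ atTop → Binf F → Pos F 0 →
  (∀ᶠ x in (F : Filter ℕ), x ≠ 3 ^ b x) → AE F Cross → AE F (fun x y => ev (x + y)) →
  AE F (fun x y => flag (x + y))

/-- module H: no crossing implies not flagged. -/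
def P_H : Prop := ∀ F : Ultrafilter ℕ, (F : Filter ℕ) ≤ atTop → Binf F → Pos F 0 →
  (∀ᶠ x in (F : Filter ℕ), x ≠ 3 ^ b x) → AE F (fun x y => ¬ Cross x y) →
  ¬ AE F (fun x y => flag (x + y))

/-! ### Glue -/

theorem ae_or (F : Ultrafilter ℕ) (P : ℕ → ℕ → Prop) : AE F P ∨ AE F (fun x y => ¬ P x y) := by
  unfold AE
  rcases Ultrafilter.em F (fun x => ∀ᶠ y in (F : Filter ℕ), P x y) with h | h
  · exact Or.inl h
  · right
    refine h.mono fun x hx => ?_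
    exact (Ultrafilter.eventually_not).2 hx

theorem AE.mono {F : Ultrafilter ℕ} {P Q : ℕ → ℕ → Prop} (h : AE F P)
    (hPQ : ∀ x y, P x y → Q x y) : AE F Q :=
  Filter.Eventually.mono h fun x hx => hx.mono fun y hy => hPQ x y hy

theorem AE.and {F : Ultrafilter ℕ} {P Q : ℕ → ℕ → Prop} (h : AE F P) (h' : AE F Q) :
    AE F (fun x y => P x y ∧ Q x y) := by
  have h1 : ∀ᶠ x in (F : Filter ℕ), ∀ᶠ y in (F : Filter ℕ), P x y := h
  have h2 : ∀ᶠ x in (F : Filter ℕ), ∀ᶠ y in (F : Filter ℕ), Q x y := h'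
  exact (h1.and h2).mono fun x hx => hx.1.and hx.2

theorem AE.exists {F : Ultrafilter ℕ} {P : ℕ → ℕ → Prop} (h : AE F P) : ∃ x y, P x y := by
  have h1 : ∀ᶠ x in (F : Filter ℕ), ∀ᶠ y in (F : Filter ℕ), P x y := h
  obtain ⟨x, hx⟩ := h1.exists
  obtain ⟨y, hy⟩ := hx.exists
  exact ⟨x, y, hy⟩

theorem fin3_flip {c d : Fin 3} (hc : c ≠ 0) (hd : d ≠ 0) (hcd : d ≠ c) : -c = d ∧ - d = c := by
  revert c d; decide

theorem fin3_neg {c : Fin 3} (hc : c ≠ 0) : - c ≠ c := by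
  revert c; decide

/-- `Θ = 0`, `b → ∞`, no powers. -/
theorem case_G (hG1 : P_G1) (hG2 : P_G2) (hH : P_H) : ∀ F : Ultrafilter ℕ, (F : Filter ℕ) ≤ atTop →
    Binf F → Pos F 0 → (∀ᶠ x in (F : Filter ℕ), x ≠ 3 ^ b x) → Flips F := by
  intro F hF hb hp hnp hcon
  obtain ⟨c, hc0, hq, hprod, hsum⟩ := hG1 F hF hb hp hnp
  rcases ae_or F (fun x y => ev (x + y)) with hev | hev
  · rcases ae_or F Cross with hcr | hcr
    · have hfl := hG2 F hF hb hp hnp hcr hev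
      obtain ⟨x, y, h⟩ := ((((hev.and hcr).and hfl).and (hprod.and hsum)).and hcon).exists
      obtain ⟨⟨⟨⟨h1, h2⟩, h3⟩, h4, h5⟩, h6⟩ := h
      have := (h5.2 h1).2.1 h3
      have hy : ∀ᶠ x in (F : Filter ℕ), ∀ᶠ y in (F : Filter ℕ), q (th y) = c := by
        filter_upwards with x using hq
      have hy' : AE F (fun _ y => q (th y) = c) := hy
      obtain ⟨x, y, h⟩ := (hy'.and ((((hev.and hcr).and hfl).and (hprod.and hsum)).and hcon)).exists
      obtain ⟨h0, ⟨⟨⟨h1, h2⟩, h3⟩, h4, h5⟩, h6⟩ := h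
      have h7 := (h5.2 h1).2.1 h3
      apply h2
      rw [h0, ← h7, h6, h4]
    · have hnf := hH F hF hb hp hnp hcr
      have hnf' : AE F (fun x y => ¬ flag (x + y)) := by
        rcases ae_or F (fun x y => flag (x + y)) with h | h
        · exact absurd h hnf
        · exact h
      have hy : ∀ᶠ x in (F : Filter ℕ), ∀ᶠ y in (F : Filter ℕ), q (th y) = c := by
        filter_upwards with x using hq
      have hy' : AE F (fun _ y => q (th y) = c) := hy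
      obtain ⟨x, y, h⟩ := (hy'.and ((((hev.and hcr).and hnf').and (hprod.and hsum)).and hcon)).exists
      obtain ⟨h0, ⟨⟨⟨h1, h2⟩, h3⟩, h4, h5⟩, h6⟩ := h
      have h7 := (h5.2 h1).2.2 h3
      have h8 : q (th (x + y)) = c := by
        rw [← h0]; by_contra h9; exact h2 h9
      rw [h6, h4, h8] at h7
      exact fin3_neg hc0 h7.symm
  · obtain ⟨x, y, h⟩ := ((hev.and (hprod.and hsum)).and hcon).exists
    obtain ⟨⟨h1, h4, h5⟩, h6⟩ := h
    have h7 := h5.1 h1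
    rw [h6, h4] at h7
    exact hc0 h7

theorem th_abs (n : ℕ) : |th n| ≤ 1 / 2 := by
  unfold th Lam
  exact abs_sub_round (lg n)

theorem glueF (h0 : P_zero) (hE1 : P_E1) (hE2 : P_E2) (hF5 : P_F5) (hF6 : P_F6) (hG1 : P_G1)
    (hG2 : P_G2) (hH : P_H) (F : Ultrafilter ℕ) (hF : (F : Filter ℕ) ≤ atTop) : Flips F := by
  rcases Ultrafilter.em F (fun x => ¬ 3 ∣ x) with h3 | h3
  · exact h0 F hF h3
  · have h3' : ∀ᶠ x in (F : Filter ℕ), 3 ∣ x := h3.mono fun x hx => by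
      by_contra h; exact hx h
    -- limit of positions
    obtain ⟨Θ, -, hΘ⟩ : ∃ Θ ∈ Set.Icc (-(1/2) : ℝ) (1/2), Tendsto th (F : Filter ℕ) (𝓝 Θ) := by
      have hc : IsCompact (Set.Icc (-(1/2) : ℝ) (1/2)) := isCompact_Icc
      have hm : (F.map th : Filter ℝ) ≤ 𝓟 (Set.Icc (-(1/2) : ℝ) (1/2)) := by
        rw [Filter.le_principal_iff, Ultrafilter.coe_map, Filter.mem_map]
        refine Filter.univ_mem' fun n => ?_
        have := th_abs n
        rw [abs_le] at this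
        exact ⟨this.1, this.2⟩
      obtain ⟨Θ, h1, h2⟩ := hc.ultrafilter_le_nhds (F.map th) hm
      exact ⟨Θ, h1, h2⟩
    have hbb : (∃ v, Bc F v) ∨ Binf F := by
      by_cases hv : ∃ v, ∀ᶠ x in (F : Filter ℕ), b x = v
      · obtain ⟨v, hv⟩ := hv
        left
        refine ⟨v, ?_, hv⟩
        have hpos : ∀ᶠ x in (F : Filter ℕ), 1 ≤ x := hF (Filter.eventually_ge_atTop 1)
        obtain ⟨x, h1, h2, h4⟩ := (hv.and (h3'.and hpos)).exists
        rw [← h1]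
        exact one_le_padicValNat_of_dvd (by omega) h2
      · right
        rw [Binf, Filter.tendsto_atTop]
        intro m
        by_contra hm
        have hm' : ∀ᶠ x in (F : Filter ℕ), ¬ (m ≤ b x) := (Ultrafilter.eventually_not).2 hm
        have hfin : ∃ v ∈ Finset.range m, ∀ᶠ x in (F : Filter ℕ), b x = v := by
          have : ∀ᶠ x in (F : Filter ℕ), ∃ v ∈ (Finset.range m : Set ℕ), b x = v := by
            refine hm'.mono fun x hx => ⟨b x, ?_, rfl⟩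
            simpa using hx
          rw [Ultrafilter.eventually_exists_mem_iff (Finset.finite_toSet _)] at this
          obtain ⟨v, hv1, hv2⟩ := this
          exact ⟨v, by simpa using hv1, hv2⟩
        obtain ⟨v, -, hv2⟩ := hfin
        exact hv ⟨v, hv2⟩
    rcases lt_or_ge |Θ| (uu / 2) with hlt | hge
    · rcases eq_or_ne Θ 0 with rfl | hne
      · rcases hbb with ⟨v, hv⟩ | hinf
        · exact hF5 F v hF hv hΘ
        · rcases Ultrafilter.em F (fun x => x = 3 ^ b x) with hp | hp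
          · exact hF6 F hF hp
          · exact case_G hG1 hG2 hH F hF hinf hΘ hp
      · exact hE2 F Θ hF hbb hΘ (abs_pos.2 hne) hlt
    · exact hE1 F Θ hF hbb hΘ hge

theorem glue (h : ∀ F : Ultrafilter ℕ, (F : Filter ℕ) ≤ atTop → Flips F) (a : ℕ → ℕ)
    (ha : StrictMono a) : ∃ i j, i < j ∧ col (a i + a j) ≠ col (a i * a j) := by
  by_contra hcon
  push Not at hcon
  let F : Ultrafilter ℕ := (hyperfilter ℕ).map a
  have hF : (F : Filter ℕ) ≤ atTop := by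
    have h1 : Tendsto a atTop atTop := ha.tendsto_atTop
    have h2 : ((hyperfilter ℕ : Ultrafilter ℕ) : Filter ℕ) ≤ atTop := by
      rw [← Nat.cofinite_eq_atTop]; exact hyperfilter_le_cofinite
    exact (Filter.map_mono h2).trans h1
  refine h F hF ?_
  have h2 : ((hyperfilter ℕ : Ultrafilter ℕ) : Filter ℕ) ≤ atTop := by
    rw [← Nat.cofinite_eq_atTop]; exact hyperfilter_le_cofinite
  change ∀ᶠ x in Filter.map a ((hyperfilter ℕ : Ultrafilter ℕ) : Filter ℕ),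
    ∀ᶠ y in Filter.map a ((hyperfilter ℕ : Ultrafilter ℕ) : Filter ℕ), col (x + y) = col (x * y)
  rw [Filter.eventually_map]
  refine Filter.Eventually.of_forall fun i => ?_
  rw [Filter.eventually_map]
  have h3 : ∀ᶠ j in ((hyperfilter ℕ : Ultrafilter ℕ) : Filter ℕ), i < j :=
    h2 (Filter.eventually_gt_atTop i)
  exact h3.mono fun j hj => hcon i j hj

end

end Pool.Agent.Lib.MP_60922f_co.T43
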